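import Pool.Agent.H36.BK.All

/-!
# Project BL (MP_c890a7_co): posets of width `w` with at most `w^(11/10)` elements

`1/2 - δ(P) ≤ (C (log log w)^2 / log w)^4`. This extends project BK of helper36 (posets with at most `κ w`
elements, `κ` fixed) to polynomially many elements. New: (1) the densities are at most `2^16 κ / M`
(stretching by `1 + 1/κ` instead of `2` in `S_few`), (2) grouping of the elements by the size of their
densities and the place of their modes, and restriction of the laws to a window.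

Every stub `S_x : Prop` is to be proved as `theorem x : S_x`, or `theorem x : S_a → S_b → S_x` if the
docstring names stubs it depends on. Everything in `Pool.Agent.H36.BK.All` may be used
(`uni`, `fkg`, `cov`, `ind`, `pair`, `lim`, `clust`, `lc`, `spread`, ... are proved there).
-/

set_option autoImplicit false

open Finset Filter Topology
open scoped Classical

namespace Pool.Agent.H34.BL

open Pool.Agent.H36.BK Pool.Agent.H36.BK.LW Pool.Agent.H13R3.WB Pool.Agent.H931R3.Bal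

/-- BL-FEW. Adapt `Pool/Agent/H36/BK/FEW.lean` (118 lines). `shift_count` with `m := M / κ`,
`t := M / (512 κ)`, `k := (w+1)/2`: `|E| (t + m)^k ≤ t^k |Om (M + m)|`. For large `M`:
`|Om (M + m)| ≤ (21/20) (1 + 1/κ)^n |Om M| ≤ (21/20) e^w |Om M|` (`tendsto_Om`, `n ≤ κ w`), and
`500 t ≤ t + m`, so `|E| 500^(w/2) ≤ (21/20) e^w |Om M|`; `4 (21/20) (e / √500)^w ≤ 4.2 * 0.1216 ≤ 1`. -/
def S_few1 : Prop :=
  ∀ (α : Type) [Fintype α] [PartialOrder α] (κ : ℕ) (A : Finset α),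
    IsAntichain (· ≤ ·) (A : Set α) → A.Nonempty → Fintype.card α ≤ κ * A.card →
    ∀ᶠ M : ℕ in atTop, 4 * cnt α M (fun f =>
      A.card ≤ 2 * (A.filter fun x => len M f x ≤ M / (512 * κ)).card) ≤ (Om α M).card

/-- BL-DENS. From `S_few1` (and `four`, `spread`, `lc`): adapt `Pool/Agent/H36/BK/BK11.lean` with
`t = M / (512 κ)`, `r = (t + 3) / 4`; `Nx r ≤ 16 T` and `r ≥ t/4`, `t ≥ M/(512 κ) - 1`, so
`Nx M ≤ 2^16 κ T` for large `M`. (`κ ≥ 1` follows from `card α ≤ κ card A`, `A` nonempty.) -/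
def S_dens1 : Prop :=
  ∀ (α : Type) [Fintype α] [PartialOrder α] (κ : ℕ) (A : Finset α),
    IsAntichain (· ≤ ·) (A : Set α) → A.Nonempty → Fintype.card α ≤ κ * A.card →
    ∀ᶠ M : ℕ in atTop, A.card ≤
      6 * (A.filter fun x => ∀ j, Nx α M x j * M ≤ 2 ^ 16 * κ * (Om α M).card).card

/-- BL-TAIL. Exponential tails. Let `m` be a mode and `2 T ≤ N m * r`. Right tail: if
`N (m + r) > N m / 2` then `N j > N m / 2` for `m ≤ j ≤ m + r` (`N m * N (m+r) ≤ N j * N (2 m + r - j)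
≤ N j * N m`), so `T > (r + 1) N m / 2`, a contradiction; so `2 N (m + r) ≤ N m`. For `j ≥ m`:
`N m * N (j + r) ≤ N (m + r) * N j`, so `2 N (j + r) ≤ N j`; so
`2^k * ∑_{j ≥ m + k r} N j ≤ ∑_{j ≥ m} N j ≤ T`. The same on the left. -/
def S_tail1 : Prop :=
  ∀ (N : ℕ → ℕ) (M m r k : ℕ), (∀ j, M ≤ j → N j = 0) →
    (∀ a b c d, a ≤ b → a ≤ c → a + d = b + c → N a * N d ≤ N b * N c) →
    (∀ j, N j ≤ N m) → 0 < N m → 2 * ∑ i ∈ range M, N i ≤ N m * r →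
    2 ^ k * ∑ j ∈ (range M).filter (fun j => m + k * r ≤ j ∨ j + k * r ≤ m), N j ≤
      2 * ∑ i ∈ range M, N i

/-- BL-GRP. Pigeonhole. There are `∑_{i ≤ I} 2^i < 2^(I+1)` classes. -/
def S_grp1 : Prop :=
  ∀ (ι : Type) (G : Finset ι) (I : ℕ) (i v : ι → ℕ), (∀ x ∈ G, i x ≤ I ∧ v x < 2 ^ i x) →
    ∃ i₀ v₀ : ℕ, i₀ ≤ I ∧ v₀ < 2 ^ i₀ ∧
      G.card ≤ 2 ^ (I + 1) * (G.filter fun x => i x = i₀ ∧ v x = v₀).card

/-- The law restricted to the window `[o, o + L)`; the missing mass is distributed uniformly. -/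
noncomputable def win (o L : ℕ) (p : ℕ → ℝ) (s : ℕ) : ℝ :=
  if s < L then p (o + s) + (1 - ∑ t ∈ range L, p (o + t)) / L else 0

/-- BL-WIN. Restriction to a window changes `om` by at most `4 θ`: for nonnegative `a`, `b` one has
`|om M a b| ≤ (∑ a) (∑ b)`; write `p = p₁ + p₂`, `p₁` the part in the window, `p₂` of mass at most `θ`;
`om (p₁, q₁)` is invariant under the shift by `o` (`p`, `q` vanish from `M` on, so the part of the window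
beyond `M` does not matter); adding a constant of total mass at most `θ` on the window changes `om` by at
most `2 θ`. `win` is unimodal on `ℕ`: `p (o + ·)` is unimodal, a constant is added on `[0, L)`, and the
values from `L` on are zero. -/
def S_win1 : Prop :=
  ∀ (M o L : ℕ) (p q : ℕ → ℝ) (θ K : ℝ), 1 ≤ M → 1 ≤ L → 0 ≤ θ → θ ≤ 1 →
    (∀ s, 0 ≤ p s) → (∀ s, 0 ≤ q s) → (∀ s, M ≤ s → p s = 0) → (∀ s, M ≤ s → q s = 0) →
    ∑ s ∈ range M, p s = 1 → ∑ s ∈ range M, q s = 1 → Unim p → Unim q →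
    1 - θ ≤ ∑ s ∈ range L, p (o + s) → 1 - θ ≤ ∑ s ∈ range L, q (o + s) →
    (∀ s, p s * L ≤ K) → (∀ s, q s * L ≤ K) →
    ((∀ s, 0 ≤ win o L p s) ∧ ∑ s ∈ range L, win o L p s = 1 ∧
      (∀ s, win o L p s ≤ (K + 1) / L) ∧ Unim (win o L p)) ∧
    |om L (win o L p) (win o L q) - om M p q| ≤ 4 * θ

/-- BL-CORE. From `S_dens1`, `S_tail1`, `S_grp1`, `S_win1` and `four`, `uni`, `fkg`, `cov`, `ind`, `pair`,
`clust`, `lim` of `Pool.Agent.H36.BK` (see `Pool/Agent/H96/BK/Core.lean`, 184 lines, for the old version).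
Put `K = 2^16 κ`, `M = 2^J` with `J` large, `T = card Om`, `w = card A`, `n = card α`.

1. `G` = the elements of `A` in `S_dens1`: `w ≤ 6 card G`. For `x ∈ G` let `m x` be a mode of `Nx x` and
`K x = Nx (m x) M / T`; `1 ≤ K x ≤ K` (the first since `T = ∑_{j<M} Nx j`). Let `i x = Nat.log 2 ⌊K x⌋`, so
`2^(i x) ≤ K x < 2^(i x + 1)`, `i x ≤ I := Nat.log 2 (2^16 κ)`, and `v x = m x / 2^(J - i x) < 2^(i x)`.
`S_grp1`: a class `G'` with `card G ≤ 2^(I+1) card G' ≤ 2^17 κ card G'`, values `i`, `v`.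

2. `r = 2^(J+1-i)`: `2 T ≤ Nx (m x) r`, so by `S_tail1` the mass of `{|j - m x| ≥ k r}` is at most
`2 / 2^k`. Window: `o = v 2^(J-i) - k r` (subtraction in `ℕ`), `L = 2^(J-i+q)`, `2^q ≥ 1 + 4 k`; it contains
all `j` with `|j - m x| < k r`. `θ = 2/2^k ≤ ε/32`. In the window `pm x * L ≤ 2^(i+1-J) 2^(J-i+q) = 2^(q+1)`.

3. `S_cov`, `fkg`: `∑_{x,y ∈ G'} (∑∑ Hs)^+ ≤ (n/6) M^2 T^2`, so there are at most `n/(6c)` ordered pairs in
`G'` with `∑∑ Hs > c M^2 T^2`, and `n ≤ κ w ≤ 6 κ 2^17 κ card G'`, so at most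
`2^17 κ^2 card G' / c ≤ D card G'`. `S_ind`: `S ⊆ G'` with `card G' ≤ 2 (2 D + 1) card S`.

4. For `x ≠ y` in `S`: `|prob x y - prob y x| > 2 ε`; `S_lim`: for large `J` the difference quotient is
`≥ 2 ε - ε/8`; `S_pair` (`K`, `R = 2^r'`, `b = 2^(J-r')`): `|om (pm x) (pm y)| ≥ 2 ε - ε/8 - ε/4 - ε/4`; `S_win1`:
`|om L (win) (win)| ≥ ε`. `S_clu` (`clust tree bigs' norm key`, see `All.lean`) with `J' = J - i + q`,
`K' = 2^(q+1) + 1` gives `card S ≤ clu l K' ε`. (`Nx` vanishes for `j ≥ M`.) -/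
def S_core1 : Prop :=
  ∀ (α : Type) [Fintype α] [PartialOrder α] (κ : ℕ) (A : Finset α) (ε lam c : ℝ) (l D r k q : ℕ),
    1 ≤ κ → IsAntichain (· ≤ ·) (A : Set α) → A.Nonempty → Fintype.card α ≤ κ * A.card →
    0 < ε → ε ≤ 1 → 1 ≤ D → 0 ≤ lam → 0 < c → 8 * (2 ^ 16 * (κ : ℝ)) / ε ≤ 2 ^ r →
    12 * 2 ^ r * lam ≤ ε / 4 → 32 * (2 ^ 16 * (κ : ℝ)) ^ 2 * c ≤ lam ^ 3 →
    2 ^ 17 * (κ : ℝ) ^ 2 ≤ D * c → 64 / ε ≤ 2 ^ k → 1 + 4 * k ≤ 2 ^ q →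
    (∀ x ∈ A, ∀ y ∈ A, x ≠ y → 2 * ε < |prob α x y - prob α y x|) →
    (A.card : ℝ) ≤ 12 * 2 ^ 17 * κ * (2 * D + 1) * clu l (2 ^ (q + 1) + 1) ε

/-- BL-NUM. The choice of the parameters (compare `Pool/Agent/H36/BK/BK23.lean`). `K = 2^16 κ`,
`8K/ε ≤ 2^r ≤ 16K/ε`, `lam = ε/(48 * 2^r) ≥ ε^2/(768 K)`, `c = lam^3/(32 K^2) ≥ ε^6/(2^114 κ^5)`,
`D = ⌈2^17 κ^2/c⌉`, so `12 * 2^17 κ (2 D + 1) ≤ 2^160 κ^8/ε^6`, and `κ^10 ≤ 2^10 w` gives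
`κ^8 ≤ 2^8 w^(4/5)`; `64/ε ≤ 2^k ≤ 128/ε`, `1 + 4k ≤ 2^q ≤ 2 (1 + 4 k)`, so `K' = 2^(q+1) + 1 ≤ C₁ log (2/ε)`;
`2^l ≥ ε^(-1/4) > 2^(l-1)`, `8^l ≥ ε^(-3/4)`:
`log clu ≤ C₂ ε^(-1/4) log (2/ε) + 200 π K'^2 ε^(-1/4) ≤ C₃ ε^(-1/4) log (2/ε)^2`. So the right hand side of
`S_core1` is at most `2^170 ε^(-6) w^(4/5) exp (C₃ ε^(-1/4) log (2/ε)^2) < w` if
`w ≥ exp (C ε^(-1/4) log (2/ε)^2)` with `C` large. -/
def S_num1 : Prop := ∃ C : ℝ, 1 ≤ C ∧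
  ∀ (κ w : ℕ) (ε : ℝ), 1 ≤ κ → (κ : ℝ) ^ 10 ≤ 2 ^ 10 * w → 0 < ε → ε ≤ 1 / 2 →
    Real.exp (C * ε ^ (-(1 / 4 : ℝ)) * Real.log (2 / ε) ^ 2) ≤ w →
    ∃ (l D r k q : ℕ) (lam c : ℝ), 1 ≤ D ∧ 0 ≤ lam ∧ 0 < c ∧
      8 * (2 ^ 16 * (κ : ℝ)) / ε ≤ 2 ^ r ∧ 12 * 2 ^ r * lam ≤ ε / 4 ∧
      32 * (2 ^ 16 * (κ : ℝ)) ^ 2 * c ≤ lam ^ 3 ∧ 2 ^ 17 * (κ : ℝ) ^ 2 ≤ D * c ∧
      64 / ε ≤ 2 ^ k ∧ 1 + 4 * k ≤ 2 ^ q ∧
      12 * 2 ^ 17 * (κ : ℝ) * (2 * D + 1) * clu l (2 ^ (q + 1) + 1) ε < w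

/-- BL-THM. From `S_core1`, `S_num1` (compare `Pool/Agent/H36/BK/S24.lean`, 38 lines):
`κ = ⌈n / w⌉ ≤ w^(1/10) + 1 ≤ 2 w^(1/10)`. -/
def S_thm1 : Prop := ∃ C : ℝ, 1 ≤ C ∧ ∀ (w : ℕ) (ε : ℝ), 0 < ε → ε ≤ 1 / 2 →
    Real.exp (C * ε ^ (-(1 / 4 : ℝ)) * Real.log (2 / ε) ^ 2) ≤ w →
    ∀ (P : Type) [Fintype P] [PartialOrder P] (A : Finset P), IsAntichain (· ≤ ·) (A : Set P) →
      A.card = w → (Fintype.card P : ℝ) ≤ (w : ℝ) ^ (11 / 10 : ℝ) → 1 / 2 - ε ≤ balance P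

/-- The infimum of the balance constants of the posets of width `w` with at most `w^(11/10)` elements. -/
noncomputable def dP (w : ℕ) : ℝ :=
  sInf {d : ℝ | ∃ (P : Type) (_ : Fintype P) (_ : PartialOrder P),
    (Fintype.card P : ℝ) ≤ (w : ℝ) ^ (11 / 10 : ℝ) ∧ HasWidth P w ∧ balance P = d}

/-- BL-RATE. From `S_thm1` with `ε = (C' (log log w)^2 / log w)^4` (if this is `≤ 1/2`; otherwise the left
side is `≤ 0 ≤ dP w`; compare `rate` in `Pool/Agent/H36/BK/Final.lean`). The set is not empty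
(antichain). -/
def S_rate1 : Prop := ∃ C : ℝ, 1 ≤ C ∧ ∀ w : ℕ, 16 ≤ w →
    1 / 2 - (C * (Real.log (Real.log w) ^ 2 / Real.log w)) ^ 4 ≤ dP w

end Pool.Agent.H34.BL
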