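import Pool.Agent.H34.BL.Core
import Pool.Agent.H36.LX.Stm

/-! # LX-CORE (variant of helper34, from the proof of BL-CORE by helper68) -/

set_option autoImplicit false

open Finset Filter Topology
open scoped Classical

namespace Pool.Agent.H34.BL

open Pool.Agent.H36.BK Pool.Agent.H36.BK.LW Pool.Agent.H13R3.WB Pool.Agent.H931R3.Bal
open Pool.Agent.H36.BK.CoreAux Pool.Agent.H36.LC Pool.Agent.H36.LX

lemma lcc_pm {α : Type} [Fintype α] [PartialOrder α] (M : ℕ) (x : α) : LCc (pm α M x) := by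
  intro a b c d hab hac he
  have h := H82.BK.four α M x a b c d hab hac he
  have h' : (Nx α M x a : ℝ) * Nx α M x d ≤ (Nx α M x b : ℝ) * Nx α M x c := by exact_mod_cast h
  simp only [pm]
  rw [div_mul_div_comm, div_mul_div_comm]
  gcongr

open Core1 in
/-- LX-CORE -/
theorem corex : S_dens1 → S_tail1 → S_grp1 → S_winD → S_corex := by
  intro hdens htail hgrp hwin α _ _ κ A ε lam c J₀ D r k q hκ hA hAne hcard hε hε1 hD hlam hc0 hr hrl
    hlam3 hDc hk hq hprob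
  have hcov : S_cov := cov (var iid img)
  have hfkg : S_fkg := H82.BK.fkg
  have hpair : S_pair := pair H82.BK.fkg (near H82.BK.hmax)
  have hlim0 : S_lim := lim
  have hind : S_ind := ind
  obtain ⟨K, hK⟩ : ∃ K : ℝ, K = 2 ^ 16 * (κ : ℝ) := ⟨_, rfl⟩
  rw [← hK] at hr hlam3
  have hκ0 : (1 : ℝ) ≤ κ := by exact_mod_cast hκ
  have hK1 : 1 ≤ K := by
    rw [hK]
    nlinarith
  have hD0 : (0 : ℝ) < D := by exact_mod_cast hD
  obtain ⟨I, hI⟩ : ∃ I, I = Nat.log 2 (2 ^ 16 * κ) := ⟨_, rfl⟩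
  have hI2 : 2 ^ (I + 1) ≤ 2 ^ 17 * κ := by
    have h1 : 2 ^ I ≤ 2 ^ 16 * κ := by
      rw [hI]
      exact Nat.pow_log_le_self 2 (by positivity)
    rw [pow_succ]
    omega
  -- the choice of `J`
  have hlim' : ∀ᶠ M : ℕ in atTop, ∀ x ∈ A, ∀ y ∈ A, x ≠ y → 2 * ε - ε / 8 <
      |((cnt α M (fun f => f x < f y) : ℝ) - cnt α M (fun f => f y < f x)) / (Om α M).card| := by
    rw [Filter.eventually_all_finset]
    intro x hx
    rw [Filter.eventually_all_finset]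
    intro y hy
    by_cases hxy : x = y
    · exact Eventually.of_forall fun M h => absurd hxy h
    · have h0 : 2 * ε - ε / 8 < |prob α x y - prob α y x| := by
        have := hprob x hx y hy hxy
        linarith
      have h1 := (hlim0 α x y hxy).abs.eventually_const_lt h0
      filter_upwards [h1] with M hM _
      exact hM
  have hev := (hcov α).and ((hdens α κ A hA hAne hcard).and (hlim'.and (eventually_ge_atTop 2)))
  have h2J : Tendsto (fun J : ℕ => 2 ^ J) atTop atTop :=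
    tendsto_pow_atTop_atTop_of_one_lt (by norm_num)
  obtain ⟨J, ⟨hcovJ, hdensJ, hlimJ, hM2⟩, hJl, hJr⟩ := ((h2J.eventually hev).and
    ((eventually_ge_atTop (J₀ + I)).and (eventually_ge_atTop r))).exists
  obtain ⟨M, hMJ⟩ : ∃ M : ℕ, M = 2 ^ J := ⟨_, rfl⟩
  rw [← hMJ] at hcovJ hdensJ hlimJ hM2
  have hM0 : (0 : ℝ) < M := by
    have : 0 < M := by omega
    exact_mod_cast this
  have hMc : (M : ℝ) = 2 ^ J := by rw [hMJ]; push_cast; rfl
  obtain ⟨T, hT⟩ : ∃ T, T = (Om α M).card := ⟨_, rfl⟩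
  have hT0 : 0 < T := by rw [hT]; exact Om_pos (by omega)
  have hT0' : (0 : ℝ) < T := by exact_mod_cast hT0
  obtain ⟨G, hG⟩ : ∃ G : Finset α, G = A.filter fun x => ∀ j, Nx α M x j * M ≤
    2 ^ 16 * κ * (Om α M).card := ⟨_, rfl⟩
  rw [← hG] at hdensJ
  have hGA : ∀ x ∈ G, x ∈ A := fun x hx => by rw [hG] at hx; exact (mem_filter.1 hx).1
  have hGN : ∀ x ∈ G, ∀ j, Nx α M x j * M ≤ 2 ^ 16 * κ * (Om α M).card := fun x hx => by
    rw [hG] at hx
    exact (mem_filter.1 hx).2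
  have hpmK : ∀ x ∈ G, ∀ j, pm α M x j ≤ K / M := by
    intro x hx j
    have h1 := hGN x hx j
    have h2 : (Nx α M x j : ℝ) * M ≤ K * T := by rw [hK, hT]; exact_mod_cast h1
    rw [pm, ← hT, div_le_div_iff₀ hT0' hM0]
    exact h2
  -- the classes
  have hdata : ∀ x, ∃ m i v : ℕ, x ∈ G → (∀ j, Nx α (2 ^ J) x j ≤ Nx α (2 ^ J) x m) ∧
      i ≤ I ∧ v < 2 ^ i ∧ m / 2 ^ (J - i) = v ∧
      2 ^ i * (Om α (2 ^ J)).card ≤ Nx α (2 ^ J) x m * 2 ^ J ∧
      Nx α (2 ^ J) x m * 2 ^ J < 2 ^ (i + 1) * (Om α (2 ^ J)).card := by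
    intro x
    by_cases hx : x ∈ G
    · obtain ⟨m, hm⟩ := exists_mode (2 ^ J) x
      have h1 := hGN x hx m
      rw [hMJ] at h1
      obtain ⟨i, v, h2, h3, h4, h5, h6⟩ := mode_data (I := I) (by omega) hI hm h1
      exact ⟨m, i, v, fun _ => ⟨hm, h2, h3, h4, h5, h6⟩⟩
    · exact ⟨0, 0, 0, fun h => absurd h hx⟩
  choose m i v hd using hdata
  obtain ⟨i₀, v₀, hi₀, hv₀, hcardG⟩ := hgrp α G I i v fun x hx =>
    ⟨(hd x hx).2.1, (hd x hx).2.2.1⟩
  obtain ⟨G', hG'⟩ : ∃ G' : Finset α, G' = G.filter fun x => i x = i₀ ∧ v x = v₀ := ⟨_, rfl⟩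
  rw [← hG'] at hcardG
  have hG'G : ∀ x ∈ G', x ∈ G := fun x hx => by rw [hG'] at hx; exact (mem_filter.1 hx).1
  have hcardG2 : G.card ≤ 2 ^ 17 * κ * G'.card := hcardG.trans (Nat.mul_le_mul_right _ hI2)
  -- the window
  obtain ⟨o, ho⟩ : ∃ o, o = v₀ * 2 ^ (J - i₀) - k * 2 ^ (J + 1 - i₀) := ⟨_, rfl⟩
  obtain ⟨L, hL⟩ : ∃ L, L = 2 ^ (J - i₀ + q) := ⟨_, rfl⟩
  have hwd : ∀ x ∈ G', 1 - 2 / 2 ^ k ≤ ∑ s ∈ range L, pm α M x (o + s) ∧
      ∀ s, pm α M x s * (L : ℝ) ≤ 2 ^ (q + 1) := by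
    intro x hx
    have hx' := hx
    rw [hG'] at hx'
    obtain ⟨hxG, hix, hvx⟩ := mem_filter.1 hx'
    obtain ⟨d1, d2, d3, d4, d5, d6⟩ := hd x hxG
    rw [hix] at d2 d3 d4 d5 d6
    rw [hvx] at d4
    rw [hMJ, hL, ho]
    exact window htail (by omega) d1 d5 d6 d4 hq
  -- the bad pairs
  obtain ⟨Bd, hBd⟩ : ∃ Bd : Finset (α × α), Bd = (G' ×ˢ G').filter fun u => u.1 ≠ u.2 ∧
    c * (M : ℝ) ^ 2 * (T : ℝ) ^ 2 < HH α M u.1 u.2 := ⟨_, rfl⟩
  have hBd1 : (Bd.card : ℝ) * (c * (M : ℝ) ^ 2 * (T : ℝ) ^ 2) ≤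
      (Fintype.card α : ℝ) / 6 * (M : ℝ) ^ 2 * (T : ℝ) ^ 2 := by
    calc (Bd.card : ℝ) * (c * (M : ℝ) ^ 2 * (T : ℝ) ^ 2)
        = ∑ _u ∈ Bd, c * (M : ℝ) ^ 2 * (T : ℝ) ^ 2 := by rw [sum_const, nsmul_eq_mul]
      _ ≤ ∑ u ∈ Bd, HH α M u.1 u.2 := by
          apply sum_le_sum
          intro u hu
          rw [hBd] at hu
          exact (mem_filter.1 hu).2.2.le
      _ ≤ ∑ u : α × α, HH α M u.1 u.2 :=
          sum_le_sum_of_subset_of_nonneg (subset_univ _) fun u _ _ => HH_nonneg hfkg M u.1 u.2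
      _ = ∑ x : α, ∑ y : α, HH α M x y := Fintype.sum_prod_type _
      _ ≤ _ := by rw [hT]; exact hcovJ
  have hBd2 : Bd.card ≤ D * G'.card := by
    have h1 : (Bd.card : ℝ) * c ≤ (Fintype.card α : ℝ) / 6 := by
      have h2 : 0 < (M : ℝ) ^ 2 * (T : ℝ) ^ 2 := by positivity
      refine le_of_mul_le_mul_right ?_ h2
      linarith
    have h3 : (Fintype.card α : ℝ) ≤ κ * A.card := by exact_mod_cast hcard
    have h4 : (A.card : ℝ) ≤ 6 * G.card := by exact_mod_cast hdensJ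
    have h5 : (G.card : ℝ) ≤ 2 ^ 17 * κ * G'.card := by exact_mod_cast hcardG2
    have h6 : (Fintype.card α : ℝ) ≤ 6 * (2 ^ 17 * (κ : ℝ) ^ 2) * G'.card := by
      calc (Fintype.card α : ℝ) ≤ κ * A.card := h3
        _ ≤ κ * (6 * (2 ^ 17 * κ * G'.card)) := by
            refine mul_le_mul_of_nonneg_left ?_ (by positivity)
            linarith
        _ = _ := by ring
    have h7 : (Bd.card : ℝ) * c ≤ D * G'.card * c := by
      calc (Bd.card : ℝ) * c ≤ (Fintype.card α : ℝ) / 6 := h1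
        _ ≤ (2 ^ 17 * (κ : ℝ) ^ 2) * G'.card := by linarith
        _ ≤ (D * c) * G'.card := mul_le_mul_of_nonneg_right hDc (by positivity)
        _ = _ := by ring
    have h8 : (Bd.card : ℝ) ≤ D * G'.card := le_of_mul_le_mul_right h7 hc0
    exact_mod_cast h8
  obtain ⟨S, hSG, hS1, hS2⟩ := hind α G' (fun x y => c * (M : ℝ) ^ 2 * (T : ℝ) ^ 2 < HH α M x y) D
    (fun x y h => by rw [HH_symm]; exact h) (by rw [hBd] at hBd2; exact hBd2)
  -- the masses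
  have hr0 : (0 : ℝ) < 2 ^ r := by positivity
  have h2K : 2 * K / 2 ^ r ≤ ε / 4 := by
    rw [div_le_iff₀ hε] at hr
    rw [div_le_iff₀ hr0]
    linarith
  have hom : ∀ x ∈ S, ∀ y ∈ S, x ≠ y → 11 / 8 * ε ≤ |om M (pm α M x) (pm α M y)| := by
    intro x hx y hy hxy
    have h1 := hpair α M (2 ^ r) (2 ^ (J - r)) x y K c lam hM2
      (by rw [hMJ, ← pow_add]; congr 1; omega) Nat.one_le_two_pow Nat.one_le_two_pow hK1 hc0.le
      (hpmK x (hG'G x (hSG hx))) (hpmK y (hG'G y (hSG hy))) (by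
        have := hS1 x hx y hy hxy
        rw [← hT]
        exact not_lt.1 this) hlam hlam3
    have h2 := hlimJ x (hGA x (hG'G x (hSG hx))) y (hGA y (hG'G y (hSG hy))) hxy
    push_cast at h1
    obtain ⟨z, hz⟩ : ∃ z, z = ((cnt α M (fun f => f x < f y) : ℝ) - cnt α M (fun f => f y < f x)) /
      (Om α M).card := ⟨_, rfl⟩
    rw [← hz] at h1 h2
    have h3 : |z| ≤ |z - om M (pm α M x) (pm α M y)| + |om M (pm α M x) (pm α M y)| := by
      have := abs_add_le (z - om M (pm α M x) (pm α M y)) (om M (pm α M x) (pm α M y))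
      rwa [sub_add_cancel] at this
    linarith
  -- the windows
  have hk0 : (0 : ℝ) < 2 ^ k := by positivity
  have hθ : (2 : ℝ) / 2 ^ k ≤ ε / 32 := by
    rw [div_le_iff₀ hε] at hk
    rw [div_le_iff₀ hk0]
    linarith
  have hL1 : 1 ≤ L := by rw [hL]; exact Nat.one_le_two_pow
  have hpos : ∀ x s, 0 ≤ pm α M x s := fun x s => by
    rw [pm]
    positivity
  have hvan : ∀ x s, M ≤ s → pm α M x s = 0 := fun x s hs => by
    rw [pm, Nx_zero x hs]
    simp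
  have hθ2 : (2 : ℝ) / 2 ^ k ≤ 1 / 2 := by linarith
  have hw : ∀ x ∈ S, ∀ y ∈ S, ((∀ s, 0 ≤ winD o L (pm α M x) s) ∧
      ∑ s ∈ range L, winD o L (pm α M x) s = 1 ∧
      (∀ s, winD o L (pm α M x) s ≤ 2 * 2 ^ (q + 1) / L) ∧ Unim (winD o L (pm α M x)) ∧
        LCc (winD o L (pm α M x))) ∧
      |om M (pm α M x) (pm α M y)| - 4 * (2 / 2 ^ k) ≤
        |om L (winD o L (pm α M x)) (winD o L (pm α M y))| := by
    intro x hx y hy
    exact hwin M o L (pm α M x) (pm α M y) (2 / 2 ^ k) (2 ^ (q + 1)) (by omega) hL1 (by positivity)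
      hθ2 (hpos x) (hpos y) (hvan x) (hvan y) (sum_pm (by omega) x)
      (sum_pm (by omega) y) (unim_pm M x) (lcc_pm M x) (hwd x (hSG hx)).1 (hwd y (hSG hy)).1
      (hwd x (hSG hx)).2
  have hLc : (L : ℝ) = 2 ^ (J - i₀ + q) := by rw [hL]; push_cast; rfl
  refine ⟨S, fun x => winD o L (pm α M x), J - i₀ + q, by omega, ?_, ?_, ?_⟩
  · have h2 : A.card ≤ 6 * (2 ^ 17 * κ * (2 * (2 * D + 1) * S.card)) :=
      hdensJ.trans (Nat.mul_le_mul_left 6 (hcardG2.trans (Nat.mul_le_mul_left _ hS2)))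
    have h3 : (A.card : ℝ) ≤ 6 * (2 ^ 17 * κ * (2 * (2 * D + 1) * S.card)) := by exact_mod_cast h2
    linarith
  · intro x hx
    obtain ⟨⟨w1, w2, w3, w4, w5⟩, -⟩ := hw x hx x hx
    refine ⟨w1, ?_, fun s => ?_, w4, w5⟩
    · rw [← hL]
      exact w2
    · rw [← hLc]
      have := w3 s
      rwa [← pow_succ'] at this
  · intro x hx y hy hxy
    have h1 := (hw x hx y hy).2
    have h2 := hom x hx y hy hxy
    rw [← hL]
    show ε ≤ |om L (winD o L (pm α M x)) (winD o L (pm α M y))|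
    linarith

end Pool.Agent.H34.BL
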