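import Pool.Agent.H34.BL.Fin1
import Pool.Agent.H36.LX.Stm

/-!
# Posets with at most `w^(11/10)` elements: two-sided bounds and growth, exponent 6
-/

set_option autoImplicit false

open Finset Filter Topology

namespace Pool.Agent.H34.BL

open Pool.Agent.H13R3.WB Pool.Agent.H931R3.Bal

/-- the antichain with `w` elements shows that the set in the definition of `dP w` is not empty -/
lemma dP_nonempty (w : ℕ) (hw : 1 ≤ w) : {d : ℝ | ∃ (P : Type) (_ : Fintype P) (_ : PartialOrder P),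
    (Fintype.card P : ℝ) ≤ (w : ℝ) ^ (11 / 10 : ℝ) ∧ HasWidth P w ∧ balance P = d}.Nonempty := by
  obtain ⟨d, P, i1, i2, h1, h2, h3⟩ := Pool.Agent.H36.BK.dR_nonempty 1 w le_rfl hw
  refine ⟨d, P, i1, i2, ?_, h2, h3⟩
  have hw1 : (1 : ℝ) ≤ w := by exact_mod_cast hw
  calc (Fintype.card P : ℝ) ≤ w := by
        have : Fintype.card P ≤ w := by simpa using h1
        exact_mod_cast this
    _ = (w : ℝ) ^ (1 : ℝ) := (Real.rpow_one _).symm
    _ ≤ (w : ℝ) ^ (11 / 10 : ℝ) := Real.rpow_le_rpow_of_exponent_le hw1 (by norm_num)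

theorem low6 (h : Pool.Agent.H36.LX.S_rate6) : ∃ C : ℝ, 1 ≤ C ∧ ∀ w : ℕ, 16 ≤ w →
    1 / 2 - (C * (Real.log (Real.log w) ^ 2 / Real.log w)) ^ 6 ≤ dP w := by
  obtain ⟨C, hC, h1⟩ := h
  refine ⟨C, hC, fun w hw => ?_⟩
  unfold dP
  apply le_csInf (dP_nonempty w (by omega))
  rintro d ⟨P, _, _, hc, ⟨⟨A, hA, hAc⟩, -⟩, rfl⟩
  have h2 := h1 P A hA (by omega) (by rw [hAc]; exact hc)
  rw [hAc] at h2
  exact h2

/-- for large `x` -/
theorem large_y6 (C : ℝ) : ∀ᶠ x : ℝ in atTop,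
    (C * (511 * Real.log x) ^ 2) ^ 6 < x ^ 5 ∧ 16 ≤ x ∧ Real.exp 2 ≤ x := by
  have h2 : (fun x : ℝ => (C * (511 * Real.log x) ^ 2) ^ 6) =o[atTop] (fun x : ℝ => x) := by
    have e : (fun x : ℝ => (C * (511 * Real.log x) ^ 2) ^ 6) =
        fun x : ℝ => (C ^ 6 * 511 ^ 12) * Real.log x ^ 12 := by
      ext x
      ring
    rw [e]
    exact Asymptotics.IsLittleO.const_mul_left Real.isLittleO_pow_log_id_atTop _
  have h3 := h2.def (by norm_num : (0 : ℝ) < 1)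
  filter_upwards [eventually_ge_atTop (16 : ℝ), eventually_ge_atTop (Real.exp 2), h3]
    with x ha hb hc
  refine ⟨?_, ha, hb⟩
  have h6 : ‖x‖ = x := Real.norm_of_nonneg (by linarith)
  rw [h6, one_mul] at hc
  have h7 : (C * (511 * Real.log x) ^ 2) ^ 6 ≤ x := (le_abs_self _).trans hc
  have h8 : x < x ^ 5 := by
    have : 1 < x ^ 4 := one_lt_pow₀ (by linarith) (by norm_num)
    nlinarith
  linarith

/-- growth -/
theorem fin6 (hmain : Pool.Agent.H34.RK.S_MAIN2E) (hrate : Pool.Agent.H36.LX.S_rate6) :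
    ∃ (C : ℝ) (w₀ : ℕ), 1 ≤ C ∧
    (∀ w : ℕ, w₀ ≤ w → 1 / 2 - (C * (Real.log (Real.log w) ^ 2 / Real.log w)) ^ 6 ≤ dP w ∧
      dP w ≤ 1 / 2 - 1 / Real.log w ^ 3061) ∧
    (∀ w v : ℕ, w₀ ≤ w → Real.exp (Real.log w ^ 511) ≤ v → dP w < dP v) := by
  obtain ⟨C, hC, h1⟩ := low6 hrate
  obtain ⟨w₁, h2⟩ := up1 hmain
  have hlog : Tendsto (fun w : ℕ => Real.log (w : ℝ)) atTop atTop :=
    Real.tendsto_log_atTop.comp tendsto_natCast_atTop_atTop
  obtain ⟨w₂, hw₂⟩ := eventually_atTop.1 (hlog.eventually (large_y6 C))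
  refine ⟨C, max (max w₁ w₂) 16, hC, fun w hw => ⟨h1 w ((le_max_right _ _).trans hw),
    h2 w ((le_max_left _ _).trans ((le_max_left _ _).trans hw))⟩, fun w v hw hv => ?_⟩
  have h3 := h2 w ((le_max_left _ _).trans ((le_max_left _ _).trans hw))
  obtain ⟨h4, h5, h6⟩ := hw₂ w ((le_max_right _ _).trans ((le_max_left _ _).trans hw))
  have hw16 : 16 ≤ w := (le_max_right _ _).trans hw
  obtain ⟨x, hx⟩ : ∃ x : ℝ, x = Real.log w := ⟨_, rfl⟩
  rw [← hx] at h3 h4 h5 h6 hv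
  have hx0 : 0 < x := by linarith
  have hx1 : 1 ≤ x := by linarith
  have hv0 : (0 : ℝ) < v := lt_of_lt_of_le (Real.exp_pos _) hv
  have hlv : x ^ 511 ≤ Real.log v := (Real.le_log_iff_exp_le hv0).2 hv
  have hwv : w ≤ v := by
    have h7 : (w : ℝ) ≤ v := by
      have hw0 : (0 : ℝ) < w := by exact_mod_cast (by omega : 0 < w)
      calc (w : ℝ) = Real.exp x := by rw [hx, Real.exp_log hw0]
        _ ≤ Real.exp (x ^ 511) := Real.exp_le_exp.2 (le_self_pow₀ hx1 (by norm_num))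
        _ ≤ v := hv
    exact_mod_cast h7
  have h8 := h1 v (hw16.trans hwv)
  have h9 : Real.log (Real.log v) ^ 2 / Real.log v ≤ Real.log (x ^ 511) ^ 2 / x ^ 511 :=
    mono_logsq (h6.trans (le_self_pow₀ hx1 (by norm_num))) hlv
  have hlv1 : 1 ≤ Real.log v := (one_le_pow₀ hx1).trans hlv
  have h10 : (C * (Real.log (Real.log v) ^ 2 / Real.log v)) ^ 6 ≤
      (C * (Real.log (x ^ 511) ^ 2 / x ^ 511)) ^ 6 := by
    apply pow_le_pow_left₀ (by positivity)
    exact mul_le_mul_of_nonneg_left h9 (by linarith)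
  have h11 : (C * (Real.log (x ^ 511) ^ 2 / x ^ 511)) ^ 6 < 1 / x ^ 3061 := by
    rw [Real.log_pow]
    have e1 : (C * ((((511 : ℕ) : ℝ) * Real.log x) ^ 2 / x ^ 511)) ^ 6 =
        (C * (511 * Real.log x) ^ 2) ^ 6 / (x ^ 5 * x ^ 3061) := by
      push_cast
      rw [← pow_add, mul_div_assoc', div_pow, ← pow_mul]
    rw [e1, div_lt_div_iff₀ (by positivity) (by positivity), one_mul]
    exact mul_lt_mul_of_pos_right h4 (by positivity)
  linarith

end Pool.Agent.H34.BL
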