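import Pool.Agent.H34.BL.Stm

/-! # BL-GRP: the pigeonhole for the classes -/

set_option autoImplicit false

open Finset Filter Topology
open scoped Classical

namespace Pool.Agent.H34.BL

private lemma geom2 (n : ℕ) : ∑ i ∈ range n, 2 ^ i + 1 = 2 ^ n := by
  induction n with
  | zero => simp
  | succ n ih =>
    rw [sum_range_succ, pow_succ]
    omega

/-- BL-GRP -/
theorem grp1 : S_grp1 := by
  intro ι G I i v h
  obtain ⟨C, hC⟩ : ∃ C : Finset ((_ : ℕ) × ℕ),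
    C = (range (I + 1)).sigma fun i => range (2 ^ i) := ⟨_, rfl⟩
  have hcard : C.card ≤ 2 ^ (I + 1) := by
    rw [hC, card_sigma]
    have h1 := geom2 (I + 1)
    have h2 : ∑ a ∈ range (I + 1), (range (2 ^ a)).card = ∑ a ∈ range (I + 1), 2 ^ a :=
      sum_congr rfl fun a _ => card_range _
    rw [h2]
    omega
  have hne : C.Nonempty := by
    refine ⟨⟨0, 0⟩, ?_⟩
    rw [hC, mem_sigma, mem_range, mem_range]
    exact ⟨Nat.succ_pos I, Nat.two_pow_pos 0⟩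
  have hmem : ∀ x ∈ G, (⟨i x, v x⟩ : (_ : ℕ) × ℕ) ∈ C := by
    intro x hx
    rw [hC, mem_sigma, mem_range, mem_range]
    exact ⟨Nat.lt_succ_of_le (h x hx).1, (h x hx).2⟩
  obtain ⟨b, hb, hmax⟩ := exists_max_image C
    (fun b => (G.filter fun x => (⟨i x, v x⟩ : (_ : ℕ) × ℕ) = b).card) hne
  have h1 : G.card ≤ C.card * (G.filter fun x => (⟨i x, v x⟩ : (_ : ℕ) × ℕ) = b).card := by
    rw [card_eq_sum_card_fiberwise (f := fun x => (⟨i x, v x⟩ : (_ : ℕ) × ℕ)) (t := C) hmem]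
    calc ∑ b' ∈ C, (G.filter fun x => (⟨i x, v x⟩ : (_ : ℕ) × ℕ) = b').card
        ≤ ∑ _b' ∈ C, (G.filter fun x => (⟨i x, v x⟩ : (_ : ℕ) × ℕ) = b).card :=
          sum_le_sum fun b' hb' => hmax b' hb'
      _ = _ := by rw [sum_const, smul_eq_mul]
  have hb' := hb
  rw [hC, mem_sigma, mem_range, mem_range] at hb'
  refine ⟨b.1, b.2, Nat.lt_succ_iff.1 hb'.1, hb'.2, ?_⟩
  refine h1.trans (Nat.mul_le_mul hcard (card_le_card ?_))
  intro x hx
  rw [mem_filter] at hx ⊢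
  refine ⟨hx.1, ?_⟩
  have h2 := hx.2
  rw [← h2]
  exact ⟨rfl, rfl⟩

end Pool.Agent.H34.BL
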