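import Pool.Agent.H34.BL.Stm

/-!
# BL-TAIL: exponential tails of log-concave sequences
-/

set_option autoImplicit false

open Finset

namespace Pool.Agent.H34.BL

namespace TAIL

/-- The sum over an injective image. -/
theorem inj_sum (N : ℕ → ℕ) (s : Finset ℕ) (M : ℕ) (φ : ℕ → ℕ)
    (hinj : Set.InjOn φ (s : Set ℕ)) (hφ : ∀ j ∈ s, φ j < M) :
    ∑ j ∈ s, N (φ j) ≤ ∑ j ∈ range M, N j := by
  classical
  rw [← Finset.sum_image (f := N) hinj]
  refine Finset.sum_le_sum_of_subset fun x hx => ?_
  obtain ⟨j, hj, rfl⟩ := Finset.mem_image.1 hx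
  exact Finset.mem_range.2 (hφ j hj)

/-- A lower bound for the sum by `r + 1` consecutive terms. -/
theorem block (N : ℕ → ℕ) (M a r v : ℕ) (hM : a + r < M)
    (h : ∀ j, a ≤ j → j ≤ a + r → v ≤ N j) : (r + 1) * v ≤ ∑ i ∈ range M, N i := by
  have h1 : ∑ j ∈ range (r + 1), N (a + j) ≤ ∑ j ∈ range M, N j :=
    inj_sum N (range (r + 1)) M (fun j => a + j) (fun x _ y _ hxy => Nat.add_left_cancel hxy)
      (fun j hj => by
        have := Finset.mem_range.1 hj
        change a + j < M
        omega)
  have h2 : (r + 1) * v ≤ ∑ j ∈ range (r + 1), N (a + j) := by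
    have h3 := Finset.card_nsmul_le_sum (range (r + 1)) (fun j => N (a + j)) v (fun j hj => by
      have := Finset.mem_range.1 hj
      exact h _ (by omega) (by omega))
    rwa [Finset.card_range, smul_eq_mul] at h3
  exact h2.trans h1

end TAIL

theorem tail1 : S_tail1 := by
  intro N M m r k hM hlc hm hpos hT
  have hmM : m < M := by
    by_contra h
    have := hM m (by omega)
    omega
  -- the right half
  have hR0 : 2 * N (m + r) ≤ N m := by
    by_contra hc
    have hc' : N m + 1 ≤ 2 * N (m + r) := by omega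
    have hlt : m + r < M := by
      by_contra h
      have := hM (m + r) (by omega)
      omega
    have h1 : ∀ j, m ≤ j → j ≤ m + r → N (m + r) ≤ N j := by
      intro j hj1 hj2
      have h2 := hlc m j (2 * m + r - j) (m + r) hj1 (by omega) (by omega)
      have h3 := Nat.mul_le_mul_left (N j) (hm (2 * m + r - j))
      have h4 : N m * N (m + r) ≤ N m * N j := by
        rw [Nat.mul_comm (N m) (N j)]
        exact h2.trans h3
      exact Nat.le_of_mul_le_mul_left h4 hpos
    have h2 := TAIL.block N M m r (N (m + r)) hlt h1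
    have h5 := Nat.mul_le_mul_left (r + 1) hc'
    nlinarith [h5, h2, hT]
  have hR1 : ∀ j, m ≤ j → 2 * N (j + r) ≤ N j := by
    intro j hj
    have h1 := hlc m (m + r) j (j + r) (by omega) hj (by omega)
    have h2 : N m * (2 * N (j + r)) ≤ N m * N j := by
      calc N m * (2 * N (j + r)) = 2 * (N m * N (j + r)) := by ring
        _ ≤ 2 * (N (m + r) * N j) := Nat.mul_le_mul_left 2 h1
        _ = (2 * N (m + r)) * N j := by ring
        _ ≤ N m * N j := Nat.mul_le_mul_right _ hR0
    exact Nat.le_of_mul_le_mul_left h2 hpos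
  have hR2 : ∀ k j, m ≤ j → 2 ^ k * N (j + k * r) ≤ N j := by
    intro k
    induction k with
    | zero =>
      intro j _
      simp
    | succ k ih =>
      intro j hj
      have e : j + (k + 1) * r = j + k * r + r := by ring
      rw [e]
      have h1 := ih j hj
      have h2 := hR1 (j + k * r) (by omega)
      calc 2 ^ (k + 1) * N (j + k * r + r) = 2 ^ k * (2 * N (j + k * r + r)) := by ring
        _ ≤ 2 ^ k * N (j + k * r) := Nat.mul_le_mul_left _ h2
        _ ≤ N j := h1
  -- the left half
  have hL0 : r ≤ m → 2 * N (m - r) ≤ N m := by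
    intro hrm
    by_contra hc
    have hc' : N m + 1 ≤ 2 * N (m - r) := by omega
    have h1 : ∀ j, m - r ≤ j → j ≤ m - r + r → N (m - r) ≤ N j := by
      intro j hj1 hj2
      have h2 := hlc (m - r) j (2 * m - r - j) m hj1 (by omega) (by omega)
      have h3 := Nat.mul_le_mul_left (N j) (hm (2 * m - r - j))
      exact Nat.le_of_mul_le_mul_right (h2.trans h3) hpos
    have h2 := TAIL.block N M (m - r) r (N (m - r)) (by omega) h1
    have h5 := Nat.mul_le_mul_left (r + 1) hc'
    nlinarith [h5, h2, hT]
  have hL1 : ∀ j, j + r ≤ m → 2 * N j ≤ N (j + r) := by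
    intro j hj
    have h1 := hlc j (j + r) (m - r) m (by omega) (by omega) (by omega)
    have h2 : (2 * N j) * N m ≤ N (j + r) * N m := by
      calc (2 * N j) * N m = 2 * (N j * N m) := by ring
        _ ≤ 2 * (N (j + r) * N (m - r)) := Nat.mul_le_mul_left 2 h1
        _ = N (j + r) * (2 * N (m - r)) := by ring
        _ ≤ N (j + r) * N m := Nat.mul_le_mul_left _ (hL0 (by omega))
    exact Nat.le_of_mul_le_mul_right h2 hpos
  have hL2 : ∀ k j, j + k * r ≤ m → 2 ^ k * N j ≤ N (j + k * r) := by
    intro k
    induction k with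
    | zero =>
      intro j _
      simp
    | succ k ih =>
      intro j hj
      have e : j + (k + 1) * r = j + k * r + r := by ring
      rw [e] at hj ⊢
      have h1 := ih j (by omega)
      have h2 := hL1 (j + k * r) hj
      calc 2 ^ (k + 1) * N j = 2 * (2 ^ k * N j) := by ring
        _ ≤ 2 * N (j + k * r) := Nat.mul_le_mul_left 2 h1
        _ ≤ N (j + k * r + r) := h2
  -- the sums
  have hR : 2 ^ k * ∑ j ∈ (range M).filter (fun j => m + k * r ≤ j), N j ≤
      ∑ i ∈ range M, N i := by
    rw [Finset.mul_sum]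
    refine le_trans (Finset.sum_le_sum (g := fun j => N (j - k * r)) fun j hj => ?_)
      (TAIL.inj_sum N _ M (fun j => j - k * r) ?_ ?_)
    · have h1 := (Finset.mem_filter.1 hj).2
      have h2 := hR2 k (j - k * r) (by omega)
      rwa [Nat.sub_add_cancel (by omega)] at h2
    · intro x hx y hy hxy
      have h1 := (Finset.mem_filter.1 (Finset.mem_coe.1 hx)).2
      have h2 := (Finset.mem_filter.1 (Finset.mem_coe.1 hy)).2
      have h3 : x - k * r = y - k * r := hxy
      omega
    · intro j hj
      have h1 := Finset.mem_range.1 (Finset.mem_filter.1 hj).1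
      change j - k * r < M
      omega
  have hL : 2 ^ k * ∑ j ∈ (range M).filter (fun j => j + k * r ≤ m), N j ≤
      ∑ i ∈ range M, N i := by
    rw [Finset.mul_sum]
    refine le_trans (Finset.sum_le_sum (g := fun j => N (j + k * r)) fun j hj => ?_)
      (TAIL.inj_sum N _ M (fun j => j + k * r) ?_ ?_)
    · exact hL2 k j (Finset.mem_filter.1 hj).2
    · intro x _ y _ hxy
      exact Nat.add_right_cancel hxy
    · intro j hj
      have h1 := (Finset.mem_filter.1 hj).2
      change j + k * r < M
      omega
  have hS : ∑ j ∈ (range M).filter (fun j => m + k * r ≤ j ∨ j + k * r ≤ m), N j ≤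
      ∑ j ∈ (range M).filter (fun j => m + k * r ≤ j), N j +
        ∑ j ∈ (range M).filter (fun j => j + k * r ≤ m), N j := by
    rw [Finset.sum_filter, Finset.sum_filter, Finset.sum_filter, ← Finset.sum_add_distrib]
    refine Finset.sum_le_sum fun j _ => ?_
    by_cases h1 : m + k * r ≤ j
    · simp [h1]
    · simp [h1]
  calc 2 ^ k * ∑ j ∈ (range M).filter (fun j => m + k * r ≤ j ∨ j + k * r ≤ m), N j
      ≤ 2 ^ k * (∑ j ∈ (range M).filter (fun j => m + k * r ≤ j), N j +
        ∑ j ∈ (range M).filter (fun j => j + k * r ≤ m), N j) := Nat.mul_le_mul_left _ hS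
    _ ≤ 2 * ∑ i ∈ range M, N i := by
      rw [Nat.mul_add]
      omega

end Pool.Agent.H34.BL
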