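import Pool.Agent.H34.BL.Stm

/-! BL-WIN (helper33): restriction of the laws to a window -/

set_option autoImplicit false

open Finset Filter Topology
open scoped Classical

namespace Pool.Agent.H34.BL

open Pool.Agent.H36.BK Pool.Agent.H36.BK.LW Pool.Agent.H13R3.WB Pool.Agent.H931R3.Bal

namespace Win

/-- sign kernel -/
noncomputable def kk (s t : ℕ) : ℝ := (if s < t then 1 else 0) - (if t < s then 1 else 0)

lemma kk_abs (s t : ℕ) : |kk s t| ≤ 1 := by
  unfold kk
  split_ifs <;> norm_num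

lemma kk_add (o s t : ℕ) : kk (o + s) (o + t) = kk s t := by
  unfold kk
  simp

noncomputable def BB (N : ℕ) (p q : ℕ → ℝ) : ℝ :=
  ∑ s ∈ range N, ∑ t ∈ range N, kk s t * (p s * q t)

lemma om_eq (N : ℕ) (p q : ℕ → ℝ) : om N p q = BB N p q := by
  unfold om BB
  have h1 : ∑ s ∈ range N, ∑ t ∈ range N, (if s < t then p s * q t - q s * p t else 0) =
      ∑ s ∈ range N, ∑ t ∈ range N, (if s < t then p s * q t else 0) -
        ∑ s ∈ range N, ∑ t ∈ range N, (if s < t then q s * p t else 0) := by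
    rw [← sum_sub_distrib]
    refine sum_congr rfl fun s _ => ?_
    rw [← sum_sub_distrib]
    refine sum_congr rfl fun t _ => ?_
    split_ifs <;> simp
  have h2 : ∑ s ∈ range N, ∑ t ∈ range N, (if s < t then q s * p t else 0) =
      ∑ s ∈ range N, ∑ t ∈ range N, (if t < s then q t * p s else 0) := sum_comm
  rw [h1, h2, ← sum_sub_distrib]
  refine sum_congr rfl fun s _ => ?_
  rw [← sum_sub_distrib]
  refine sum_congr rfl fun t _ => ?_
  unfold kk
  split_ifs <;> ring

lemma BB_diff (N : ℕ) (p q p' q' : ℕ → ℝ) : |BB N p q - BB N p' q'| ≤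
    (∑ s ∈ range N, |p s - p' s|) * (∑ s ∈ range N, |q s|) +
      (∑ s ∈ range N, |p' s|) * (∑ s ∈ range N, |q s - q' s|) := by
  have h1 : BB N p q - BB N p' q' = ∑ s ∈ range N, ∑ t ∈ range N,
      kk s t * ((p s - p' s) * q t + p' s * (q t - q' t)) := by
    unfold BB
    rw [← sum_sub_distrib]
    refine sum_congr rfl fun s _ => ?_
    rw [← sum_sub_distrib]
    refine sum_congr rfl fun t _ => ?_
    ring
  rw [h1, Finset.sum_mul_sum, Finset.sum_mul_sum, ← sum_add_distrib]
  refine (abs_sum_le_sum_abs _ _).trans (sum_le_sum fun s _ => ?_)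
  rw [← sum_add_distrib]
  refine (abs_sum_le_sum_abs _ _).trans (sum_le_sum fun t _ => ?_)
  rw [abs_mul]
  calc |kk s t| * |(p s - p' s) * q t + p' s * (q t - q' t)|
      ≤ 1 * |(p s - p' s) * q t + p' s * (q t - q' t)| :=
        mul_le_mul_of_nonneg_right (kk_abs s t) (abs_nonneg _)
    _ ≤ _ := by
        rw [one_mul]
        refine (abs_add_le _ _).trans ?_
        rw [abs_mul, abs_mul]

lemma window_sum (N o L : ℕ) (h : o + L ≤ N) (F : ℕ → ℝ) :
    ∑ s ∈ range N, (if o ≤ s ∧ s < o + L then F s else 0) = ∑ t ∈ range L, F (o + t) := by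
  rw [← sum_filter]
  have h1 : (range N).filter (fun s => o ≤ s ∧ s < o + L) = Ico o (o + L) := by
    ext s
    simp only [mem_filter, mem_range, mem_Ico]
    omega
  rw [h1, sum_Ico_eq_sum_range]
  simp

lemma sum_ext (M N : ℕ) (hMN : M ≤ N) (p : ℕ → ℝ) (hp : ∀ s, M ≤ s → p s = 0) :
    ∑ s ∈ range N, p s = ∑ s ∈ range M, p s := by
  symm
  refine sum_subset (range_subset_range.2 hMN) fun s _ hs => hp s ?_
  simpa using hs

lemma BB_ext (M N : ℕ) (hMN : M ≤ N) (p q : ℕ → ℝ) (hp : ∀ s, M ≤ s → p s = 0)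
    (hq : ∀ s, M ≤ s → q s = 0) : BB N p q = BB M p q := by
  unfold BB
  rw [sum_ext M N hMN _ fun s hs => ?_]
  · refine sum_congr rfl fun s _ => ?_
    exact sum_ext M N hMN _ fun t ht => by rw [hq t ht]; ring
  · refine sum_eq_zero fun t _ => ?_
    rw [hp s hs]; ring

/-- mass of the window -/
lemma mass_le (M o L : ℕ) (p : ℕ → ℝ) (hp : ∀ s, 0 ≤ p s) (hM : ∀ s, M ≤ s → p s = 0)
    (h1 : ∑ s ∈ range M, p s = 1) : ∑ s ∈ range L, p (o + s) ≤ 1 := by
  have h2 := sum_ext M (M + o + L) (by omega) p hM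
  rw [← h1, ← h2, ← window_sum (M + o + L) o L (by omega) p]
  refine sum_le_sum fun s _ => ?_
  split_ifs
  · exact le_rfl
  · exact hp s

lemma win_sub (o L : ℕ) (hL : 1 ≤ L) (p : ℕ → ℝ) (hm : ∑ s ∈ range L, p (o + s) ≤ 1) :
    ∑ s ∈ range L, |win o L p s - p (o + s)| = 1 - ∑ s ∈ range L, p (o + s) := by
  have hL' : (0 : ℝ) < L := by exact_mod_cast hL
  have h1 : ∀ s ∈ range L, |win o L p s - p (o + s)| = (1 - ∑ t ∈ range L, p (o + t)) / L := by
    intro s hs
    unfold win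
    rw [if_pos (mem_range.1 hs), add_sub_cancel_left, abs_of_nonneg]
    exact div_nonneg (by linarith) hL'.le
  rw [sum_congr rfl h1, sum_const, card_range, nsmul_eq_mul]
  field_simp

lemma win_nonneg (o L : ℕ) (p : ℕ → ℝ) (hp : ∀ s, 0 ≤ p s)
    (hm : ∑ s ∈ range L, p (o + s) ≤ 1) (s : ℕ) : 0 ≤ win o L p s := by
  unfold win
  split_ifs
  · exact add_nonneg (hp _) (div_nonneg (by linarith) (Nat.cast_nonneg _))
  · exact le_rfl

lemma win_sum (o L : ℕ) (hL : 1 ≤ L) (p : ℕ → ℝ) : ∑ s ∈ range L, win o L p s = 1 := by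
  have hL' : (0 : ℝ) < L := by exact_mod_cast hL
  have h1 : ∀ s ∈ range L, win o L p s = p (o + s) + (1 - ∑ t ∈ range L, p (o + t)) / L := by
    intro s hs
    unfold win
    rw [if_pos (mem_range.1 hs)]
  rw [sum_congr rfl h1, sum_add_distrib, sum_const, card_range, nsmul_eq_mul]
  field_simp
  ring

lemma win_le (o L : ℕ) (hL : 1 ≤ L) (p : ℕ → ℝ) (K : ℝ) (hp : ∀ s, 0 ≤ p s)
    (hK : ∀ s, p s * L ≤ K) (s : ℕ) : win o L p s ≤ (K + 1) / L := by
  have hL' : (0 : ℝ) < L := by exact_mod_cast hL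
  have hs0 : 0 ≤ ∑ t ∈ range L, p (o + t) := sum_nonneg fun _ _ => hp _
  unfold win
  split_ifs
  · rw [add_div]
    refine add_le_add ((le_div_iff₀ hL').2 (hK _)) ?_
    gcongr
    linarith
  · refine div_nonneg ?_ hL'.le
    have := hK 0
    have := mul_nonneg (hp 0) hL'.le
    linarith

lemma win_unim (o L : ℕ) (hL : 1 ≤ L) (p : ℕ → ℝ) (hp : ∀ s, 0 ≤ p s)
    (hm : ∑ s ∈ range L, p (o + s) ≤ 1) (hu : Unim p) : Unim (win o L p) := by
  obtain ⟨m₀, h1, h2⟩ := hu
  refine ⟨min (m₀ - o) (L - 1), ?_, ?_⟩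
  · intro i j hij hj
    have hjL : j < L := by omega
    have hiL : i < L := by omega
    unfold win
    rw [if_pos hjL, if_pos hiL]
    refine add_le_add ?_ le_rfl
    rcases Nat.eq_zero_or_pos j with h0 | h0
    · have : i = j := by omega
      rw [this]
    · exact h1 _ _ (by omega) (by omega)
  · intro i j hi hij
    by_cases hjL : j < L
    · have hiL : i < L := by omega
      unfold win
      rw [if_pos hjL, if_pos hiL]
      refine add_le_add ?_ le_rfl
      by_cases h3 : m₀ ≤ o + i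
      · exact h2 _ _ h3 (by omega)
      · have : i = j := by omega
        rw [this]
    · have : win o L p j = 0 := by
        unfold win
        rw [if_neg hjL]
      rw [this]
      exact win_nonneg o L p hp hm i

end Win

open Win in
theorem win1 : S_win1 := by
  intro M o L p q θ K hM hL hθ hθ1 hp hq hpM hqM hp1 hq1 hpu hqu hpw hqw hpK hqK
  have hpm := mass_le M o L p hp hpM hp1
  have hqm := mass_le M o L q hq hqM hq1
  refine ⟨⟨win_nonneg o L p hp hpm, win_sum o L hL p, win_le o L hL p K hp hpK,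
    win_unim o L hL p hp hpm hpu⟩, ?_⟩
  obtain ⟨N, hN⟩ : ∃ N, N = M + o + L := ⟨_, rfl⟩
  rw [om_eq, om_eq, ← BB_ext M N (by omega) p q hpM hqM]
  -- the parts in the window
  have hI : BB N (fun s => if o ≤ s ∧ s < o + L then p s else 0)
      (fun s => if o ≤ s ∧ s < o + L then q s else 0) =
      BB L (fun s => p (o + s)) (fun s => q (o + s)) := by
    unfold BB
    have e0 : ∑ s ∈ range L, ∑ t ∈ range L, kk s t * (p (o + s) * q (o + t)) =
        ∑ s ∈ range L, (fun s => ∑ t ∈ range L, kk s (o + t) * (p s * q (o + t))) (o + s) := by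
      refine sum_congr rfl fun s _ => sum_congr rfl fun t _ => ?_
      rw [kk_add]
    refine Eq.trans ?_ e0.symm
    rw [← window_sum N o L (by omega) (fun s => ∑ t ∈ range L, kk s (o + t) * (p s * q (o + t)))]
    refine sum_congr rfl fun s _ => ?_
    by_cases hs : o ≤ s ∧ s < o + L
    · rw [if_pos hs, ← window_sum N o L (by omega) (fun t => kk s t * (p s * q t))]
      refine sum_congr rfl fun t _ => ?_
      by_cases ht : o ≤ t ∧ t < o + L
      · simp only [if_pos hs, if_pos ht]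
      · simp only [if_pos hs, if_neg ht, mul_zero]
    · rw [if_neg hs]
      refine sum_eq_zero fun t _ => ?_
      simp only [if_neg hs, zero_mul, mul_zero]
  have d1 := BB_diff N p q (fun s => if o ≤ s ∧ s < o + L then p s else 0)
      (fun s => if o ≤ s ∧ s < o + L then q s else 0)
  have d2 := BB_diff L (win o L p) (win o L q) (fun s => p (o + s)) (fun s => q (o + s))
  have ab : ∀ r : ℕ → ℝ, (∀ s, 0 ≤ r s) → ∀ n : ℕ, ∑ s ∈ range n, |r s| = ∑ s ∈ range n, r s :=
    fun r hr n => sum_congr rfl fun s _ => abs_of_nonneg (hr s)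
  have cut : ∀ r : ℕ → ℝ, (∀ s, 0 ≤ r s) → (∀ s, M ≤ s → r s = 0) → ∑ s ∈ range M, r s = 1 →
      ∑ s ∈ range N, |r s - (if o ≤ s ∧ s < o + L then r s else 0)| =
        1 - ∑ s ∈ range L, r (o + s) := by
    intro r hr hrM hr1
    rw [← hr1, ← sum_ext M N (by omega) r hrM, ← window_sum N o L (by omega) r,
      ← sum_sub_distrib]
    refine sum_congr rfl fun s _ => ?_
    apply abs_of_nonneg
    split_ifs
    · simp
    · simpa using hr s
  rw [cut p hp hpM hp1, cut q hq hqM hq1, ab q hq, sum_ext M N (by omega) q hqM, hq1, hI] at d1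
  rw [win_sub o L hL p hpm, win_sub o L hL q hqm, ab _ (win_nonneg o L q hq hqm),
    win_sum o L hL q, ab _ (fun s => hp (o + s))] at d2
  have e1 : ∑ s ∈ range N, |if o ≤ s ∧ s < o + L then p s else 0| =
      ∑ s ∈ range L, p (o + s) := by
    rw [← window_sum N o L (by omega) p]
    refine sum_congr rfl fun s _ => ?_
    split_ifs
    · exact abs_of_nonneg (hp s)
    · simp
  rw [e1] at d1
  have hp0 : 0 ≤ ∑ s ∈ range L, p (o + s) := sum_nonneg fun _ _ => hp _
  obtain ⟨a, ha⟩ : ∃ a, a = ∑ s ∈ range L, p (o + s) := ⟨_, rfl⟩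
  obtain ⟨b, hb⟩ : ∃ b, b = ∑ s ∈ range L, q (o + s) := ⟨_, rfl⟩
  rw [← ha, ← hb] at d1 d2
  rw [← ha] at hpm hpw hp0
  rw [← hb] at hqm hqw
  have d3 : a * (1 - b) ≤ 1 - b := by nlinarith
  rw [abs_le] at d1 d2 ⊢
  constructor <;> linarith [d1.1, d1.2, d2.1, d2.2]

end Pool.Agent.H34.BL
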