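import Pool.Agent.H34.BL.Dens0
import Pool.Agent.H34.BL.Tail
import Pool.Agent.H34.BL.Grp
import Pool.Agent.H34.BL.Corex
import Pool.Agent.H34.BL.Fin6
import Pool.Agent.H36.LC.T.BIGS
import Pool.Agent.H36.LC.T.CLU
import Pool.Agent.H36.LC.T.DEV
import Pool.Agent.H36.LC.T.LEVEL
import Pool.Agent.H36.LC.T.NORM
import Pool.Agent.H36.LC.T.POT
import Pool.Agent.H36.LC.T.RIGHT
import Pool.Agent.H36.LX.T.WIN
import Pool.Agent.H36.LX.T.NUM
import Pool.Agent.H36.LX.T.THM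
import Pool.Agent.H36.LX.T.RATE

/-!
# Posets with at most `w^(11/10)` elements, exponent 6: assembly of the projects BL and LX
-/

set_option autoImplicit false

namespace Pool.Agent.H34.BL

open Pool.Agent.H36.LC Pool.Agent.H36.LX

theorem t_clu2 : S_clu2 :=
  Pool.Agent.H36.LC.T.clu (Pool.Agent.H36.LC.T.bigs (Pool.Agent.H36.LC.T.level
    (Pool.Agent.H36.LC.T.right Pool.Agent.H36.LC.T.dev Pool.Agent.H36.LC.T.pot)))
    Pool.Agent.H36.LC.T.norm

theorem t_thm6 : S_thm6 :=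
  Pool.Agent.H36.LX.T.thm (corex dens0 tail1 grp1 Pool.Agent.H36.LX.T.win) t_clu2
    Pool.Agent.H36.LX.T.num

theorem t_rate6 : S_rate6 := Pool.Agent.H36.LX.T.rate t_thm6

/-- an increase somewhere between `w` and `v` -/
theorem exists_step (f : ℕ → ℝ) (w v : ℕ) (hwv : w ≤ v) (h : f w < f v) :
    ∃ u, w ≤ u ∧ u < v ∧ f u < f (u + 1) := by
  by_contra hc
  push Not at hc
  have h1 : ∀ n, w + n ≤ v → f (w + n) ≤ f w := by
    intro n
    induction n with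
    | zero => intro _; exact le_rfl
    | succ n ih =>
      intro hn
      exact (hc (w + n) (Nat.le_add_right _ _) (by omega)).trans (ih (by omega))
  have h2 := h1 (v - w) (by omega)
  rw [Nat.add_sub_cancel' hwv] at h2
  linarith

theorem t_fin6 : ∃ (C : ℝ) (w₀ : ℕ), 1 ≤ C ∧ ∀ w : ℕ, w₀ ≤ w →
    (1 / 2 - (C * (Real.log (Real.log w) ^ 2 / Real.log w)) ^ 6 ≤ dP w ∧
      dP w ≤ 1 / 2 - 1 / Real.log w ^ 3061) ∧
    (∀ v : ℕ, Real.exp (Real.log w ^ 511) ≤ v → dP w < dP v) ∧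
    ∃ u : ℕ, w ≤ u ∧ (u : ℝ) ≤ Real.exp (Real.log w ^ 511) ∧ dP u < dP (u + 1) := by
  obtain ⟨C, w₀, hC, h1, h2⟩ := fin6 Pool.Agent.H34.RK.Asm.t_main2E t_rate6
  refine ⟨C, max w₀ 16, hC, fun w hw => ?_⟩
  have hw0 := (le_max_left _ _).trans hw
  have hw16 : 16 ≤ w := (le_max_right _ _).trans hw
  refine ⟨h1 w hw0, fun v hv => h2 w v hw0 hv, ?_⟩
  obtain ⟨v, hv⟩ : ∃ v, v = ⌈Real.exp (Real.log w ^ 511)⌉₊ := ⟨_, rfl⟩
  have hv1 : Real.exp (Real.log w ^ 511) ≤ v := by rw [hv]; exact Nat.le_ceil _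
  have hwr : (16 : ℝ) ≤ w := by exact_mod_cast hw16
  have hlog : 1 ≤ Real.log w := by
    rw [Real.le_log_iff_exp_le (by linarith)]
    have := Real.exp_one_lt_d9
    linarith
  have hwv : w ≤ v := by
    have h3 : (w : ℝ) ≤ v := by
      calc (w : ℝ) = Real.exp (Real.log w) := (Real.exp_log (by linarith)).symm
        _ ≤ Real.exp (Real.log w ^ 511) := Real.exp_le_exp.2 (le_self_pow₀ hlog (by norm_num))
        _ ≤ v := hv1
    exact_mod_cast h3
  obtain ⟨u, hu1, hu2, hu3⟩ := exists_step dP w v hwv (h2 w v hw0 hv1)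
  refine ⟨u, hu1, ?_, hu3⟩
  rw [hv] at hu2
  exact (Nat.lt_ceil.1 hu2).le

end Pool.Agent.H34.BL
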