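import Pool.Agent.H34.BL.Fin6

/-!
# Posets with at most `w^e` elements (`e ≥ 11/10`): the final steps
-/

set_option autoImplicit false

open Finset Filter Topology

namespace Pool.Agent.H34.BL

open Pool.Agent.H13R3.WB Pool.Agent.H931R3.Bal

/-- The infimum of the balance constants of the posets of width `w` with at most `w^e` elements. -/
noncomputable def dE (e : ℝ) (w : ℕ) : ℝ :=
  sInf {d : ℝ | ∃ (P : Type) (_ : Fintype P) (_ : PartialOrder P),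
    (Fintype.card P : ℝ) ≤ (w : ℝ) ^ e ∧ HasWidth P w ∧ balance P = d}

lemma bdd_dE (e : ℝ) (w : ℕ) : BddBelow {d : ℝ | ∃ (P : Type) (_ : Fintype P) (_ : PartialOrder P),
    (Fintype.card P : ℝ) ≤ (w : ℝ) ^ e ∧ HasWidth P w ∧ balance P = d} := by
  refine ⟨0, ?_⟩
  rintro d ⟨P, _, _, _, _, rfl⟩
  exact bal_nn P

lemma dE_nonempty (e : ℝ) (he : 11 / 10 ≤ e) (w : ℕ) (hw : 1 ≤ w) :
    {d : ℝ | ∃ (P : Type) (_ : Fintype P) (_ : PartialOrder P),
    (Fintype.card P : ℝ) ≤ (w : ℝ) ^ e ∧ HasWidth P w ∧ balance P = d}.Nonempty := by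
  obtain ⟨d, P, i1, i2, h1, h2, h3⟩ := dP_nonempty w hw
  have hw1 : (1 : ℝ) ≤ w := by exact_mod_cast hw
  exact ⟨d, P, i1, i2, h1.trans (Real.rpow_le_rpow_of_exponent_le hw1 he), h2, h3⟩

/-- the upper bound, from project RK -/
theorem upE (hmain : Pool.Agent.H34.RK.S_MAIN2E) : ∃ w₀ : ℕ, ∀ e : ℝ, 11 / 10 ≤ e → ∀ w : ℕ, w₀ ≤ w →
    dE e w ≤ 1 / 2 - 1 / Real.log w ^ 3061 := by
  obtain ⟨w₁, h1⟩ := hmain
  refine ⟨max w₁ 1024, fun e he w hw => ?_⟩
  obtain ⟨P, i1, i2, hc, hP, hb⟩ := h1 w ((le_max_left _ _).trans hw)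
  refine (csInf_le (bdd_dE e w) ⟨P, i1, i2, ?_, hP, rfl⟩).trans hb
  have hw2 : (1024 : ℝ) ≤ w := by exact_mod_cast (le_max_right _ _).trans hw
  have hw0 : (0 : ℝ) < w := by linarith
  have h2 : (2 : ℝ) ≤ (w : ℝ) ^ (1 / 10 : ℝ) := by
    have h3 : ((2 : ℝ) ^ (10 : ℕ)) ^ (1 / 10 : ℝ) ≤ (w : ℝ) ^ (1 / 10 : ℝ) :=
      Real.rpow_le_rpow (by positivity)
        (by rw [show ((2 : ℝ) ^ (10 : ℕ)) = 1024 by norm_num]; exact hw2) (by norm_num)
    rw [← Real.rpow_natCast, ← Real.rpow_mul (by norm_num)] at h3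
    norm_num at h3
    norm_num
    exact h3
  calc (Fintype.card P : ℝ) ≤ 2 * w := by exact_mod_cast hc
    _ ≤ (w : ℝ) ^ (1 / 10 : ℝ) * w := mul_le_mul_of_nonneg_right h2 hw0.le
    _ = (w : ℝ) ^ (11 / 10 : ℝ) := by
        rw [show (11 / 10 : ℝ) = 1 / 10 + 1 by norm_num, Real.rpow_add hw0, Real.rpow_one]
    _ ≤ (w : ℝ) ^ e := Real.rpow_le_rpow_of_exponent_le (by linarith) he

/-- the rate for a poset -/
def RateE (e : ℝ) : Prop := ∃ C : ℝ, 1 ≤ C ∧ ∀ (P : Type) [Fintype P] [PartialOrder P] (A : Finset P),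
    IsAntichain (· ≤ ·) (A : Set P) → 16 ≤ A.card →
    (Fintype.card P : ℝ) ≤ (A.card : ℝ) ^ e →
    1 / 2 - (C * (Real.log (Real.log A.card) ^ 2 / Real.log A.card)) ^ 6 ≤ balance P

theorem lowE (e : ℝ) (he : 11 / 10 ≤ e) (h : RateE e) : ∃ C : ℝ, 1 ≤ C ∧ ∀ w : ℕ, 16 ≤ w →
    1 / 2 - (C * (Real.log (Real.log w) ^ 2 / Real.log w)) ^ 6 ≤ dE e w := by
  obtain ⟨C, hC, h1⟩ := h
  refine ⟨C, hC, fun w hw => ?_⟩
  unfold dE
  apply le_csInf (dE_nonempty e he w (by omega))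
  rintro d ⟨P, _, _, hc, ⟨⟨A, hA, hAc⟩, -⟩, rfl⟩
  have h2 := h1 P A hA (by omega) (by rw [hAc]; exact hc)
  rw [hAc] at h2
  exact h2

/-- an increase somewhere between `w` and `v` -/
theorem exists_stepE (f : ℕ → ℝ) (w v : ℕ) (hwv : w ≤ v) (h : f w < f v) :
    ∃ u, w ≤ u ∧ u < v ∧ f u < f (u + 1) := by
  by_contra hc
  push Not at hc
  have h1 : ∀ n, w + n ≤ v → f (w + n) ≤ f w := by
    intro n
    induction n with
    | zero => intro _; exact le_rfl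
    | succ n ih =>
      intro hn
      exact (hc (w + n) (Nat.le_add_right _ _) (by omega)).trans (ih (by omega))
  have h2 := h1 (v - w) (by omega)
  rw [Nat.add_sub_cancel' hwv] at h2
  linarith

theorem finE (e : ℝ) (he : 11 / 10 ≤ e) (hmain : Pool.Agent.H34.RK.S_MAIN2E) (hrate : RateE e) :
    ∃ (C : ℝ) (w₀ : ℕ), 1 ≤ C ∧ ∀ w : ℕ, w₀ ≤ w →
    (1 / 2 - (C * (Real.log (Real.log w) ^ 2 / Real.log w)) ^ 6 ≤ dE e w ∧
      dE e w ≤ 1 / 2 - 1 / Real.log w ^ 3061) ∧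
    (∀ v : ℕ, Real.exp (Real.log w ^ 511) ≤ v → dE e w < dE e v) ∧
    ∃ u : ℕ, w ≤ u ∧ (u : ℝ) ≤ Real.exp (Real.log w ^ 511) ∧ dE e u < dE e (u + 1) := by
  obtain ⟨C, hC, h1⟩ := lowE e he hrate
  obtain ⟨w₁, h2⟩ := upE hmain
  have hlog : Tendsto (fun w : ℕ => Real.log (w : ℝ)) atTop atTop :=
    Real.tendsto_log_atTop.comp tendsto_natCast_atTop_atTop
  obtain ⟨w₂, hw₂⟩ := eventually_atTop.1 (hlog.eventually (large_y6 C))
  have key : ∀ w v : ℕ, max (max w₁ w₂) 16 ≤ w → Real.exp (Real.log w ^ 511) ≤ v →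
      dE e w < dE e v := by
    intro w v hw hv
    have h3 := h2 e he w ((le_max_left _ _).trans ((le_max_left _ _).trans hw))
    obtain ⟨h4, h5, h6⟩ := hw₂ w ((le_max_right _ _).trans ((le_max_left _ _).trans hw))
    have hw16 : 16 ≤ w := (le_max_right _ _).trans hw
    obtain ⟨x, hx⟩ : ∃ x : ℝ, x = Real.log w := ⟨_, rfl⟩
    rw [← hx] at h3 h4 h5 h6 hv
    have hx0 : 0 < x := by linarith
    have hx1 : 1 ≤ x := by linarith
    have hv0 : (0 : ℝ) < v := lt_of_lt_of_le (Real.exp_pos _) hv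
    have hlv : x ^ 511 ≤ Real.log v := (Real.le_log_iff_exp_le hv0).2 hv
    have hwv : w ≤ v := by
      have h7 : (w : ℝ) ≤ v := by
        have hw0 : (0 : ℝ) < w := by exact_mod_cast (by omega : 0 < w)
        calc (w : ℝ) = Real.exp x := by rw [hx, Real.exp_log hw0]
          _ ≤ Real.exp (x ^ 511) := Real.exp_le_exp.2 (le_self_pow₀ hx1 (by norm_num))
          _ ≤ v := hv
      exact_mod_cast h7
    have h8 := h1 v (hw16.trans hwv)
    have h9 : Real.log (Real.log v) ^ 2 / Real.log v ≤ Real.log (x ^ 511) ^ 2 / x ^ 511 :=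
      mono_logsq (h6.trans (le_self_pow₀ hx1 (by norm_num))) hlv
    have hlv1 : 1 ≤ Real.log v := (one_le_pow₀ hx1).trans hlv
    have h10 : (C * (Real.log (Real.log v) ^ 2 / Real.log v)) ^ 6 ≤
        (C * (Real.log (x ^ 511) ^ 2 / x ^ 511)) ^ 6 := by
      apply pow_le_pow_left₀ (by positivity)
      exact mul_le_mul_of_nonneg_left h9 (by linarith)
    have h11 : (C * (Real.log (x ^ 511) ^ 2 / x ^ 511)) ^ 6 < 1 / x ^ 3061 := by
      rw [Real.log_pow]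
      have e1 : (C * ((((511 : ℕ) : ℝ) * Real.log x) ^ 2 / x ^ 511)) ^ 6 =
          (C * (511 * Real.log x) ^ 2) ^ 6 / (x ^ 5 * x ^ 3061) := by
        push_cast
        rw [← pow_add, mul_div_assoc', div_pow, ← pow_mul]
      rw [e1, div_lt_div_iff₀ (by positivity) (by positivity), one_mul]
      exact mul_lt_mul_of_pos_right h4 (by positivity)
    linarith
  refine ⟨C, max (max w₁ w₂) 16, hC, fun w hw => ?_⟩
  have hw16 : 16 ≤ w := (le_max_right _ _).trans hw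
  refine ⟨⟨h1 w hw16, h2 e he w ((le_max_left _ _).trans ((le_max_left _ _).trans hw))⟩,
    fun v hv => key w v hw hv, ?_⟩
  obtain ⟨v, hv⟩ : ∃ v, v = ⌈Real.exp (Real.log w ^ 511)⌉₊ := ⟨_, rfl⟩
  have hv1 : Real.exp (Real.log w ^ 511) ≤ v := by rw [hv]; exact Nat.le_ceil _
  have hwr : (16 : ℝ) ≤ w := by exact_mod_cast hw16
  have hlog1 : 1 ≤ Real.log w := by
    rw [Real.le_log_iff_exp_le (by linarith)]
    have := Real.exp_one_lt_d9
    linarith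
  have hwv : w ≤ v := by
    have h3 : (w : ℝ) ≤ v := by
      calc (w : ℝ) = Real.exp (Real.log w) := (Real.exp_log (by linarith)).symm
        _ ≤ Real.exp (Real.log w ^ 511) := Real.exp_le_exp.2 (le_self_pow₀ hlog1 (by norm_num))
        _ ≤ v := hv1
    exact_mod_cast h3
  obtain ⟨u, hu1, hu2, hu3⟩ := exists_stepE (dE e) w v hwv (key w v hw hv1)
  refine ⟨u, hu1, ?_, hu3⟩
  rw [hv] at hu2
  exact (Nat.lt_ceil.1 hu2).le

end Pool.Agent.H34.BL
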