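import Pool.Agent.H36.LV.Stm
import Pool.Agent.H34.BL.Win

/-! # LV-PAIR (variant of helper34, after `Pool/Agent/H36/BK/BK15.lean`) -/

set_option autoImplicit false

open Finset Filter Topology
open scoped Classical

namespace Pool.Agent.H34.BL

open Pool.Agent.H36.BK Pool.Agent.H36.BK.LW Pool.Agent.H36.LX Pool.Agent.H36.LV

namespace PairL

variable {α : Type} [Fintype α] [PartialOrder α]

lemma cc (M : ℕ) (Q : (α → ℕ) → Prop) :
    (cnt α M Q : ℝ) = ∑ f ∈ Om α M, if Q f then (1 : ℝ) else 0 := by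
  unfold cnt
  rw [Finset.sum_boole]

lemma cnt_mono (M : ℕ) {Q Q' : (α → ℕ) → Prop} (h : ∀ f, Q f → Q' f) :
    (cnt α M Q : ℝ) ≤ cnt α M Q' := by
  rw [cc, cc]
  refine sum_le_sum fun f _ => ?_
  by_cases h1 : Q f
  · rw [if_pos h1, if_pos (h f h1)]
  · rw [if_neg h1]
    split_ifs <;> norm_num

lemma cnt_add (M : ℕ) (Q Q' : (α → ℕ) → Prop) :
    (cnt α M (fun f => Q f ∧ Q' f) : ℝ) + cnt α M (fun f => Q f ∧ ¬ Q' f) = cnt α M Q := by
  rw [cc, cc, cc, ← sum_add_distrib]
  refine sum_congr rfl fun f _ => ?_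
  by_cases h1 : Q f <;> by_cases h2 : Q' f <;> simp [h1, h2]

lemma cnt_true (M : ℕ) : (cnt α M (fun _ => True) : ℝ) = (Om α M).card := by
  rw [cc]
  simp

/-- summing over the values of `y` in the window -/
lemma oneQ (M o L : ℕ) (Q : (α → ℕ) → Prop) (y : α) :
    ∑ t ∈ range L, (cnt α M (fun f => Q f ∧ f y = o + t) : ℝ) =
      cnt α M (fun f => Q f ∧ f y ∈ Ico o (o + L)) := by
  simp only [cc]
  rw [sum_comm]
  refine sum_congr rfl fun f _ => ?_
  by_cases hQ : Q f
  · by_cases h : f y ∈ Ico o (o + L)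
    · obtain ⟨h1, h2⟩ := mem_Ico.1 h
      rw [if_pos ⟨hQ, h⟩, sum_eq_single (f y - o)]
      · rw [if_pos]
        exact ⟨hQ, by omega⟩
      · intro t _ ht
        rw [if_neg]
        rintro ⟨_, h3⟩
        omega
      · intro h3
        exfalso
        apply h3
        rw [mem_range]
        omega
    · rw [if_neg fun h3 => h h3.2]
      refine sum_eq_zero fun t ht => ?_
      rw [if_neg]
      rintro ⟨_, h3⟩
      apply h
      rw [mem_Ico]
      have := mem_range.1 ht
      omega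
  · rw [if_neg fun h3 => hQ h3.1]
    exact sum_eq_zero fun t _ => if_neg fun h3 => hQ h3.1

/-- counting by the values at `x` and `y` in the window -/
lemma split (M o L : ℕ) (x y : α) (Q : ℕ → ℕ → Prop) [∀ s t, Decidable (Q s t)] :
    ∑ s ∈ range L, ∑ t ∈ range L,
        (if Q s t then (cnt α M (fun f => f x = o + s ∧ f y = o + t) : ℝ) else 0) =
      cnt α M (fun f => (f x ∈ Ico o (o + L) ∧ f y ∈ Ico o (o + L)) ∧ Q (f x - o) (f y - o)) := by
  have h1 : ∀ s t, (if Q s t then (cnt α M (fun f => f x = o + s ∧ f y = o + t) : ℝ) else 0) =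
      cnt α M (fun f => (Q (f x - o) (f y - o) ∧ f x = o + s) ∧ f y = o + t) := by
    intro s t
    rw [cc, cc]
    split_ifs with h
    · refine sum_congr rfl fun f _ => ?_
      by_cases h2 : f x = o + s ∧ f y = o + t
      · have e1 : f x - o = s := by omega
        have e2 : f y - o = t := by omega
        rw [if_pos h2, if_pos ⟨⟨by rw [e1, e2]; exact h, h2.1⟩, h2.2⟩]
      · rw [if_neg h2, if_neg fun h3 => h2 ⟨h3.1.2, h3.2⟩]
    · symm
      refine sum_eq_zero fun f _ => ?_
      rw [if_neg]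
      rintro ⟨⟨h3, h4⟩, h5⟩
      have e1 : f x - o = s := by omega
      have e2 : f y - o = t := by omega
      rw [e1, e2] at h3
      exact h h3
  simp only [h1]
  have h2 : ∀ s ∈ range L, ∑ t ∈ range L,
      (cnt α M (fun f => (Q (f x - o) (f y - o) ∧ f x = o + s) ∧ f y = o + t) : ℝ) =
      cnt α M (fun f => (Q (f x - o) (f y - o) ∧ f y ∈ Ico o (o + L)) ∧ f x = o + s) := by
    intro s _
    rw [oneQ]
    congr 2
    funext f
    apply propext
    tauto
  rw [sum_congr rfl h2, oneQ]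
  congr 2
  funext f
  apply propext
  tauto

/-- closeness of the normalised laws -/
lemma l1 (L : ℕ) (a b : ℕ → ℝ) (A B : ℝ) (ha : ∀ s, 0 ≤ a s) (hab : ∀ s, a s ≤ b s)
    (hA : ∑ s ∈ range L, a s = A) (hB : ∑ s ∈ range L, b s = B) (hA0 : 0 < A) :
    ∑ s ∈ range L, |a s / A - b s / B| ≤ 2 * (B - A) / B := by
  have hAB : A ≤ B := by rw [← hA, ← hB]; exact sum_le_sum fun s _ => hab s
  have hB0 : 0 < B := by linarith
  calc ∑ s ∈ range L, |a s / A - b s / B| ≤
      ∑ s ∈ range L, (a s * (1 / A - 1 / B) + (b s - a s) / B) := by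
        refine sum_le_sum fun s _ => ?_
        have h1 : a s / A - b s / B = a s * (1 / A - 1 / B) + -((b s - a s) / B) := by ring
        rw [h1]
        refine (abs_add_le _ _).trans ?_
        rw [abs_neg, abs_of_nonneg, abs_of_nonneg]
        · exact div_nonneg (by linarith [hab s]) hB0.le
        · refine mul_nonneg (ha s) ?_
          rw [sub_nonneg]
          exact one_div_le_one_div_of_le hA0 hAB
    _ = A * (1 / A - 1 / B) + (B - A) / B := by
        rw [sum_add_distrib, ← sum_mul, hA, ← sum_div, sum_sub_distrib, hA, hB]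
    _ = 2 * (B - A) / B := by
        field_simp
        ring

end PairL

open PairL in
theorem pairL : S_fkgL → S_near → S_pairL := by
  intro hF hN α _ _ M o L R b x y K c lam θ hM hL hLR hR hb hK hc hθ hθ8 hpx hpy hwx hwy hH hlam hl
  have hL0 : (0 : ℝ) < L := by
    have : 0 < L := by omega
    exact_mod_cast this
  obtain ⟨T, hTd⟩ : ∃ T : ℝ, T = ((Om α M).card : ℝ) := ⟨_, rfl⟩
  -- masses in the window
  have hmass : ∀ z : α, ∑ t ∈ range L, pm α M z (o + t) =
      (cnt α M (fun f => f z ∈ Ico o (o + L)) : ℝ) / T := by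
    intro z
    have h1 := oneQ M o L (fun _ => True) z
    simp only [true_and] at h1
    rw [← h1, sum_div]
    refine sum_congr rfl fun t _ => ?_
    rw [pm, hTd]
    rfl
  have hT0 : 0 < T := by
    rcases (Nat.cast_nonneg (Om α M).card : (0 : ℝ) ≤ _).eq_or_lt with h | h
    · exfalso
      rw [hmass x, hTd, ← h, div_zero] at hwx
      linarith
    · rw [hTd]; exact h
  obtain ⟨nX, hnX⟩ : ∃ nX : ℝ, nX = (cnt α M (fun f => f x ∈ Ico o (o + L)) : ℝ) := ⟨_, rfl⟩
  obtain ⟨nY, hnY⟩ : ∃ nY : ℝ, nY = (cnt α M (fun f => f y ∈ Ico o (o + L)) : ℝ) := ⟨_, rfl⟩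
  obtain ⟨nE, hnE⟩ : ∃ nE : ℝ, nE = (cnt α M (fun f => f x ∈ Ico o (o + L) ∧
    f y ∈ Ico o (o + L)) : ℝ) := ⟨_, rfl⟩
  have hX : (1 - θ) * T ≤ nX := by
    have := hmass x
    rw [this, ← hnX, le_div_iff₀ hT0] at hwx
    exact hwx
  have hY : (1 - θ) * T ≤ nY := by
    have := hmass y
    rw [this, ← hnY, le_div_iff₀ hT0] at hwy
    exact hwy
  have hall : ∀ Q : (α → ℕ) → Prop, (cnt α M Q : ℝ) ≤ T := by
    intro Q
    rw [hTd, ← cnt_true]
    exact cnt_mono M fun _ _ => trivial
  have hXc : (cnt α M (fun f => ¬ f x ∈ Ico o (o + L)) : ℝ) ≤ θ * T := by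
    have h1 := cnt_add (α := α) M (fun _ => True) (fun f => f x ∈ Ico o (o + L))
    simp only [true_and] at h1
    rw [cnt_true, ← hTd, ← hnX] at h1
    linarith
  have hYc : (cnt α M (fun f => ¬ f y ∈ Ico o (o + L)) : ℝ) ≤ θ * T := by
    have h1 := cnt_add (α := α) M (fun _ => True) (fun f => f y ∈ Ico o (o + L))
    simp only [true_and] at h1
    rw [cnt_true, ← hTd, ← hnY] at h1
    linarith
  have hXE : nX - nE ≤ θ * T := by
    have h1 := cnt_add (α := α) M (fun f => f x ∈ Ico o (o + L)) (fun f => f y ∈ Ico o (o + L))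
    have h2 := cnt_mono (α := α) M (Q := fun f => f x ∈ Ico o (o + L) ∧ ¬ f y ∈ Ico o (o + L))
      (Q' := fun f => ¬ f y ∈ Ico o (o + L)) fun f h => h.2
    rw [← hnX, ← hnE] at h1
    linarith
  have hYE : nY - nE ≤ θ * T := by
    have h1 := cnt_add (α := α) M (fun f => f y ∈ Ico o (o + L)) (fun f => f x ∈ Ico o (o + L))
    have h2 := cnt_mono (α := α) M (Q := fun f => f y ∈ Ico o (o + L) ∧ ¬ f x ∈ Ico o (o + L))
      (Q' := fun f => ¬ f x ∈ Ico o (o + L)) fun f h => h.2
    have h3 : (cnt α M (fun f => f y ∈ Ico o (o + L) ∧ f x ∈ Ico o (o + L)) : ℝ) = nE := by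
      rw [hnE]
      congr 2
      funext f
      exact propext and_comm
    rw [← hnY, h3] at h1
    linarith
  have hE : (1 - 2 * θ) * T ≤ nE := by linarith
  have hET : nE ≤ T := by rw [hnE]; exact hall _
  have hθT : θ * T ≤ 1 / 8 * T := mul_le_mul_of_nonneg_right hθ8 hT0.le
  have hE0 : 0 < nE := by linarith
  have hEh : T ≤ 2 * nE := by linarith
  -- conditioning changes the probability of an event by at most `2 θ`
  have hcond : ∀ Q : (α → ℕ) → Prop,
      |(cnt α M (fun f => (f x ∈ Ico o (o + L) ∧ f y ∈ Ico o (o + L)) ∧ Q f) : ℝ) / nE -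
        (cnt α M Q : ℝ) / T| ≤ 2 * θ := by
    intro Q
    obtain ⟨a, ha⟩ : ∃ a : ℝ, a = (cnt α M (fun f => (f x ∈ Ico o (o + L) ∧ f y ∈ Ico o (o + L)) ∧ Q f) : ℝ) :=
      ⟨_, rfl⟩
    obtain ⟨a', ha'⟩ : ∃ a' : ℝ, a' = (cnt α M Q : ℝ) := ⟨_, rfl⟩
    rw [← ha, ← ha']
    have h0 : 0 ≤ a := by rw [ha]; positivity
    have h1 : a ≤ nE := by
      rw [ha, hnE]
      exact cnt_mono M fun f h => h.1
    have h2 : a ≤ a' := by
      rw [ha, ha']
      exact cnt_mono M fun f h => h.2
    have h3 : a' - a ≤ 2 * θ * T := by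
      have e1 := cnt_add (α := α) M Q (fun f => f x ∈ Ico o (o + L) ∧ f y ∈ Ico o (o + L))
      have e2 := cnt_mono (α := α) M (Q := fun f => Q f ∧ ¬ (f x ∈ Ico o (o + L) ∧ f y ∈ Ico o (o + L)))
        (Q' := fun f => True ∧ ¬ (f x ∈ Ico o (o + L) ∧ f y ∈ Ico o (o + L))) fun f h => ⟨trivial, h.2⟩
      have e3 := cnt_add (α := α) M (fun _ => True) (fun f => f x ∈ Ico o (o + L) ∧ f y ∈ Ico o (o + L))
      have e4 : (cnt α M (fun f => Q f ∧ (f x ∈ Ico o (o + L) ∧ f y ∈ Ico o (o + L))) : ℝ) = a := by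
        rw [ha]
        congr 2
        funext f
        exact propext and_comm
      have e5 : (cnt α M (fun f => True ∧ (f x ∈ Ico o (o + L) ∧ f y ∈ Ico o (o + L))) : ℝ) = nE := by
        rw [hnE]
        congr 2
        funext f
        exact propext ⟨fun h => h.2, fun h => ⟨trivial, h⟩⟩
      rw [cnt_true, ← hTd, e5] at e3
      rw [e4, ← ha'] at e1
      linarith
    have h4 : a / nE - a' / T = (a * (T - nE) / nE - (a' - a)) / T := by
      field_simp
      ring
    have h5 : 0 ≤ a * (T - nE) / nE := div_nonneg (mul_nonneg h0 (by linarith)) hE0.le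
    have h6 : a * (T - nE) / nE ≤ 2 * θ * T := by
      rw [div_le_iff₀ hE0]
      have : a * (T - nE) ≤ nE * (T - nE) := mul_le_mul_of_nonneg_right h1 (by linarith)
      nlinarith
    rw [h4, abs_le]
    constructor
    · rw [le_div_iff₀ hT0]
      linarith
    · rw [div_le_iff₀ hT0]
      linarith
  -- the kernel
  obtain ⟨q, hq⟩ : ∃ q : ℕ → ℕ → ℝ, ∀ s t,
      q s t = (cnt α M (fun f => f x = o + s ∧ f y = o + t) : ℝ) / nE := ⟨_, fun _ _ => rfl⟩
  have hgen : ∀ (Q : ℕ → ℕ → Prop) [∀ s t, Decidable (Q s t)], (∑ s ∈ range L, ∑ t ∈ range L, if Q s t then q s t else 0) =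
      (cnt α M (fun f => (f x ∈ Ico o (o + L) ∧ f y ∈ Ico o (o + L)) ∧ Q (f x - o) (f y - o)) : ℝ) /
        nE := by
    intro Q _
    rw [← split, sum_div]
    refine sum_congr rfl fun s _ => ?_
    rw [sum_div]
    refine sum_congr rfl fun t _ => ?_
    split_ifs
    · exact hq s t
    · simp
  have hq0 : ∀ s t, 0 ≤ q s t := fun s t => by rw [hq]; positivity
  have htot : ∑ s ∈ range L, ∑ t ∈ range L, q s t = 1 := by
    have := hgen (fun _ _ => True)
    simp only [if_true, and_true] at this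
    rw [this, ← hnE, div_self hE0.ne']
  have hmx : ∀ s, ∑ t ∈ range L, q s t =
      (cnt α M (fun f => f x = o + s ∧ f y ∈ Ico o (o + L)) : ℝ) / nE := by
    intro s
    simp only [hq]
    rw [← sum_div, oneQ]
  have hmy : ∀ t, ∑ s ∈ range L, q s t =
      (cnt α M (fun f => f y = o + t ∧ f x ∈ Ico o (o + L)) : ℝ) / nE := by
    intro t
    simp only [hq]
    rw [← sum_div, ← oneQ]
    congr 1
    refine sum_congr rfl fun s _ => ?_
    congr 2
    funext f
    exact propext and_comm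
  have hNx : ∀ (z : α) (j : ℕ), (Nx α M z j : ℝ) = pm α M z j * T := by
    intro z j
    rw [pm, ← hTd]
    field_simp
  have hbd : ∀ (z z' : α) (s : ℕ), (∀ j, pm α M z j * L ≤ K) →
      (cnt α M (fun f => f z = o + s ∧ f z' ∈ Ico o (o + L)) : ℝ) / nE ≤ 2 * K / L := by
    intro z z' s hz
    have h1 : (cnt α M (fun f => f z = o + s ∧ f z' ∈ Ico o (o + L)) : ℝ) ≤ Nx α M z (o + s) :=
      cnt_mono M fun f h => h.1
    rw [hNx] at h1
    rw [div_le_div_iff₀ hE0 hL0]
    have h2 := hz (o + s)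
    have hp0 : 0 ≤ pm α M z (o + s) := by rw [pm]; positivity
    calc (cnt α M (fun f => f z = o + s ∧ f z' ∈ Ico o (o + L)) : ℝ) * L
        ≤ (pm α M z (o + s) * T) * L := mul_le_mul_of_nonneg_right h1 hL0.le
      _ = (pm α M z (o + s) * L) * T := by ring
      _ ≤ K * T := mul_le_mul_of_nonneg_right h2 hT0.le
      _ ≤ K * (2 * nE) := mul_le_mul_of_nonneg_left hEh (by linarith)
      _ = 2 * K * nE := by ring
  -- distribution functions
  have hcx : ∀ s, s < L → ∑ a ∈ range (s + 1), ∑ t ∈ range L, q a t =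
      (cnt α M (fun f => (f x ∈ Ico o (o + L) ∧ f y ∈ Ico o (o + L)) ∧ f x ≤ o + s) : ℝ) / nE := by
    intro s hs
    have h1 := hgen (fun a _ => a ≤ s)
    have e : (fun f : α → ℕ => (f x ∈ Ico o (o + L) ∧ f y ∈ Ico o (o + L)) ∧ f x - o ≤ s) =
        fun f => (f x ∈ Ico o (o + L) ∧ f y ∈ Ico o (o + L)) ∧ f x ≤ o + s := by
      funext f
      apply propext
      constructor
      · rintro ⟨h, h2⟩
        exact ⟨h, by omega⟩
      · rintro ⟨h, h2⟩
        exact ⟨h, by omega⟩
    rw [e] at h1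
    rw [← h1]
    have : ∀ a ∈ range L, (∑ t ∈ range L, if a ≤ s then q a t else 0) =
        if a ≤ s then ∑ t ∈ range L, q a t else 0 := by
      intro a _
      split_ifs
      · rfl
      · simp
    rw [sum_congr rfl this, ← sum_filter]
    refine sum_congr ?_ fun _ _ => rfl
    ext a
    simp only [mem_range, mem_filter]
    omega
  have hcy : ∀ t, t < L → ∑ a ∈ range (t + 1), ∑ s ∈ range L, q s a =
      (cnt α M (fun f => (f x ∈ Ico o (o + L) ∧ f y ∈ Ico o (o + L)) ∧ f y ≤ o + t) : ℝ) / nE := by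
    intro t ht
    have h1 := hgen (fun _ a => a ≤ t)
    have e : (fun f : α → ℕ => (f x ∈ Ico o (o + L) ∧ f y ∈ Ico o (o + L)) ∧ f y - o ≤ t) =
        fun f => (f x ∈ Ico o (o + L) ∧ f y ∈ Ico o (o + L)) ∧ f y ≤ o + t := by
      funext f
      apply propext
      constructor
      · rintro ⟨h, h2⟩
        exact ⟨h, by omega⟩
      · rintro ⟨h, h2⟩
        exact ⟨h, by omega⟩
    rw [e] at h1
    rw [← h1, sum_comm (s := range L)]
    have : ∀ a ∈ range L, (∑ s ∈ range L, if a ≤ t then q s a else 0) =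
        if a ≤ t then ∑ s ∈ range L, q s a else 0 := by
      intro a _
      split_ifs
      · rfl
      · simp
    rw [sum_congr rfl this, ← sum_filter]
    refine sum_congr ?_ fun _ _ => rfl
    ext a
    simp only [mem_range, mem_filter]
    omega
  have hcxy : ∀ s t, s < L → t < L → ∑ a ∈ range (s + 1), ∑ b ∈ range (t + 1), q a b =
      (cnt α M (fun f => (f x ∈ Ico o (o + L) ∧ f y ∈ Ico o (o + L)) ∧ f x ≤ o + s ∧ f y ≤ o + t) :
        ℝ) / nE := by
    intro s t hs ht
    have h1 := hgen (fun a b => a ≤ s ∧ b ≤ t)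
    have e : (fun f : α → ℕ => (f x ∈ Ico o (o + L) ∧ f y ∈ Ico o (o + L)) ∧
          f x - o ≤ s ∧ f y - o ≤ t) =
        fun f => (f x ∈ Ico o (o + L) ∧ f y ∈ Ico o (o + L)) ∧ f x ≤ o + s ∧ f y ≤ o + t := by
      funext f
      apply propext
      constructor
      · rintro ⟨h, h2, h3⟩
        exact ⟨h, by omega, by omega⟩
      · rintro ⟨h, h2, h3⟩
        exact ⟨h, by omega, by omega⟩
    rw [e] at h1
    rw [← h1]
    have h2 : ∀ a ∈ range L, (∑ b ∈ range L, if a ≤ s ∧ b ≤ t then q a b else 0) =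
        if a ≤ s then ∑ b ∈ range (t + 1), q a b else 0 := by
      intro a _
      by_cases ha : a ≤ s
      · simp only [ha, true_and, if_true]
        rw [← sum_filter]
        refine sum_congr ?_ fun _ _ => rfl
        ext b
        simp only [mem_range, mem_filter]
        omega
      · simp [ha]
    rw [sum_congr rfl h2, ← sum_filter]
    refine sum_congr ?_ fun _ _ => rfl
    ext a
    simp only [mem_range, mem_filter]
    omega
  have hhh : ∀ s t, s < L → t < L → hh L q s t =
      (cnt α M (fun f => (f x ∈ Ico o (o + L) ∧ f y ∈ Ico o (o + L)) ∧ f x ≤ o + s ∧ f y ≤ o + t) :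
        ℝ) / nE -
      (cnt α M (fun f => (f x ∈ Ico o (o + L) ∧ f y ∈ Ico o (o + L)) ∧ f x ≤ o + s) : ℝ) / nE *
      ((cnt α M (fun f => (f x ∈ Ico o (o + L) ∧ f y ∈ Ico o (o + L)) ∧ f y ≤ o + t) : ℝ) / nE) := by
    intro s t hs ht
    unfold hh
    rw [← hcxy s t hs ht, ← hcx s hs, ← hcy t ht, sum_mul_sum, ← sum_sub_distrib]
    refine sum_congr rfl fun a _ => ?_
    rw [sum_sub_distrib]
  have hres := hN L R b q (2 * K) (c + 8 * θ) lam hL hLR hR hb (by linarith) (by linarith) hq0 htot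
    (fun s _ => by rw [hmx]; exact hbd x y s hpx) (fun t _ => by rw [hmy]; exact hbd y x t hpy)
    (fun s t hs ht => by
      rw [hhh s t hs ht]
      have h1 := hF α M x y o L (o + s) (o + t)
      have h2 : (cnt α M (fun f => (f x ∈ Ico o (o + L) ∧ f y ∈ Ico o (o + L)) ∧ f x ≤ o + s) : ℝ) *
          cnt α M (fun f => (f x ∈ Ico o (o + L) ∧ f y ∈ Ico o (o + L)) ∧ f y ≤ o + t) ≤
        cnt α M (fun f => (f x ∈ Ico o (o + L) ∧ f y ∈ Ico o (o + L)) ∧ f x ≤ o + s ∧ f y ≤ o + t) *
          nE := by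
        rw [hnE]
        exact_mod_cast h1
      rw [sub_nonneg, div_mul_div_comm, div_le_div_iff₀ (by positivity) hE0]
      nlinarith)
    (by
      have e1 : ∀ s ∈ range L, ∀ t ∈ range L, hh L q s t ≤
          Hs α M x y (o + s) (o + t) / T ^ 2 + 8 * θ := by
        intro s hs t ht
        rw [hhh s t (mem_range.1 hs) (mem_range.1 ht)]
        have h1 := abs_le.1 (hcond fun f => f x ≤ o + s ∧ f y ≤ o + t)
        have h2 := abs_le.1 (hcond fun f => f x ≤ o + s)
        have h3 := abs_le.1 (hcond fun f => f y ≤ o + t)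
        obtain ⟨u, hu⟩ : ∃ u : ℝ, u = (cnt α M (fun f => (f x ∈ Ico o (o + L) ∧
          f y ∈ Ico o (o + L)) ∧ f x ≤ o + s) : ℝ) / nE := ⟨_, rfl⟩
        obtain ⟨v, hv⟩ : ∃ v : ℝ, v = (cnt α M (fun f => (f x ∈ Ico o (o + L) ∧
          f y ∈ Ico o (o + L)) ∧ f y ≤ o + t) : ℝ) / nE := ⟨_, rfl⟩
        obtain ⟨u', hu'⟩ : ∃ u' : ℝ, u' = (cnt α M (fun f => f x ≤ o + s) : ℝ) / T := ⟨_, rfl⟩
        obtain ⟨v', hv'⟩ : ∃ v' : ℝ, v' = (cnt α M (fun f => f y ≤ o + t) : ℝ) / T := ⟨_, rfl⟩
        have h4 : Hs α M x y (o + s) (o + t) / T ^ 2 =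
            (cnt α M (fun f => f x ≤ o + s ∧ f y ≤ o + t) : ℝ) / T - u' * v' := by
          rw [hu', hv']
          unfold Hs
          rw [← hTd]
          field_simp
        rw [h4, ← hu, ← hv]
        rw [← hu, ← hu'] at h2
        rw [← hv, ← hv'] at h3
        have hu0 : 0 ≤ u := by rw [hu]; positivity
        have hv0 : 0 ≤ v := by rw [hv]; positivity
        have hu'1 : u' ≤ 1 := by
          rw [hu', div_le_one hT0]
          exact hall _
        have hv1 : v ≤ 1 := by
          rw [hv, div_le_one hE0, hnE]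
          exact cnt_mono M fun f h => h.1
        have hu'0 : 0 ≤ u' := by rw [hu']; positivity
        -- `u' v' - u v = u' (v' - v) + v (u' - u) ≤ 4 θ`
        have h5 : u' * v' - u * v = u' * (v' - v) + v * (u' - u) := by ring
        have h6 : u' * (v' - v) ≤ 2 * θ := by
          calc u' * (v' - v) ≤ u' * (2 * θ) := mul_le_mul_of_nonneg_left (by linarith [h3.1]) hu'0
            _ ≤ 1 * (2 * θ) := mul_le_mul_of_nonneg_right hu'1 (by linarith)
            _ = 2 * θ := one_mul _
        have h7 : v * (u' - u) ≤ 2 * θ := by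
          calc v * (u' - u) ≤ v * (2 * θ) := mul_le_mul_of_nonneg_left (by linarith [h2.1]) hv0
            _ ≤ 1 * (2 * θ) := mul_le_mul_of_nonneg_right hv1 (by linarith)
            _ = 2 * θ := one_mul _
        linarith [h1.2]
      have e2 : ∑ s ∈ Ico o (o + L), ∑ t ∈ Ico o (o + L), Hs α M x y s t =
          ∑ s ∈ range L, ∑ t ∈ range L, Hs α M x y (o + s) (o + t) := by
        rw [sum_Ico_eq_sum_range]
        simp only [Nat.add_sub_cancel_left]
        refine sum_congr rfl fun s _ => ?_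
        rw [sum_Ico_eq_sum_range]
        simp only [Nat.add_sub_cancel_left]
      rw [e2, ← hTd] at hH
      calc ∑ s ∈ range L, ∑ t ∈ range L, hh L q s t
          ≤ ∑ s ∈ range L, ∑ t ∈ range L, (Hs α M x y (o + s) (o + t) / T ^ 2 + 8 * θ) :=
            sum_le_sum fun s hs => sum_le_sum fun t ht => e1 s hs t ht
        _ = (∑ s ∈ range L, ∑ t ∈ range L, Hs α M x y (o + s) (o + t)) / T ^ 2 +
            8 * θ * (L : ℝ) ^ 2 := by
            simp only [sum_add_distrib, sum_const, card_range, nsmul_eq_mul, ← sum_div]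
            ring
        _ ≤ c * (L : ℝ) ^ 2 + 8 * θ * (L : ℝ) ^ 2 := by
            have : (∑ s ∈ range L, ∑ t ∈ range L, Hs α M x y (o + s) (o + t)) / T ^ 2 ≤
                c * (L : ℝ) ^ 2 := by
              rw [div_le_iff₀ (by positivity)]
              exact hH
            linarith
        _ = (c + 8 * θ) * (L : ℝ) ^ 2 := by ring)
    hlam hl
  -- the two sums
  have g1 := hgen (fun s t => s < t)
  have g2 := hgen (fun s t => t < s)
  have e1 : (fun f : α → ℕ => (f x ∈ Ico o (o + L) ∧ f y ∈ Ico o (o + L)) ∧ f x - o < f y - o) =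
      fun f => (f x ∈ Ico o (o + L) ∧ f y ∈ Ico o (o + L)) ∧ f x < f y := by
    funext f
    apply propext
    constructor
    · rintro ⟨h, h2⟩
      exact ⟨h, by omega⟩
    · rintro ⟨h, h2⟩
      have := mem_Ico.1 h.1
      exact ⟨h, by omega⟩
  have e2 : (fun f : α → ℕ => (f x ∈ Ico o (o + L) ∧ f y ∈ Ico o (o + L)) ∧ f y - o < f x - o) =
      fun f => (f x ∈ Ico o (o + L) ∧ f y ∈ Ico o (o + L)) ∧ f y < f x := by
    funext f
    apply propext
    constructor
    · rintro ⟨h, h2⟩
      exact ⟨h, by omega⟩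
    · rintro ⟨h, h2⟩
      have := mem_Ico.1 h.2
      exact ⟨h, by omega⟩
  rw [e1] at g1
  rw [e2] at g2
  rw [g1, g2] at hres
  have c1 := abs_le.1 (hcond fun f => f x < f y)
  have c2 := abs_le.1 (hcond fun f => f y < f x)
  -- the laws
  have d1 : ∑ s ∈ range L, |(∑ t ∈ range L, q s t) - winD o L (pm α M x) s| ≤ 3 * θ := by
    have h1 := l1 L (fun s => (cnt α M (fun f => f x = o + s ∧ f y ∈ Ico o (o + L)) : ℝ))
      (fun s => (Nx α M x (o + s) : ℝ)) nE nX (fun s => by positivity)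
      (fun s => cnt_mono M fun f h => h.1) (by
        have := oneQ M o L (fun f => f y ∈ Ico o (o + L)) x
        rw [hnE]
        rw [show (fun f : α → ℕ => f x ∈ Ico o (o + L) ∧ f y ∈ Ico o (o + L)) =
          fun f => f y ∈ Ico o (o + L) ∧ f x ∈ Ico o (o + L) from funext fun f => propext and_comm,
          ← this]
        refine sum_congr rfl fun s _ => ?_
        congr 2
        funext f
        exact propext and_comm) (by
        have := oneQ M o L (fun _ => True) x
        simp only [true_and] at this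
        rw [hnX, ← this]
        rfl) hE0
    refine le_trans (le_of_eq ?_) (h1.trans ?_)
    · refine sum_congr rfl fun s hs => ?_
      rw [hmx, winD, if_pos (mem_range.1 hs), hmass x, ← hnX, pm, ← hTd]
      congr 2
      field_simp
    · rw [div_le_iff₀ (by nlinarith)]
      nlinarith
  have d2 : ∑ s ∈ range L, |(∑ t ∈ range L, q t s) - winD o L (pm α M y) s| ≤ 3 * θ := by
    have h1 := l1 L (fun s => (cnt α M (fun f => f y = o + s ∧ f x ∈ Ico o (o + L)) : ℝ))
      (fun s => (Nx α M y (o + s) : ℝ)) nE nY (fun s => by positivity)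
      (fun s => cnt_mono M fun f h => h.1) (by
        have := oneQ M o L (fun f => f x ∈ Ico o (o + L)) y
        rw [hnE, ← this]
        refine sum_congr rfl fun s _ => ?_
        congr 2
        funext f
        exact propext and_comm) (by
        have := oneQ M o L (fun _ => True) y
        simp only [true_and] at this
        rw [hnY, ← this]
        rfl) hE0
    refine le_trans (le_of_eq ?_) (h1.trans ?_)
    · refine sum_congr rfl fun s hs => ?_
      rw [hmy, winD, if_pos (mem_range.1 hs), hmass y, ← hnY, pm, ← hTd]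
      congr 2
      field_simp
    · rw [div_le_iff₀ (by nlinarith)]
      nlinarith
  have hw1 : ∀ z : α, 1 - θ ≤ ∑ t ∈ range L, pm α M z (o + t) →
      ∑ s ∈ range L, |winD o L (pm α M z) s| = 1 := by
    intro z hz
    have hz0 : 0 < ∑ t ∈ range L, pm α M z (o + t) := by linarith
    have h1 : ∀ s ∈ range L, |winD o L (pm α M z) s| =
        pm α M z (o + s) / ∑ t ∈ range L, pm α M z (o + t) := by
      intro s hs
      rw [winD, if_pos (mem_range.1 hs), abs_of_nonneg]
      refine div_nonneg ?_ hz0.le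
      rw [pm]
      positivity
    rw [sum_congr rfl h1, ← sum_div, div_self hz0.ne']
  have hm1 : ∑ s ∈ range L, |∑ t ∈ range L, q t s| = 1 := by
    rw [← htot, sum_comm (s := range L) (f := fun s t => q s t)]
    refine sum_congr rfl fun s _ => abs_of_nonneg (sum_nonneg fun t _ => hq0 t s)
  have hBB := Win.BB_diff L (fun s => ∑ t ∈ range L, q s t) (fun s => ∑ t ∈ range L, q t s)
    (winD o L (pm α M x)) (winD o L (pm α M y))
  rw [← Win.om_eq, ← Win.om_eq, hm1, hw1 x hwx, mul_one, one_mul] at hBB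
  have c3 := abs_le.1 (hBB.trans (add_le_add d1 d2))
  have c4 := abs_le.1 hres
  have e3 : 2 * (2 * K) / (R : ℝ) = 4 * K / R := by ring
  rw [e3] at c4
  rw [sub_div, ← hTd, abs_le]
  constructor <;> linarith [c1.1, c1.2, c2.1, c2.2, c3.1, c3.2, c4.1, c4.2]

end Pool.Agent.H34.BL
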