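import Pool.Agent.H34.BL.Asm6
import Pool.Agent.H34.BL.FinE
import Pool.Agent.H36.BK.All
import Pool.Agent.H36.LV.T.COV
import Pool.Agent.H36.LV.T.FKG
import Pool.Agent.H34.BL.PairL
import Pool.Agent.H36.LV.T.NUM
import Pool.Agent.H36.LV.T.THM
import Pool.Agent.H36.LV.T.RATE
import Pool.Agent.H36.LV.T.CORE39

/-!
# Posets with at most `w^(13/10)` elements: assembly of project LV
-/

set_option autoImplicit false

namespace Pool.Agent.H34.BL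

open Pool.Agent Pool.Agent.H36.LV Pool.Agent.H36.BK

theorem t_thmL : S_thmL :=
  Pool.Agent.H36.LV.T.thm (Pool.Agent.H36.LV.T.core Pool.Agent.H36.LV.T.cov
    (pairL Pool.Agent.H36.LV.T.fkg (near H82.BK.hmax)) dens0 tail1 grp1
    Pool.Agent.H36.LX.T.win) t_clu2 Pool.Agent.H36.LV.T.num

theorem t_rateL : S_rateL := Pool.Agent.H36.LV.T.rate t_thmL

theorem t_finL : ∃ (C : ℝ) (w₀ : ℕ), 1 ≤ C ∧ ∀ w : ℕ, w₀ ≤ w →
    (1 / 2 - (C * (Real.log (Real.log w) ^ 2 / Real.log w)) ^ 6 ≤ dE (13 / 10) w ∧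
      dE (13 / 10) w ≤ 1 / 2 - 1 / Real.log w ^ 3061) ∧
    (∀ v : ℕ, Real.exp (Real.log w ^ 511) ≤ v → dE (13 / 10) w < dE (13 / 10) v) ∧
    ∃ u : ℕ, w ≤ u ∧ (u : ℝ) ≤ Real.exp (Real.log w ^ 511) ∧
      dE (13 / 10) u < dE (13 / 10) (u + 1) :=
  finE (13 / 10) (by norm_num) Pool.Agent.H34.RK.Asm.t_main2E t_rateL

end Pool.Agent.H34.BL
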