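import Pool.Agent.H34.BL.Stm

/-! # BL-CORE (helper96): assembly of `S_core1` -/

set_option autoImplicit false

open Finset Filter Topology
open scoped Classical

namespace Pool.Agent.H34.BL

open Pool.Agent.H36.BK Pool.Agent.H36.BK.LW Pool.Agent.H13R3.WB Pool.Agent.H931R3.Bal

namespace Core1

variable {α : Type} [Fintype α] [PartialOrder α]

lemma Nx_zero (M : ℕ) (x : α) (j : ℕ) (hj : M ≤ j) : Nx α M x j = 0 := by
  unfold Nx Pool.Agent.H36.BK.cnt
  rw [card_eq_zero]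
  apply Finset.eq_empty_of_forall_notMem
  intro f hf
  simp only [mem_filter] at hf
  have := (mem_Om.1 hf.1).1 x
  omega

lemma exists_mode {M : ℕ} (hM : 1 ≤ M) (x : α) : ∃ m, m < M ∧ ∀ j, Nx α M x j ≤ Nx α M x m := by
  obtain ⟨m, hm, h⟩ := exists_max_image (range M) (fun j => Nx α M x j) ⟨0, mem_range.2 hM⟩
  refine ⟨m, mem_range.1 hm, fun j => ?_⟩
  by_cases hj : j < M
  · exact h j (mem_range.2 hj)
  · rw [Nx_zero M x j (by omega)]
    exact Nat.zero_le _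

/-- the data of an element of small density -/
lemma exists_data {M Kn : ℕ} (hM : 1 ≤ M) (x : α) (hx : ∀ j, Nx α M x j * M ≤ Kn * (Om α M).card) :
    ∃ m i : ℕ, m < M ∧ (∀ j, Nx α M x j ≤ Nx α M x m) ∧
      2 ^ i * (Om α M).card ≤ Nx α M x m * M ∧ Nx α M x m * M < 2 ^ (i + 1) * (Om α M).card ∧
      i ≤ Nat.log 2 Kn := by
  obtain ⟨m, hm, hmax⟩ := exists_mode hM x
  have hT0 : 0 < (Om α M).card := CoreAux.Om_pos hM
  have h1 : (Om α M).card ≤ Nx α M x m * M := by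
    rw [← CoreAux.sum_Nx M x]
    calc ∑ j ∈ range M, Nx α M x j ≤ ∑ _j ∈ range M, Nx α M x m := sum_le_sum fun j _ => hmax j
      _ = _ := by rw [sum_const, card_range, smul_eq_mul, mul_comm]
  obtain ⟨a, ha⟩ : ∃ a, a = Nx α M x m * M / (Om α M).card := ⟨_, rfl⟩
  have ha1 : 1 ≤ a := by
    rw [ha, Nat.le_div_iff_mul_le hT0]
    simpa using h1
  have ha2 : a ≤ Kn := by
    rw [ha]
    exact Nat.div_le_of_le_mul (by rw [mul_comm (Om α M).card]; exact hx m)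
  refine ⟨m, Nat.log 2 a, hm, hmax, ?_, ?_, Nat.log_mono_right ha2⟩
  · calc 2 ^ Nat.log 2 a * (Om α M).card ≤ a * (Om α M).card :=
          Nat.mul_le_mul_right _ (Nat.pow_log_le_self 2 (by omega))
      _ ≤ _ := by rw [ha]; exact Nat.div_mul_le_self _ _
  · rw [← Nat.div_lt_iff_lt_mul hT0, ← ha]
    exact Nat.lt_pow_succ_log_self (by norm_num) a

/-- the mass of the window -/
lemma mass_win (N : ℕ → ℕ) (M o L m r k : ℕ)
    (htail : 2 ^ k * ∑ j ∈ (range M).filter (fun j => m + k * r ≤ j ∨ j + k * r ≤ m), N j ≤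
      2 * ∑ i ∈ range M, N i)
    (hin : ∀ j, ¬ (m + k * r ≤ j ∨ j + k * r ≤ m) → o ≤ j ∧ j < o + L) :
    (1 - 2 / 2 ^ k : ℝ) * ∑ i ∈ range M, (N i : ℝ) ≤ ∑ s ∈ range L, (N (o + s) : ℝ) := by
  have h1 : ∑ i ∈ range M, (N i : ℝ) =
      ∑ j ∈ (range M).filter (fun j => m + k * r ≤ j ∨ j + k * r ≤ m), (N j : ℝ) +
      ∑ j ∈ (range M).filter (fun j => ¬ (m + k * r ≤ j ∨ j + k * r ≤ m)), (N j : ℝ) :=
    (sum_filter_add_sum_filter_not _ _ _).symm
  have h2 : ∑ j ∈ (range M).filter (fun j => ¬ (m + k * r ≤ j ∨ j + k * r ≤ m)), (N j : ℝ) ≤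
      ∑ j ∈ Ico o (o + L), (N j : ℝ) := by
    refine sum_le_sum_of_subset_of_nonneg ?_ fun _ _ _ => Nat.cast_nonneg _
    intro j hj
    have := hin j (mem_filter.1 hj).2
    exact mem_Ico.2 this
  have h3 : ∑ j ∈ Ico o (o + L), (N j : ℝ) = ∑ s ∈ range L, (N (o + s) : ℝ) := by
    rw [sum_Ico_eq_sum_range]
    simp
  have h4 : (2 : ℝ) ^ k * ∑ j ∈ (range M).filter (fun j => m + k * r ≤ j ∨ j + k * r ≤ m), (N j : ℝ) ≤
      2 * ∑ i ∈ range M, (N i : ℝ) := by exact_mod_cast htail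
  have h5 : ∑ j ∈ (range M).filter (fun j => m + k * r ≤ j ∨ j + k * r ≤ m), (N j : ℝ) ≤
      2 / 2 ^ k * ∑ i ∈ range M, (N i : ℝ) := by
    have h6 : (0 : ℝ) < 2 ^ k := by positivity
    rw [div_mul_eq_mul_div, le_div_iff₀ h6]
    linarith
  rw [h3] at h2
  linarith

end Core1

open Core1 CoreAux in
/-- BL-CORE -/
theorem core1 : S_dens1 → S_tail1 → S_grp1 → S_win1 → S_core1 := by
  intro hdens htail hgrp hwin α _ _ κ A ε lam c l D r k q hκ hA hAne hcard hε hε1 hD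
    hlam hc0 hr hrl hlam3 hDc hk hq hprob
  have hfour : S_four := Pool.Agent.H82.BK.four
  have huni : S_uni := Pool.Agent.H82.BK.uni Pool.Agent.H82.BK.four
  have hfkg : S_fkg := Pool.Agent.H82.BK.fkg
  have hcov : S_cov := cov (var iid img)
  have hpair : S_pair := pair Pool.Agent.H82.BK.fkg (near Pool.Agent.H82.BK.hmax)
  have hclu : S_clu := clust tree bigs' norm key
  obtain ⟨K, hK⟩ : ∃ K : ℝ, K = 2 ^ 16 * (κ : ℝ) := ⟨_, rfl⟩
  rw [← hK] at hr hlam3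
  have hκ1 : (1 : ℝ) ≤ κ := by exact_mod_cast hκ
  have hK1 : 1 ≤ K := by rw [hK]; nlinarith
  have hD0 : (0 : ℝ) < D := by exact_mod_cast hD
  have hκ0 : (0 : ℝ) < κ := by linarith
  obtain ⟨I, hI⟩ : ∃ I, I = Nat.log 2 (2 ^ 16 * κ) := ⟨_, rfl⟩
  have hI2 : 2 ^ I ≤ 2 ^ 16 * κ := by
    rw [hI]
    exact Nat.pow_log_le_self 2 (by positivity)
  obtain ⟨θ, hθ⟩ : ∃ θ : ℝ, θ = 2 / 2 ^ k := ⟨_, rfl⟩
  have h2k : (0 : ℝ) < 2 ^ k := by positivity
  have hθ0 : 0 ≤ θ := by rw [hθ]; positivity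
  have hθε : θ ≤ ε / 32 := by
    rw [hθ, div_le_iff₀ h2k]
    rw [div_le_iff₀ hε] at hk
    linarith
  have hθ1 : θ ≤ 1 := by linarith
  -- the choice of `J`
  have hlim' : ∀ᶠ M : ℕ in atTop, ∀ x ∈ A, ∀ y ∈ A, x ≠ y → 15 / 8 * ε <
      |((cnt α M (fun f => f x < f y) : ℝ) - cnt α M (fun f => f y < f x)) / (Om α M).card| := by
    rw [Filter.eventually_all_finset]
    intro x hx
    rw [Filter.eventually_all_finset]
    intro y hy
    by_cases hxy : x = y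
    · exact Eventually.of_forall fun M h => absurd hxy h
    · have h0 : 15 / 8 * ε < |prob α x y - prob α y x| := by
        have := hprob x hx y hy hxy
        linarith
      have h1 := (lim α x y hxy).abs.eventually_const_lt h0
      filter_upwards [h1] with M hM _
      exact hM
  have hev := (hcov α).and ((hdens α κ A hA hAne hcard).and (hlim'.and (eventually_ge_atTop 2)))
  have h2J : Tendsto (fun J : ℕ => 2 ^ J) atTop atTop :=
    tendsto_pow_atTop_atTop_of_one_lt (by norm_num)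
  obtain ⟨J, ⟨hcovJ, hdensJ, hlimJ, hM2⟩, hJl, hJr⟩ := ((h2J.eventually hev).and
    ((eventually_ge_atTop (2 * l + I)).and (eventually_ge_atTop r))).exists
  obtain ⟨M, hMJ⟩ : ∃ M : ℕ, M = 2 ^ J := ⟨_, rfl⟩
  rw [← hMJ] at hcovJ hdensJ hlimJ hM2
  have hM0n : 0 < M := by omega
  have hM0 : (0 : ℝ) < M := by exact_mod_cast hM0n
  have hMc : (M : ℝ) = 2 ^ J := by rw [hMJ]; push_cast; rfl
  obtain ⟨T, hT⟩ : ∃ T, T = (Om α M).card := ⟨_, rfl⟩
  have hT0 : 0 < T := by rw [hT]; exact Om_pos (by omega)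
  have hT0' : (0 : ℝ) < T := by exact_mod_cast hT0
  obtain ⟨G, hG⟩ : ∃ G : Finset α, G = A.filter fun x => ∀ j, Nx α M x j * M ≤
    2 ^ 16 * κ * (Om α M).card := ⟨_, rfl⟩
  rw [← hG] at hdensJ
  have hGA : ∀ x ∈ G, x ∈ A := fun x hx => by rw [hG] at hx; exact (mem_filter.1 hx).1
  have hpmK : ∀ x ∈ G, ∀ j, pm α M x j ≤ K / M := by
    intro x hx j
    rw [hG] at hx
    have h1 := (mem_filter.1 hx).2 j
    have h2 : (Nx α M x j : ℝ) * M ≤ K * T := by rw [hK, hT]; exact_mod_cast h1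
    rw [pm, ← hT, div_le_div_iff₀ hT0' hM0]
    exact h2
  -- the classes
  have hdata : ∀ x ∈ G, ∃ m i : ℕ, m < M ∧ (∀ j, Nx α M x j ≤ Nx α M x m) ∧
      2 ^ i * T ≤ Nx α M x m * M ∧ Nx α M x m * M < 2 ^ (i + 1) * T ∧ i ≤ I := by
    intro x hx
    rw [hG] at hx
    rw [hT, hI]
    exact exists_data (by omega) x (mem_filter.1 hx).2
  choose! mm ii hmm using hdata
  obtain ⟨vv, hvv⟩ : ∃ vv : α → ℕ, vv = fun x => mm x / 2 ^ (J - ii x) := ⟨_, rfl⟩
  obtain ⟨i₀, v₀, hi₀, hv₀, hG'⟩ := hgrp α G I ii vv (fun x hx => by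
    obtain ⟨h1, -, -, -, h5⟩ := hmm x hx
    refine ⟨h5, ?_⟩
    rw [hvv]
    apply Nat.div_lt_of_lt_mul
    rw [← pow_add, show J - ii x + ii x = J by omega, ← hMJ]
    exact h1)
  obtain ⟨G', hG'd⟩ : ∃ G' : Finset α, G' = G.filter fun x => ii x = i₀ ∧ vv x = v₀ := ⟨_, rfl⟩
  rw [← hG'd] at hG'
  have hG'G : ∀ x ∈ G', x ∈ G := fun x hx => by rw [hG'd] at hx; exact (mem_filter.1 hx).1
  have hcardG : (G.card : ℝ) ≤ 2 ^ 17 * κ * G'.card := by
    have h1 : G.card ≤ 2 ^ 17 * κ * G'.card := by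
      refine hG'.trans (Nat.mul_le_mul_right _ ?_)
      rw [pow_succ]
      omega
    exact_mod_cast h1
  have hcardA : (A.card : ℝ) ≤ 6 * (2 ^ 17 * κ * G'.card) := by
    have h1 : (A.card : ℝ) ≤ 6 * G.card := by exact_mod_cast hdensJ
    linarith
  -- the bad pairs
  obtain ⟨Bd, hBd⟩ : ∃ Bd : Finset (α × α), Bd = (G' ×ˢ G').filter fun u => u.1 ≠ u.2 ∧
    c * (M : ℝ) ^ 2 * (T : ℝ) ^ 2 < HH α M u.1 u.2 := ⟨_, rfl⟩
  have hBd1 : (Bd.card : ℝ) * (c * (M : ℝ) ^ 2 * (T : ℝ) ^ 2) ≤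
      (Fintype.card α : ℝ) / 6 * (M : ℝ) ^ 2 * (T : ℝ) ^ 2 := by
    calc (Bd.card : ℝ) * (c * (M : ℝ) ^ 2 * (T : ℝ) ^ 2)
        = ∑ _u ∈ Bd, c * (M : ℝ) ^ 2 * (T : ℝ) ^ 2 := by rw [sum_const, nsmul_eq_mul]
      _ ≤ ∑ u ∈ Bd, HH α M u.1 u.2 := by
          apply sum_le_sum
          intro u hu
          rw [hBd] at hu
          exact (mem_filter.1 hu).2.2.le
      _ ≤ ∑ u : α × α, HH α M u.1 u.2 :=
          sum_le_sum_of_subset_of_nonneg (subset_univ _) fun u _ _ => HH_nonneg hfkg M u.1 u.2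
      _ = ∑ x : α, ∑ y : α, HH α M x y := Fintype.sum_prod_type _
      _ ≤ _ := by rw [hT]; exact hcovJ
  have hBd2 : Bd.card ≤ D * G'.card := by
    have h1 : (Bd.card : ℝ) * c ≤ (Fintype.card α : ℝ) / 6 := by
      have h2 : 0 < (M : ℝ) ^ 2 * (T : ℝ) ^ 2 := by positivity
      refine le_of_mul_le_mul_right ?_ h2
      linarith
    have h3 : (Fintype.card α : ℝ) ≤ κ * A.card := by exact_mod_cast hcard
    have h4 : (Bd.card : ℝ) * c ≤ 2 ^ 17 * (κ : ℝ) ^ 2 * G'.card := by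
      have h5 := mul_le_mul_of_nonneg_left hcardA hκ0.le
      nlinarith
    have h6 : (0 : ℝ) ≤ G'.card := Nat.cast_nonneg _
    have h7 : (Bd.card : ℝ) * c ≤ D * G'.card * c := by
      have h8 := mul_le_mul_of_nonneg_right hDc h6
      nlinarith
    have h8 : (Bd.card : ℝ) ≤ D * G'.card := le_of_mul_le_mul_right h7 hc0
    exact_mod_cast h8
  obtain ⟨S, hSG', hS1, hS2⟩ := ind α G' (fun x y => c * (M : ℝ) ^ 2 * (T : ℝ) ^ 2 < HH α M x y) D
    (fun x y h => by rw [HH_symm]; exact h) (by rw [hBd] at hBd2; exact hBd2)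
  have hSG : ∀ x ∈ S, x ∈ G := fun x hx => hG'G x (hSG' hx)
  -- the masses
  have hunim : ∀ x, Unim (pm α M x) := by
    intro x
    obtain ⟨m, h1, h2⟩ := huni α M x
    refine ⟨m, fun i j hij hj => ?_, fun i j hi hij => ?_⟩
    · have := h1 i j hij hj
      rw [pm, pm]
      gcongr
    · have := h2 i j hi hij
      rw [pm, pm]
      gcongr
  have hr0 : (0 : ℝ) < 2 ^ r := by positivity
  have h2K : 2 * K / 2 ^ r ≤ ε / 4 := by
    rw [div_le_iff₀ hε] at hr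
    rw [div_le_iff₀ hr0]
    linarith
  have hom : ∀ x ∈ S, ∀ y ∈ S, x ≠ y → 11 / 8 * ε ≤ |om M (pm α M x) (pm α M y)| := by
    intro x hx y hy hxy
    have h1 := hpair α M (2 ^ r) (2 ^ (J - r)) x y K c lam hM2
      (by rw [hMJ, ← pow_add]; congr 1; omega) Nat.one_le_two_pow Nat.one_le_two_pow hK1 hc0.le
      (hpmK x (hSG x hx)) (hpmK y (hSG y hy)) (by
        have := hS1 x hx y hy hxy
        rw [← hT]
        exact not_lt.1 this) hlam hlam3
    have h2 := hlimJ x (hGA x (hSG x hx)) y (hGA y (hSG y hy)) hxy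
    push_cast at h1
    obtain ⟨z, hz⟩ : ∃ z, z = ((cnt α M (fun f => f x < f y) : ℝ) - cnt α M (fun f => f y < f x)) /
      (Om α M).card := ⟨_, rfl⟩
    rw [← hz] at h1 h2
    have h3 : |z| ≤ |z - om M (pm α M x) (pm α M y)| + |om M (pm α M x) (pm α M y)| := by
      have := abs_add_le (z - om M (pm α M x) (pm α M y)) (om M (pm α M x) (pm α M y))
      rwa [sub_add_cancel] at this
    linarith
  -- the window
  have hi₀J : i₀ ≤ J := by omega
  obtain ⟨E, hE⟩ : ∃ E, E = 2 ^ (J - i₀) := ⟨_, rfl⟩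
  have hE0 : 0 < E := by rw [hE]; positivity
  have hME : M = 2 ^ i₀ * E := by
    rw [hMJ, hE, ← pow_add]
    congr 1
    omega
  obtain ⟨o, ho⟩ : ∃ o, o = v₀ * E - k * (2 * E) := ⟨_, rfl⟩
  obtain ⟨L, hL⟩ : ∃ L, L = 2 ^ (J - i₀ + q) := ⟨_, rfl⟩
  have hLE : L = E * 2 ^ q := by rw [hL, hE, ← pow_add]
  have hL0 : 0 < L := by rw [hL]; positivity
  have hclass : ∀ x ∈ G', ii x = i₀ ∧ vv x = v₀ := fun x hx => by
    rw [hG'd] at hx
    exact (mem_filter.1 hx).2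
  have hmass : ∀ x ∈ G', 1 - θ ≤ ∑ s ∈ range L, pm α M x (o + s) := by
    intro x hx
    obtain ⟨e1, e2⟩ := hclass x hx
    obtain ⟨h1, h2, h3, h4, h5⟩ := hmm x (hG'G x hx)
    rw [e1] at h3 h4
    have hN0 : 0 < Nx α M x (mm x) := by
      by_contra hcon
      have : Nx α M x (mm x) = 0 := by omega
      rw [this, zero_mul] at h3
      have : 0 < 2 ^ i₀ * T := by positivity
      omega
    have hsum : ∑ i ∈ range M, Nx α M x i = T := by rw [hT]; exact sum_Nx M x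
    have ht := htail (fun j => Nx α M x j) M (mm x) (2 * E) k (fun j hj => Nx_zero M x j hj)
      (fun a b c d => hfour α M x a b c d) h2 hN0 (by
        rw [hsum]
        have h6 : 2 ^ i₀ * (2 * T) ≤ 2 ^ i₀ * (Nx α M x (mm x) * (2 * E)) := by
          calc 2 ^ i₀ * (2 * T) = 2 * (2 ^ i₀ * T) := by ring
            _ ≤ 2 * (Nx α M x (mm x) * M) := Nat.mul_le_mul_left _ h3
            _ = _ := by rw [hME]; ring
        exact Nat.le_of_mul_le_mul_left h6 (by positivity))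
    have hin : ∀ j, ¬ (mm x + k * (2 * E) ≤ j ∨ j + k * (2 * E) ≤ mm x) → o ≤ j ∧ j < o + L := by
      intro j hj
      rw [not_or] at hj
      have h7 : v₀ = mm x / E := by
        rw [← e2, hvv, hE, ← e1]
      have h8 : v₀ * E ≤ mm x := by rw [h7]; exact Nat.div_mul_le_self _ _
      have h9 : mm x < v₀ * E + E := by
        rw [h7]
        exact Nat.lt_div_mul_add hE0
      have h10 : E + 2 * (k * (2 * E)) ≤ L := by
        rw [hLE]
        calc E + 2 * (k * (2 * E)) = E * (1 + 4 * k) := by ring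
          _ ≤ E * 2 ^ q := Nat.mul_le_mul_left _ hq
      omega
    have hm := mass_win (fun j => Nx α M x j) M o L (mm x) (2 * E) k ht hin
    have hsum' : ∑ i ∈ range M, (Nx α M x i : ℝ) = T := by exact_mod_cast hsum
    rw [hsum', ← hθ] at hm
    have h11 : ∑ s ∈ range L, pm α M x (o + s) = (∑ s ∈ range L, (Nx α M x (o + s) : ℝ)) / T := by
      rw [sum_div, hT]
      rfl
    rw [h11, le_div_iff₀ hT0']
    exact hm
  have hpmL : ∀ x ∈ G', ∀ s, pm α M x s * L ≤ 2 ^ (q + 1) := by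
    intro x hx s
    obtain ⟨e1, e2⟩ := hclass x hx
    obtain ⟨h1, h2, h3, h4, h5⟩ := hmm x (hG'G x hx)
    rw [e1] at h3 h4
    have h6 : (Nx α M x s : ℝ) ≤ Nx α M x (mm x) := by exact_mod_cast h2 s
    have h7 : (Nx α M x (mm x) : ℝ) * E ≤ 2 * T := by
      have h8 : 2 ^ i₀ * (Nx α M x (mm x) * E) ≤ 2 ^ i₀ * (2 * T) := by
        calc 2 ^ i₀ * (Nx α M x (mm x) * E) = Nx α M x (mm x) * M := by rw [hME]; ring
          _ ≤ 2 ^ (i₀ + 1) * T := h4.le
          _ = _ := by ring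
      have h9 := Nat.le_of_mul_le_mul_left h8 (by positivity)
      exact_mod_cast h9
    rw [pm, ← hT, hLE, div_mul_eq_mul_div, div_le_iff₀ hT0']
    push_cast
    have h10 : (0 : ℝ) < 2 ^ q := by positivity
    have h11 : (0 : ℝ) < E := by exact_mod_cast hE0
    have h12 : (Nx α M x s : ℝ) * (E * 2 ^ q) ≤ Nx α M x (mm x) * (E * 2 ^ q) :=
      mul_le_mul_of_nonneg_right h6 (by positivity)
    have h13 : (Nx α M x (mm x) : ℝ) * E * 2 ^ q ≤ 2 * T * 2 ^ q :=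
      mul_le_mul_of_nonneg_right h7 h10.le
    rw [pow_succ]
    linarith
  have hW : ∀ x ∈ G', ∀ y ∈ G',
      ((∀ s, 0 ≤ win o L (pm α M x) s) ∧ ∑ s ∈ range L, win o L (pm α M x) s = 1 ∧
        (∀ s, win o L (pm α M x) s ≤ (2 ^ (q + 1) + 1) / L) ∧ Unim (win o L (pm α M x))) ∧
      |om L (win o L (pm α M x)) (win o L (pm α M y)) - om M (pm α M x) (pm α M y)| ≤ 4 * θ := by
    intro x hx y hy
    have hz : ∀ x : α, ∀ s, M ≤ s → pm α M x s = 0 := fun x s hs => by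
      rw [pm, Nx_zero M x s hs]
      simp
    exact hwin M o L (pm α M x) (pm α M y) θ (2 ^ (q + 1)) (by omega) hL0 hθ0 hθ1
      (fun s => by rw [pm]; positivity) (fun s => by rw [pm]; positivity) (hz x) (hz y)
      (sum_pm (by omega) x) (sum_pm (by omega) y) (hunim x) (hunim y) (hmass x hx) (hmass y hy)
      (hpmL x hx) (hpmL y hy)
  have hLc : (L : ℝ) = 2 ^ (J - i₀ + q) := by rw [hL]; push_cast; rfl
  have hK' : (1 : ℝ) ≤ 2 ^ (q + 1) + 1 := by
    have : (0 : ℝ) < 2 ^ (q + 1) := by positivity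
    linarith
  have hfin := hclu α S (fun x => win o L (pm α M x)) (J - i₀ + q) l (2 ^ (q + 1) + 1) ε (by omega)
    hK' hε hε1 (fun x hx => by
      obtain ⟨⟨a1, a2, a3, a4⟩, -⟩ := hW x (hSG' hx) x (hSG' hx)
      rw [← hL, ← hLc]
      exact ⟨a1, a2, a3, a4⟩) (fun x hx y hy hxy => by
      obtain ⟨-, b1⟩ := hW x (hSG' hx) y (hSG' hy)
      have b2 := hom x hx y hy hxy
      rw [← hL]
      obtain ⟨u, hu⟩ : ∃ u, u = om L (win o L (pm α M x)) (win o L (pm α M y)) := ⟨_, rfl⟩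
      obtain ⟨z, hz⟩ : ∃ z, z = om M (pm α M x) (pm α M y) := ⟨_, rfl⟩
      rw [← hu, ← hz] at b1
      rw [← hz] at b2
      show ε ≤ |om L (win o L (pm α M x)) (win o L (pm α M y))|
      rw [← hu]
      have h3 : |z| ≤ |u| + |u - z| := by
        have := abs_sub u (u - z)
        rwa [sub_sub_cancel] at this
      linarith)
  have h1 : (A.card : ℝ) ≤ 12 * 2 ^ 17 * κ * (2 * D + 1) * S.card := by
    have h2 : (G'.card : ℝ) ≤ 2 * (2 * D + 1) * S.card := by exact_mod_cast hS2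
    have h3 := mul_le_mul_of_nonneg_left h2 (show (0 : ℝ) ≤ 6 * (2 ^ 17 * κ) by positivity)
    linarith
  refine h1.trans ?_
  gcongr

end Pool.Agent.H34.BL
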