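import Pool.Agent.H34.BL.Stm

/-! # BL-CORE: assembly of `S_core1` -/

set_option autoImplicit false

open Finset Filter Topology
open scoped Classical

namespace Pool.Agent.H34.BL

open Pool.Agent.H36.BK Pool.Agent.H36.BK.LW Pool.Agent.H13R3.WB Pool.Agent.H931R3.Bal
open Pool.Agent.H36.BK.CoreAux

namespace Core1

variable {α : Type} [Fintype α] [PartialOrder α]

lemma Nx_zero {M : ℕ} (x : α) {j : ℕ} (hj : M ≤ j) : Nx α M x j = 0 := by
  rw [Nx, Pool.Agent.H36.BK.cnt, card_eq_zero]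
  refine eq_empty_of_forall_notMem fun f hf => ?_
  have h := (@mem_filter _ _ (_) _ _).1 hf
  have h1 := (mem_Om.1 h.1).1 x
  have h2 : f x = j := h.2
  omega

lemma exists_mode (M : ℕ) (x : α) : ∃ m, ∀ j, Nx α M x j ≤ Nx α M x m := by
  obtain ⟨m, h1, h2⟩ := H82.BK.uni H82.BK.four α M x
  refine ⟨m, fun j => ?_⟩
  rcases le_total j m with h | h
  · have h3 : (Nx α M x j : ℝ) ≤ Nx α M x m := h1 j m h le_rfl
    exact_mod_cast h3
  · have h3 : (Nx α M x j : ℝ) ≤ Nx α M x m := h2 m j le_rfl h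
    exact_mod_cast h3

lemma unim_pm (M : ℕ) (x : α) : Unim (pm α M x) := by
  obtain ⟨m, h1, h2⟩ := H82.BK.uni H82.BK.four α M x
  refine ⟨m, fun i j hij hj => ?_, fun i j hi hij => ?_⟩
  · have := h1 i j hij hj
    rw [pm, pm]
    gcongr
  · have := h2 i j hi hij
    rw [pm, pm]
    gcongr

lemma mode_data {J I B : ℕ} {x : α} {m : ℕ} (hIJ : I ≤ J) (hIB : I = Nat.log 2 B)
    (hm : ∀ j, Nx α (2 ^ J) x j ≤ Nx α (2 ^ J) x m)
    (hB : Nx α (2 ^ J) x m * 2 ^ J ≤ B * (Om α (2 ^ J)).card) :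
    ∃ i v : ℕ, i ≤ I ∧ v < 2 ^ i ∧ m / 2 ^ (J - i) = v ∧
      2 ^ i * (Om α (2 ^ J)).card ≤ Nx α (2 ^ J) x m * 2 ^ J ∧
      Nx α (2 ^ J) x m * 2 ^ J < 2 ^ (i + 1) * (Om α (2 ^ J)).card := by
  have hT0 : 0 < (Om α (2 ^ J)).card := Om_pos Nat.one_le_two_pow
  have htot := sum_Nx (2 ^ J) x
  obtain ⟨T, hT⟩ : ∃ T, T = (Om α (2 ^ J)).card := ⟨_, rfl⟩
  rw [← hT] at hT0 hB htot ⊢
  have h1 : T ≤ Nx α (2 ^ J) x m * 2 ^ J := by
    rw [← htot]
    calc ∑ j ∈ range (2 ^ J), Nx α (2 ^ J) x j ≤ ∑ _j ∈ range (2 ^ J), Nx α (2 ^ J) x m :=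
          sum_le_sum fun j _ => hm j
      _ = _ := by rw [sum_const, card_range, smul_eq_mul, mul_comm]
  have hNm : 0 < Nx α (2 ^ J) x m := by
    rcases Nat.eq_zero_or_pos (Nx α (2 ^ J) x m) with h | h
    · rw [h, zero_mul] at h1
      omega
    · exact h
  have hmJ : m < 2 ^ J := by
    by_contra h
    rw [Nx_zero x (not_lt.1 h)] at hNm
    omega
  obtain ⟨a, ha⟩ : ∃ a, a = Nx α (2 ^ J) x m * 2 ^ J / T := ⟨_, rfl⟩
  have ha1 : 1 ≤ a := by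
    rw [ha, Nat.one_le_div_iff hT0]
    exact h1
  have haB : a ≤ B := by
    rw [ha]
    exact Nat.div_le_of_le_mul (by rw [mul_comm T B]; exact hB)
  have h2 : 2 ^ Nat.log 2 a ≤ a := Nat.pow_log_le_self 2 (by omega)
  have h3 : a < 2 ^ (Nat.log 2 a + 1) := Nat.lt_pow_succ_log_self one_lt_two a
  have hi : Nat.log 2 a ≤ I := by
    rw [hIB]
    exact Nat.log_mono_right haB
  refine ⟨Nat.log 2 a, m / 2 ^ (J - Nat.log 2 a), hi, ?_, rfl, ?_, ?_⟩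
  · refine Nat.div_lt_of_lt_mul ?_
    rw [← pow_add]
    have : J - Nat.log 2 a + Nat.log 2 a = J := by omega
    rwa [this]
  · refine (Nat.mul_le_mul_right T h2).trans ?_
    rw [ha]
    exact Nat.div_mul_le_self _ _
  · have h4 : Nx α (2 ^ J) x m * 2 ^ J < (a + 1) * T := by
      rw [ha]
      exact (Nat.div_lt_iff_lt_mul hT0).1 (Nat.lt_succ_self _)
    exact h4.trans_le (Nat.mul_le_mul_right T h3)

lemma window (htail : S_tail1) {J i v k q : ℕ} {x : α} {m : ℕ} (hi : i ≤ J)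
    (hm : ∀ j, Nx α (2 ^ J) x j ≤ Nx α (2 ^ J) x m)
    (h1 : 2 ^ i * (Om α (2 ^ J)).card ≤ Nx α (2 ^ J) x m * 2 ^ J)
    (h2 : Nx α (2 ^ J) x m * 2 ^ J < 2 ^ (i + 1) * (Om α (2 ^ J)).card)
    (hv : m / 2 ^ (J - i) = v) (hq : 1 + 4 * k ≤ 2 ^ q) :
    1 - 2 / 2 ^ k ≤ ∑ s ∈ range (2 ^ (J - i + q)),
      pm α (2 ^ J) x ((v * 2 ^ (J - i) - k * 2 ^ (J + 1 - i)) + s) ∧
    ∀ s, pm α (2 ^ J) x s * ((2 ^ (J - i + q) : ℕ) : ℝ) ≤ 2 ^ (q + 1) := by
  have hT0 : 0 < (Om α (2 ^ J)).card := Om_pos Nat.one_le_two_pow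
  have htot := sum_Nx (2 ^ J) x
  have hpm1 : ∑ j ∈ range (2 ^ J), pm α (2 ^ J) x j = 1 := sum_pm Nat.one_le_two_pow x
  obtain ⟨T, hT⟩ : ∃ T, T = (Om α (2 ^ J)).card := ⟨_, rfl⟩
  have hpm : ∀ j, pm α (2 ^ J) x j = (Nx α (2 ^ J) x j : ℝ) / T := fun j => by rw [pm, hT]
  rw [← hT] at hT0 h1 h2 htot
  have hT0' : (0 : ℝ) < T := by exact_mod_cast hT0
  have hNm : 0 < Nx α (2 ^ J) x m := by
    rcases Nat.eq_zero_or_pos (Nx α (2 ^ J) x m) with h | h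
    · rw [h, zero_mul] at h1
      have : 0 < 2 ^ i * T := by positivity
      omega
    · exact h
  have hpow : 2 ^ (J - i) * 2 ^ i = 2 ^ J := by
    rw [← pow_add]
    congr 1
    omega
  have hρ : 2 ^ (J + 1 - i) = 2 * 2 ^ (J - i) := by
    rw [← pow_succ']
    congr 1
    omega
  have h3 : 2 * ∑ j ∈ range (2 ^ J), Nx α (2 ^ J) x j ≤ Nx α (2 ^ J) x m * 2 ^ (J + 1 - i) := by
    rw [htot, hρ]
    refine Nat.le_of_mul_le_mul_right (?_ : _ * 2 ^ i ≤ _ * 2 ^ i) (by positivity)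
    calc 2 * T * 2 ^ i = 2 * (2 ^ i * T) := by ring
      _ ≤ 2 * (Nx α (2 ^ J) x m * 2 ^ J) := Nat.mul_le_mul_left 2 h1
      _ = Nx α (2 ^ J) x m * (2 * 2 ^ (J - i)) * 2 ^ i := by rw [← hpow]; ring
  have ht := htail (Nx α (2 ^ J) x) (2 ^ J) m (2 ^ (J + 1 - i)) k (fun j hj => Nx_zero x hj)
    (fun a b c d hab hac he => H82.BK.four α (2 ^ J) x a b c d hab hac he) hm hNm h3
  rw [htot] at ht
  refine ⟨?_, fun s => ?_⟩
  · obtain ⟨o, ho⟩ : ∃ o, o = v * 2 ^ (J - i) - k * 2 ^ (J + 1 - i) := ⟨_, rfl⟩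
    obtain ⟨L, hL⟩ : ∃ L, L = 2 ^ (J - i + q) := ⟨_, rfl⟩
    rw [← ho, ← hL]
    have hcov : ∀ j, ¬ (m + k * 2 ^ (J + 1 - i) ≤ j ∨ j + k * 2 ^ (J + 1 - i) ≤ m) →
        o ≤ j ∧ j < o + L := by
      intro j hj
      have hb : 0 < 2 ^ (J - i) := by positivity
      have hmv1 : v * 2 ^ (J - i) ≤ m := by
        rw [← hv]
        exact Nat.div_mul_le_self _ _
      have hmv2 : m < v * 2 ^ (J - i) + 2 ^ (J - i) := by
        have := Nat.lt_div_mul_add (a := m) hb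
        rwa [hv] at this
      have hLb : 2 ^ (J - i) + 4 * (k * 2 ^ (J - i)) ≤ L := by
        rw [hL, pow_add]
        calc 2 ^ (J - i) + 4 * (k * 2 ^ (J - i)) = 2 ^ (J - i) * (1 + 4 * k) := by ring
          _ ≤ 2 ^ (J - i) * 2 ^ q := Nat.mul_le_mul_left _ hq
      have hkρ : k * 2 ^ (J + 1 - i) = 2 * (k * 2 ^ (J - i)) := by
        rw [hρ]
        ring
      rw [hkρ] at hj ho
      obtain ⟨p, hp⟩ : ∃ p, p = v * 2 ^ (J - i) := ⟨_, rfl⟩
      obtain ⟨w, hw⟩ : ∃ w, w = k * 2 ^ (J - i) := ⟨_, rfl⟩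
      obtain ⟨b, hbb⟩ : ∃ b, b = 2 ^ (J - i) := ⟨_, rfl⟩
      rw [← hp] at hmv1 hmv2 ho
      rw [← hw] at hj ho hLb
      rw [← hbb] at hmv2 hLb
      omega
    have e1 : ∑ s ∈ range L, pm α (2 ^ J) x (o + s) =
        ∑ j ∈ Ico o (o + L), pm α (2 ^ J) x j := by
      rw [sum_Ico_eq_sum_range]
      congr 2
      omega
    have hpos : ∀ j, 0 ≤ pm α (2 ^ J) x j := fun j => by
      rw [hpm]
      positivity
    have e2 := sum_filter_add_sum_filter_not (range (2 ^ J))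
      (fun j => m + k * 2 ^ (J + 1 - i) ≤ j ∨ j + k * 2 ^ (J + 1 - i) ≤ m) (pm α (2 ^ J) x)
    rw [hpm1] at e2
    have e3 : ∑ j ∈ (range (2 ^ J)).filter (fun j =>
        ¬ (m + k * 2 ^ (J + 1 - i) ≤ j ∨ j + k * 2 ^ (J + 1 - i) ≤ m)), pm α (2 ^ J) x j ≤
        ∑ j ∈ Ico o (o + L), pm α (2 ^ J) x j := by
      refine sum_le_sum_of_subset_of_nonneg (fun j hj => ?_) fun j _ _ => hpos j
      rw [mem_filter] at hj
      rw [mem_Ico]
      exact hcov j hj.2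
    have e4 : ∑ j ∈ (range (2 ^ J)).filter (fun j =>
        m + k * 2 ^ (J + 1 - i) ≤ j ∨ j + k * 2 ^ (J + 1 - i) ≤ m), pm α (2 ^ J) x j ≤ 2 / 2 ^ k := by
      have : ∀ s : Finset ℕ, ∑ j ∈ s, pm α (2 ^ J) x j =
          ((∑ j ∈ s, Nx α (2 ^ J) x j : ℕ) : ℝ) / T := by
        intro s
        rw [Nat.cast_sum, sum_div]
        exact sum_congr rfl fun j _ => hpm j
      rw [this, div_le_div_iff₀ hT0' (by positivity)]
      have ht' : (2 : ℝ) ^ k * ((∑ j ∈ (range (2 ^ J)).filter (fun j =>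
        m + k * 2 ^ (J + 1 - i) ≤ j ∨ j + k * 2 ^ (J + 1 - i) ≤ m), Nx α (2 ^ J) x j : ℕ) : ℝ) ≤
          2 * T := by exact_mod_cast ht
      linarith
    rw [e1]
    linarith
  · rw [hpm, div_mul_eq_mul_div, div_le_iff₀ hT0']
    have h4 : Nx α (2 ^ J) x s * 2 ^ (J - i + q) ≤ 2 ^ (q + 1) * T := by
      refine Nat.le_of_mul_le_mul_right (?_ : _ * 2 ^ i ≤ _ * 2 ^ i) (by positivity)
      calc Nx α (2 ^ J) x s * 2 ^ (J - i + q) * 2 ^ i
          = Nx α (2 ^ J) x s * 2 ^ J * 2 ^ q := by rw [pow_add, ← hpow]; ring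
        _ ≤ Nx α (2 ^ J) x m * 2 ^ J * 2 ^ q := by
            have := hm s
            gcongr
        _ ≤ 2 ^ (i + 1) * T * 2 ^ q := Nat.mul_le_mul_right _ h2.le
        _ = 2 ^ (q + 1) * T * 2 ^ i := by rw [pow_succ, pow_succ]; ring
    exact_mod_cast h4

end Core1

open Core1 in
/-- BL-CORE -/
theorem core1 : S_dens1 → S_tail1 → S_grp1 → S_win1 → S_core1 := by
  intro hdens htail hgrp hwin α _ _ κ A ε lam c l D r k q hκ hA hAne hcard hε hε1 hD hlam hc0 hr hrl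
    hlam3 hDc hk hq hprob
  have hcov : S_cov := cov (var iid img)
  have hfkg : S_fkg := H82.BK.fkg
  have hpair : S_pair := pair H82.BK.fkg (near H82.BK.hmax)
  have hclu : S_clu := clust tree bigs' norm key
  have hlim0 : S_lim := lim
  have hind : S_ind := ind
  obtain ⟨K, hK⟩ : ∃ K : ℝ, K = 2 ^ 16 * (κ : ℝ) := ⟨_, rfl⟩
  rw [← hK] at hr hlam3
  have hκ0 : (1 : ℝ) ≤ κ := by exact_mod_cast hκ
  have hK1 : 1 ≤ K := by
    rw [hK]
    nlinarith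
  have hD0 : (0 : ℝ) < D := by exact_mod_cast hD
  obtain ⟨I, hI⟩ : ∃ I, I = Nat.log 2 (2 ^ 16 * κ) := ⟨_, rfl⟩
  have hI2 : 2 ^ (I + 1) ≤ 2 ^ 17 * κ := by
    have h1 : 2 ^ I ≤ 2 ^ 16 * κ := by
      rw [hI]
      exact Nat.pow_log_le_self 2 (by positivity)
    rw [pow_succ]
    omega
  -- the choice of `J`
  have hlim' : ∀ᶠ M : ℕ in atTop, ∀ x ∈ A, ∀ y ∈ A, x ≠ y → 2 * ε - ε / 8 <
      |((cnt α M (fun f => f x < f y) : ℝ) - cnt α M (fun f => f y < f x)) / (Om α M).card| := by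
    rw [Filter.eventually_all_finset]
    intro x hx
    rw [Filter.eventually_all_finset]
    intro y hy
    by_cases hxy : x = y
    · exact Eventually.of_forall fun M h => absurd hxy h
    · have h0 : 2 * ε - ε / 8 < |prob α x y - prob α y x| := by
        have := hprob x hx y hy hxy
        linarith
      have h1 := (hlim0 α x y hxy).abs.eventually_const_lt h0
      filter_upwards [h1] with M hM _
      exact hM
  have hev := (hcov α).and ((hdens α κ A hA hAne hcard).and (hlim'.and (eventually_ge_atTop 2)))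
  have h2J : Tendsto (fun J : ℕ => 2 ^ J) atTop atTop :=
    tendsto_pow_atTop_atTop_of_one_lt (by norm_num)
  obtain ⟨J, ⟨hcovJ, hdensJ, hlimJ, hM2⟩, hJl, hJr⟩ := ((h2J.eventually hev).and
    ((eventually_ge_atTop (2 * l + I)).and (eventually_ge_atTop r))).exists
  obtain ⟨M, hMJ⟩ : ∃ M : ℕ, M = 2 ^ J := ⟨_, rfl⟩
  rw [← hMJ] at hcovJ hdensJ hlimJ hM2
  have hM0 : (0 : ℝ) < M := by
    have : 0 < M := by omega
    exact_mod_cast this
  have hMc : (M : ℝ) = 2 ^ J := by rw [hMJ]; push_cast; rfl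
  obtain ⟨T, hT⟩ : ∃ T, T = (Om α M).card := ⟨_, rfl⟩
  have hT0 : 0 < T := by rw [hT]; exact Om_pos (by omega)
  have hT0' : (0 : ℝ) < T := by exact_mod_cast hT0
  obtain ⟨G, hG⟩ : ∃ G : Finset α, G = A.filter fun x => ∀ j, Nx α M x j * M ≤
    2 ^ 16 * κ * (Om α M).card := ⟨_, rfl⟩
  rw [← hG] at hdensJ
  have hGA : ∀ x ∈ G, x ∈ A := fun x hx => by rw [hG] at hx; exact (mem_filter.1 hx).1
  have hGN : ∀ x ∈ G, ∀ j, Nx α M x j * M ≤ 2 ^ 16 * κ * (Om α M).card := fun x hx => by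
    rw [hG] at hx
    exact (mem_filter.1 hx).2
  have hpmK : ∀ x ∈ G, ∀ j, pm α M x j ≤ K / M := by
    intro x hx j
    have h1 := hGN x hx j
    have h2 : (Nx α M x j : ℝ) * M ≤ K * T := by rw [hK, hT]; exact_mod_cast h1
    rw [pm, ← hT, div_le_div_iff₀ hT0' hM0]
    exact h2
  -- the classes
  have hdata : ∀ x, ∃ m i v : ℕ, x ∈ G → (∀ j, Nx α (2 ^ J) x j ≤ Nx α (2 ^ J) x m) ∧
      i ≤ I ∧ v < 2 ^ i ∧ m / 2 ^ (J - i) = v ∧
      2 ^ i * (Om α (2 ^ J)).card ≤ Nx α (2 ^ J) x m * 2 ^ J ∧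
      Nx α (2 ^ J) x m * 2 ^ J < 2 ^ (i + 1) * (Om α (2 ^ J)).card := by
    intro x
    by_cases hx : x ∈ G
    · obtain ⟨m, hm⟩ := exists_mode (2 ^ J) x
      have h1 := hGN x hx m
      rw [hMJ] at h1
      obtain ⟨i, v, h2, h3, h4, h5, h6⟩ := mode_data (I := I) (by omega) hI hm h1
      exact ⟨m, i, v, fun _ => ⟨hm, h2, h3, h4, h5, h6⟩⟩
    · exact ⟨0, 0, 0, fun h => absurd h hx⟩
  choose m i v hd using hdata
  obtain ⟨i₀, v₀, hi₀, hv₀, hcardG⟩ := hgrp α G I i v fun x hx =>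
    ⟨(hd x hx).2.1, (hd x hx).2.2.1⟩
  obtain ⟨G', hG'⟩ : ∃ G' : Finset α, G' = G.filter fun x => i x = i₀ ∧ v x = v₀ := ⟨_, rfl⟩
  rw [← hG'] at hcardG
  have hG'G : ∀ x ∈ G', x ∈ G := fun x hx => by rw [hG'] at hx; exact (mem_filter.1 hx).1
  have hcardG2 : G.card ≤ 2 ^ 17 * κ * G'.card := hcardG.trans (Nat.mul_le_mul_right _ hI2)
  -- the window
  obtain ⟨o, ho⟩ : ∃ o, o = v₀ * 2 ^ (J - i₀) - k * 2 ^ (J + 1 - i₀) := ⟨_, rfl⟩
  obtain ⟨L, hL⟩ : ∃ L, L = 2 ^ (J - i₀ + q) := ⟨_, rfl⟩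
  have hwd : ∀ x ∈ G', 1 - 2 / 2 ^ k ≤ ∑ s ∈ range L, pm α M x (o + s) ∧
      ∀ s, pm α M x s * (L : ℝ) ≤ 2 ^ (q + 1) := by
    intro x hx
    have hx' := hx
    rw [hG'] at hx'
    obtain ⟨hxG, hix, hvx⟩ := mem_filter.1 hx'
    obtain ⟨d1, d2, d3, d4, d5, d6⟩ := hd x hxG
    rw [hix] at d2 d3 d4 d5 d6
    rw [hvx] at d4
    rw [hMJ, hL, ho]
    exact window htail (by omega) d1 d5 d6 d4 hq
  -- the bad pairs
  obtain ⟨Bd, hBd⟩ : ∃ Bd : Finset (α × α), Bd = (G' ×ˢ G').filter fun u => u.1 ≠ u.2 ∧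
    c * (M : ℝ) ^ 2 * (T : ℝ) ^ 2 < HH α M u.1 u.2 := ⟨_, rfl⟩
  have hBd1 : (Bd.card : ℝ) * (c * (M : ℝ) ^ 2 * (T : ℝ) ^ 2) ≤
      (Fintype.card α : ℝ) / 6 * (M : ℝ) ^ 2 * (T : ℝ) ^ 2 := by
    calc (Bd.card : ℝ) * (c * (M : ℝ) ^ 2 * (T : ℝ) ^ 2)
        = ∑ _u ∈ Bd, c * (M : ℝ) ^ 2 * (T : ℝ) ^ 2 := by rw [sum_const, nsmul_eq_mul]
      _ ≤ ∑ u ∈ Bd, HH α M u.1 u.2 := by
          apply sum_le_sum
          intro u hu
          rw [hBd] at hu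
          exact (mem_filter.1 hu).2.2.le
      _ ≤ ∑ u : α × α, HH α M u.1 u.2 :=
          sum_le_sum_of_subset_of_nonneg (subset_univ _) fun u _ _ => HH_nonneg hfkg M u.1 u.2
      _ = ∑ x : α, ∑ y : α, HH α M x y := Fintype.sum_prod_type _
      _ ≤ _ := by rw [hT]; exact hcovJ
  have hBd2 : Bd.card ≤ D * G'.card := by
    have h1 : (Bd.card : ℝ) * c ≤ (Fintype.card α : ℝ) / 6 := by
      have h2 : 0 < (M : ℝ) ^ 2 * (T : ℝ) ^ 2 := by positivity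
      refine le_of_mul_le_mul_right ?_ h2
      linarith
    have h3 : (Fintype.card α : ℝ) ≤ κ * A.card := by exact_mod_cast hcard
    have h4 : (A.card : ℝ) ≤ 6 * G.card := by exact_mod_cast hdensJ
    have h5 : (G.card : ℝ) ≤ 2 ^ 17 * κ * G'.card := by exact_mod_cast hcardG2
    have h6 : (Fintype.card α : ℝ) ≤ 6 * (2 ^ 17 * (κ : ℝ) ^ 2) * G'.card := by
      calc (Fintype.card α : ℝ) ≤ κ * A.card := h3
        _ ≤ κ * (6 * (2 ^ 17 * κ * G'.card)) := by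
            refine mul_le_mul_of_nonneg_left ?_ (by positivity)
            linarith
        _ = _ := by ring
    have h7 : (Bd.card : ℝ) * c ≤ D * G'.card * c := by
      calc (Bd.card : ℝ) * c ≤ (Fintype.card α : ℝ) / 6 := h1
        _ ≤ (2 ^ 17 * (κ : ℝ) ^ 2) * G'.card := by linarith
        _ ≤ (D * c) * G'.card := mul_le_mul_of_nonneg_right hDc (by positivity)
        _ = _ := by ring
    have h8 : (Bd.card : ℝ) ≤ D * G'.card := le_of_mul_le_mul_right h7 hc0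
    exact_mod_cast h8
  obtain ⟨S, hSG, hS1, hS2⟩ := hind α G' (fun x y => c * (M : ℝ) ^ 2 * (T : ℝ) ^ 2 < HH α M x y) D
    (fun x y h => by rw [HH_symm]; exact h) (by rw [hBd] at hBd2; exact hBd2)
  -- the masses
  have hr0 : (0 : ℝ) < 2 ^ r := by positivity
  have h2K : 2 * K / 2 ^ r ≤ ε / 4 := by
    rw [div_le_iff₀ hε] at hr
    rw [div_le_iff₀ hr0]
    linarith
  have hom : ∀ x ∈ S, ∀ y ∈ S, x ≠ y → 11 / 8 * ε ≤ |om M (pm α M x) (pm α M y)| := by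
    intro x hx y hy hxy
    have h1 := hpair α M (2 ^ r) (2 ^ (J - r)) x y K c lam hM2
      (by rw [hMJ, ← pow_add]; congr 1; omega) Nat.one_le_two_pow Nat.one_le_two_pow hK1 hc0.le
      (hpmK x (hG'G x (hSG hx))) (hpmK y (hG'G y (hSG hy))) (by
        have := hS1 x hx y hy hxy
        rw [← hT]
        exact not_lt.1 this) hlam hlam3
    have h2 := hlimJ x (hGA x (hG'G x (hSG hx))) y (hGA y (hG'G y (hSG hy))) hxy
    push_cast at h1
    obtain ⟨z, hz⟩ : ∃ z, z = ((cnt α M (fun f => f x < f y) : ℝ) - cnt α M (fun f => f y < f x)) /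
      (Om α M).card := ⟨_, rfl⟩
    rw [← hz] at h1 h2
    have h3 : |z| ≤ |z - om M (pm α M x) (pm α M y)| + |om M (pm α M x) (pm α M y)| := by
      have := abs_add_le (z - om M (pm α M x) (pm α M y)) (om M (pm α M x) (pm α M y))
      rwa [sub_add_cancel] at this
    linarith
  -- the windows
  have hk0 : (0 : ℝ) < 2 ^ k := by positivity
  have hθ : (2 : ℝ) / 2 ^ k ≤ ε / 32 := by
    rw [div_le_iff₀ hε] at hk
    rw [div_le_iff₀ hk0]
    linarith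
  have hL1 : 1 ≤ L := by rw [hL]; exact Nat.one_le_two_pow
  have hpos : ∀ x s, 0 ≤ pm α M x s := fun x s => by
    rw [pm]
    positivity
  have hvan : ∀ x s, M ≤ s → pm α M x s = 0 := fun x s hs => by
    rw [pm, Nx_zero x hs]
    simp
  have hw : ∀ x ∈ S, ∀ y ∈ S, ((∀ s, 0 ≤ win o L (pm α M x) s) ∧
      ∑ s ∈ range L, win o L (pm α M x) s = 1 ∧
      (∀ s, win o L (pm α M x) s ≤ (2 ^ (q + 1) + 1) / L) ∧ Unim (win o L (pm α M x))) ∧
      |om L (win o L (pm α M x)) (win o L (pm α M y)) - om M (pm α M x) (pm α M y)| ≤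
        4 * (2 / 2 ^ k) := by
    intro x hx y hy
    exact hwin M o L (pm α M x) (pm α M y) (2 / 2 ^ k) (2 ^ (q + 1)) (by omega) hL1 (by positivity)
      (by linarith) (hpos x) (hpos y) (hvan x) (hvan y) (sum_pm (by omega) x)
      (sum_pm (by omega) y) (unim_pm M x) (unim_pm M y) (hwd x (hSG hx)).1 (hwd y (hSG hy)).1
      (hwd x (hSG hx)).2 (hwd y (hSG hy)).2
  have hLc : (L : ℝ) = 2 ^ (J - i₀ + q) := by rw [hL]; push_cast; rfl
  have hfin := hclu α S (fun x => win o L (pm α M x)) (J - i₀ + q) l (2 ^ (q + 1) + 1) ε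
    (by omega) (by
      have : (0 : ℝ) < 2 ^ (q + 1) := by positivity
      linarith) hε hε1 (fun x hx => ?_) ?_
  · have h1 : (A.card : ℝ) ≤ 12 * 2 ^ 17 * κ * (2 * D + 1) * S.card := by
      have h2 : A.card ≤ 6 * (2 ^ 17 * κ * (2 * (2 * D + 1) * S.card)) :=
        hdensJ.trans (Nat.mul_le_mul_left 6 (hcardG2.trans (Nat.mul_le_mul_left _ hS2)))
      have h3 : (A.card : ℝ) ≤ 6 * (2 ^ 17 * κ * (2 * (2 * D + 1) * S.card)) := by exact_mod_cast h2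
      linarith
    refine h1.trans ?_
    exact mul_le_mul_of_nonneg_left hfin (by positivity)
  · obtain ⟨⟨w1, w2, w3, w4⟩, -⟩ := hw x hx x hx
    refine ⟨w1, ?_, fun s => ?_, w4⟩
    · rw [← hL]
      exact w2
    · rw [← hLc]
      exact w3 s
  · intro x hx y hy hxy
    have h1 := (hw x hx y hy).2
    have h2 := hom x hx y hy hxy
    rw [← hL]
    have h3 : |om M (pm α M x) (pm α M y)| ≤
        |om L (win o L (pm α M x)) (win o L (pm α M y))| +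
          |om L (win o L (pm α M x)) (win o L (pm α M y)) - om M (pm α M x) (pm α M y)| := by
      have := abs_sub (om L (win o L (pm α M x)) (win o L (pm α M y)))
        (om L (win o L (pm α M x)) (win o L (pm α M y)) - om M (pm α M x) (pm α M y))
      rwa [sub_sub_cancel] at this
    show ε ≤ |om L (win o L (pm α M x)) (win o L (pm α M y))|
    linarith

end Pool.Agent.H34.BL
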