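import Pool.Agent.H34.BL.Stm
import Pool.Agent.H36.BP.T.FEW
import Pool.Agent.H36.BP.T.DENS
import Pool.Agent.H36.BP.T.OM

set_option autoImplicit false

open Finset Filter Topology
open scoped Classical

namespace Pool.Agent.H34.BL

open Pool.Agent.H36.BK Pool.Agent.H36.BK.LW Pool.Agent.H13R3.WB Pool.Agent.H931R3.Bal Pool.Agent

/-- BL-DENS from project BP of helper36 -/
theorem dens0 : S_dens1 := by
  intro α _ _ κ A hA hne hcard
  have hκ : 1 ≤ κ := by
    rcases Nat.eq_zero_or_pos κ with h | h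
    · exfalso
      rw [h, Nat.zero_mul] at hcard
      obtain ⟨a, ha⟩ := hne
      have : 0 < Fintype.card α := Fintype.card_pos_iff.2 ⟨a⟩
      omega
    · exact h
  have h := (Pool.Agent.H36.BP.T.dens H82.BK.four Pool.Agent.H36.BK.spread H82.BK.lc
      (Pool.Agent.H36.BP.T.few Pool.Agent.H36.BP.T.om)) α κ A hκ hA hne hcard
  filter_upwards [h] with M hM
  refine hM.trans (Nat.mul_le_mul_left 6 (card_le_card ?_))
  intro x hx
  rw [mem_filter] at hx ⊢
  refine ⟨hx.1, fun j => (hx.2 j).trans ?_⟩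
  gcongr
  · norm_num
  · norm_num

end Pool.Agent.H34.BL
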