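import Pool.Agent.H34.BL.Stm

/-! # BL-FEW (helper82), adapted from `Pool/Agent/H36/BK/FEW.lean` -/

set_option autoImplicit false

open Finset Filter Topology
open scoped Classical

namespace Pool.Agent.H34.BL

open Pool.Agent.H36.BK Pool.Agent.H36.BK.LW Pool.Agent.H13R3.WB Pool.Agent.H931R3.Bal

/-- stretching the grid by `1 + 1/κ` -/
theorem Om_stretch (α : Type) [Fintype α] [PartialOrder α] {κ : ℕ} (hκ : 1 ≤ κ) :
    ∀ᶠ M : ℕ in atTop, ((Om α (M + M / κ)).card : ℝ) ≤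
      2 * (1 + 1 / (κ : ℝ)) ^ Fintype.card α * (Om α M).card := by
  set n := Fintype.card α with hn
  have h1 := tendsto_Om (α := α)
  have hd : Tendsto (fun M : ℕ => M + M / κ) atTop atTop :=
    tendsto_atTop_mono (fun M => Nat.le_add_right M (M / κ)) tendsto_id
  have h2 := h1.comp hd
  set c : ℝ := (eN α : ℝ) * (1 / (Fintype.card α).factorial) with hc
  have hcpos : 0 < c := by
    have : (0 : ℝ) < eN α := by exact_mod_cast eN_pos α
    have h3 : (0 : ℝ) < (Fintype.card α).factorial := by exact_mod_cast Nat.factorial_pos _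
    positivity
  have h3 : ∀ᶠ M : ℕ in atTop, c * (3 / 4) < ((Om α M).card : ℝ) / (M : ℝ) ^ Fintype.card α :=
    h1.eventually_const_lt (by linarith)
  have h4 : ∀ᶠ M : ℕ in atTop,
      ((Om α (M + M / κ)).card : ℝ) / ((M + M / κ : ℕ) : ℝ) ^ Fintype.card α < c * (5 / 4) :=
    h2.eventually_lt_const (by linarith)
  filter_upwards [h3, h4, eventually_gt_atTop 0] with M h5 h6 hM
  have hM' : (0 : ℝ) < M := by exact_mod_cast hM
  have hκ0 : (0 : ℝ) < κ := by exact_mod_cast hκ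
  have hMM : (0 : ℝ) < ((M + M / κ : ℕ) : ℝ) := by
    have : 0 < M + M / κ := Nat.add_pos_left hM _
    exact_mod_cast this
  rw [lt_div_iff₀ (by positivity)] at h5
  rw [div_lt_iff₀ (by positivity)] at h6
  have h7 : ((M + M / κ : ℕ) : ℝ) ^ n ≤ (1 + 1 / (κ : ℝ)) ^ n * (M : ℝ) ^ n := by
    rw [← mul_pow]
    refine pow_le_pow_left₀ hMM.le ?_ n
    push_cast
    have h8 : ((M / κ : ℕ) : ℝ) ≤ (M : ℝ) / κ := Nat.cast_div_le
    calc (M : ℝ) + ((M / κ : ℕ) : ℝ) ≤ M + M / κ := by linarith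
      _ = _ := by ring
  rw [← hn] at h5 h6
  obtain ⟨K, hK⟩ : ∃ K : ℝ, K = (1 + 1 / (κ : ℝ)) ^ n := ⟨_, rfl⟩
  have hK0 : 0 < K := by rw [hK]; positivity
  rw [← hK] at h7 ⊢
  have h9 : (0 : ℝ) < (M : ℝ) ^ n := by positivity
  calc ((Om α (M + M / κ)).card : ℝ) ≤ c * (5 / 4) * ((M + M / κ : ℕ) : ℝ) ^ n := h6.le
    _ ≤ c * (5 / 4) * (K * (M : ℝ) ^ n) := by gcongr
    _ ≤ 2 * K * (c * (3 / 4) * (M : ℝ) ^ n) := by
        have : 0 < c * (K * (M : ℝ) ^ n) := by positivity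
        nlinarith
    _ ≤ 2 * K * (Om α M).card := mul_le_mul_of_nonneg_left h5.le (by positivity)

theorem few1 : S_few1 := by
  intro α _ _ κ A hA hne hcard
  have hw : 0 < A.card := hne.card_pos
  have hκ : 1 ≤ κ := by
    by_contra hcon
    have h0 : κ = 0 := by omega
    have h1 : A.card ≤ Fintype.card α := Finset.card_le_univ A
    rw [h0, zero_mul] at hcard
    omega
  filter_upwards [Om_stretch α hκ, eventually_ge_atTop (512 * κ)] with M h1 hM
  have hBpos : 0 < 512 * κ := by omega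
  obtain ⟨t, ht⟩ : ∃ t : ℕ, t = M / (512 * κ) := ⟨_, rfl⟩
  have htpos : 0 < t := by rw [ht]; exact Nat.div_pos hM hBpos
  obtain ⟨m, hm⟩ : ∃ m : ℕ, m = M / κ := ⟨_, rfl⟩
  obtain ⟨k, hk⟩ : ∃ k : ℕ, k = (A.card + 1) / 2 := ⟨_, rfl⟩
  have hBt : 512 * t ≤ m := by
    rw [hm, Nat.le_div_iff_mul_le hκ, ht]
    calc 512 * (M / (512 * κ)) * κ = 512 * κ * (M / (512 * κ)) := by ring
      _ ≤ M := Nat.mul_div_le M _
  set E := (Om α M).filter fun f =>
    A.card ≤ 2 * (A.filter fun x => len M f x ≤ M / (512 * κ)).card with hE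
  have h2 := shift_count (M := M) (m := m) (t := t) (k := k) hA E (filter_subset _ _) (by
    intro f hf
    have := (mem_filter.1 hf).2
    rw [← ht] at this
    omega)
  have h3 : E.card * 484 ^ k ≤ (Om α (M + m)).card := by
    have htk : 0 < t ^ k := by positivity
    refine Nat.le_of_mul_le_mul_left ?_ htk
    calc t ^ k * (E.card * 484 ^ k) = E.card * (484 * t) ^ k := by rw [mul_pow]; ring
      _ ≤ E.card * (t + m) ^ k :=
          Nat.mul_le_mul_left _ (Nat.pow_le_pow_left (by omega) k)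
      _ ≤ _ := h2
  have h4 : 22 ^ A.card ≤ 484 ^ k := by
    have h5 : (484 : ℕ) = 22 ^ 2 := by norm_num
    rw [h5, ← pow_mul]
    exact Nat.pow_le_pow_right (by norm_num) (by omega)
  have h6 : (E.card : ℝ) * 22 ^ A.card ≤ 2 * (1 + 1 / (κ : ℝ)) ^ Fintype.card α * (Om α M).card := by
    have h7 : ((E.card * 22 ^ A.card : ℕ) : ℝ) ≤ ((Om α (M + m)).card : ℝ) := by
      exact_mod_cast (Nat.mul_le_mul_left _ h4).trans h3
    push_cast at h7
    rw [hm] at h7
    exact h7.trans h1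
  have hκ0 : (0 : ℝ) < κ := by exact_mod_cast hκ
  have h8 : (1 + 1 / (κ : ℝ)) ^ Fintype.card α ≤ (11 / 4 : ℝ) ^ A.card := by
    have g1 : 1 + 1 / (κ : ℝ) ≤ Real.exp (1 / κ) := by
      have := Real.add_one_le_exp (1 / (κ : ℝ)); linarith
    have g2 : (Fintype.card α : ℝ) ≤ κ * A.card := by exact_mod_cast hcard
    calc (1 + 1 / (κ : ℝ)) ^ Fintype.card α ≤ (Real.exp (1 / κ)) ^ Fintype.card α :=
          pow_le_pow_left₀ (by positivity) g1 _
      _ = Real.exp (Fintype.card α * (1 / κ)) := (Real.exp_nat_mul _ _).symm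
      _ ≤ Real.exp (A.card * 1) := by
          rw [Real.exp_le_exp]
          calc (Fintype.card α : ℝ) * (1 / κ) ≤ κ * A.card * (1 / κ) := by gcongr
            _ = A.card * 1 := by field_simp
      _ = (Real.exp 1) ^ A.card := Real.exp_nat_mul _ _
      _ ≤ _ := by
          refine pow_le_pow_left₀ (Real.exp_pos 1).le ?_ _
          have := Real.exp_one_lt_d9
          linarith
  have h9 : (E.card : ℝ) * 8 ^ A.card ≤ 2 * (Om α M).card := by
    have g1 : (22 : ℝ) ^ A.card = 8 ^ A.card * (11 / 4) ^ A.card := by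
      rw [← mul_pow]; norm_num
    have g2 : (0 : ℝ) < (11 / 4 : ℝ) ^ A.card := by positivity
    rw [g1] at h6
    refine le_of_mul_le_mul_right ?_ g2
    calc (E.card : ℝ) * 8 ^ A.card * (11 / 4) ^ A.card = E.card * (8 ^ A.card * (11 / 4) ^ A.card) := by
          ring
      _ ≤ 2 * (1 + 1 / (κ : ℝ)) ^ Fintype.card α * (Om α M).card := h6
      _ ≤ 2 * (11 / 4 : ℝ) ^ A.card * (Om α M).card := by gcongr
      _ = _ := by ring
  have h10 : (8 : ℝ) ≤ 8 ^ A.card := by
    calc (8 : ℝ) = 8 ^ 1 := by norm_num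
      _ ≤ _ := pow_le_pow_right₀ (by norm_num) hw
  have h11 : (4 * E.card : ℝ) ≤ (Om α M).card := by
    have g1 : (E.card : ℝ) * 8 ≤ E.card * 8 ^ A.card := by gcongr
    linarith
  have hc : (cnt α M fun f => A.card ≤ 2 * (A.filter fun x => len M f x ≤ M / (512 * κ)).card) =
      E.card := by
    unfold Pool.Agent.H36.BK.cnt
    congr 1
    ext f
    simp only [hE, Finset.mem_filter]
  rw [hc]
  exact_mod_cast h11

end Pool.Agent.H34.BL
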