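import Pool.Agent.H34.BL.Stm
import Pool.Agent.H34.RK.Asm5

/-!
# Project BL: two-sided bounds and growth for posets with at most `w^(11/10)` elements
-/

set_option autoImplicit false

open Finset Filter Topology

namespace Pool.Agent.H34.BL

open Pool.Agent.H13R3.WB Pool.Agent.H931R3.Bal

lemma bal_nn (P : Type) [Fintype P] [PartialOrder P] : 0 ≤ balance P := by
  unfold balance
  refine Real.iSup_nonneg fun p => ?_
  unfold prob
  exact le_min (by positivity) (by positivity)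

lemma bdd_dP (w : ℕ) : BddBelow {d : ℝ | ∃ (P : Type) (_ : Fintype P) (_ : PartialOrder P),
    (Fintype.card P : ℝ) ≤ (w : ℝ) ^ (11 / 10 : ℝ) ∧ HasWidth P w ∧ balance P = d} := by
  refine ⟨0, ?_⟩
  rintro d ⟨P, _, _, _, _, rfl⟩
  exact bal_nn P

/-- the upper bound, from project RK -/
theorem up1 (hmain : Pool.Agent.H34.RK.S_MAIN2E) : ∃ w₀ : ℕ, ∀ w : ℕ, w₀ ≤ w →
    dP w ≤ 1 / 2 - 1 / Real.log w ^ 3061 := by
  obtain ⟨w₁, h1⟩ := hmain
  refine ⟨max w₁ 1024, fun w hw => ?_⟩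
  obtain ⟨P, i1, i2, hc, hP, hb⟩ := h1 w ((le_max_left _ _).trans hw)
  refine (csInf_le (bdd_dP w) ⟨P, i1, i2, ?_, hP, rfl⟩).trans hb
  have hw2 : (1024 : ℝ) ≤ w := by exact_mod_cast (le_max_right _ _).trans hw
  have hw0 : (0 : ℝ) < w := by linarith
  have h2 : (2 : ℝ) ≤ (w : ℝ) ^ (1 / 10 : ℝ) := by
    have h3 : ((2 : ℝ) ^ (10 : ℕ)) ^ (1 / 10 : ℝ) ≤ (w : ℝ) ^ (1 / 10 : ℝ) :=
      Real.rpow_le_rpow (by positivity)
        (by rw [show ((2 : ℝ) ^ (10 : ℕ)) = 1024 by norm_num]; exact hw2) (by norm_num)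
    rw [← Real.rpow_natCast, ← Real.rpow_mul (by norm_num)] at h3
    norm_num at h3
    norm_num
    exact h3
  calc (Fintype.card P : ℝ) ≤ 2 * w := by exact_mod_cast hc
    _ ≤ (w : ℝ) ^ (1 / 10 : ℝ) * w := mul_le_mul_of_nonneg_right h2 hw0.le
    _ = (w : ℝ) ^ (11 / 10 : ℝ) := by
        rw [show (11 / 10 : ℝ) = 1 / 10 + 1 by norm_num, Real.rpow_add hw0, Real.rpow_one]

/-- for large `x` -/
theorem large_y (C : ℝ) : ∀ᶠ x : ℝ in atTop,
    (C * (766 * Real.log x) ^ 2) ^ 4 < x ^ 3 ∧ 16 ≤ x ∧ Real.exp 2 ≤ x := by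
  have h2 : (fun x : ℝ => (C * (766 * Real.log x) ^ 2) ^ 4) =o[atTop] (fun x : ℝ => x) := by
    have e : (fun x : ℝ => (C * (766 * Real.log x) ^ 2) ^ 4) =
        fun x : ℝ => (C ^ 4 * 766 ^ 8) * Real.log x ^ 8 := by
      ext x
      ring
    rw [e]
    exact Asymptotics.IsLittleO.const_mul_left Real.isLittleO_pow_log_id_atTop _
  have h3 := h2.def (by norm_num : (0 : ℝ) < 1)
  filter_upwards [eventually_ge_atTop (16 : ℝ), eventually_ge_atTop (Real.exp 2), h3]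
    with x ha hb hc
  refine ⟨?_, ha, hb⟩
  have h6 : ‖x‖ = x := Real.norm_of_nonneg (by linarith)
  rw [h6, one_mul] at hc
  have h7 : (C * (766 * Real.log x) ^ 2) ^ 4 ≤ x := (le_abs_self _).trans hc
  have h8 : x < x ^ 3 := by
    have : 1 < x ^ 2 := one_lt_pow₀ (by linarith) (by norm_num)
    nlinarith
  linarith

/-- `(log y)^2 / y` decreases for `y ≥ e^2` -/
theorem mono_logsq {a b : ℝ} (ha : Real.exp 2 ≤ a) (hab : a ≤ b) :
    Real.log b ^ 2 / b ≤ Real.log a ^ 2 / a := by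
  have ha0 : 0 < a := lt_of_lt_of_le (Real.exp_pos _) ha
  have hb0 : 0 < b := by linarith
  have hla : 2 ≤ Real.log a := (Real.le_log_iff_exp_le ha0).2 ha
  obtain ⟨t, ht⟩ : ∃ t : ℝ, t = b / a := ⟨_, rfl⟩
  have ht1 : 1 ≤ t := by rw [ht, one_le_div ha0]; exact hab
  have hb : b = t * a := by rw [ht]; field_simp
  have ht0 : 0 < t := by linarith
  rw [hb, Real.log_mul ht0.ne' ha0.ne', div_le_div_iff₀ (by positivity) ha0]
  -- `(log t + log a)^2 ≤ t (log a)^2`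
  have h1 : Real.log t ≤ 2 * (Real.sqrt t - 1) := by
    have h2 : Real.log t = 2 * Real.log (Real.sqrt t) := by
      rw [← Real.log_rpow (Real.sqrt_pos.2 ht0), Real.rpow_two, Real.sq_sqrt ht0.le]
    rw [h2]
    have h3 := Real.log_le_sub_one_of_pos (Real.sqrt_pos.2 ht0)
    linarith
  have hs1 : 1 ≤ Real.sqrt t := by
    rw [← Real.sqrt_one]
    exact Real.sqrt_le_sqrt ht1
  have h4 : Real.log t + Real.log a ≤ Real.sqrt t * Real.log a := by
    have h5 : Real.log t ≤ (Real.sqrt t - 1) * Real.log a := by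
      calc Real.log t ≤ 2 * (Real.sqrt t - 1) := h1
        _ ≤ Real.log a * (Real.sqrt t - 1) := mul_le_mul_of_nonneg_right hla (by linarith)
        _ = _ := mul_comm _ _
    linarith
  have h0 : 0 ≤ Real.log t + Real.log a := by
    have := Real.log_nonneg ht1
    linarith
  have h6 : (Real.log t + Real.log a) ^ 2 ≤ t * Real.log a ^ 2 := by
    calc (Real.log t + Real.log a) ^ 2 ≤ (Real.sqrt t * Real.log a) ^ 2 :=
          pow_le_pow_left₀ h0 h4 2
      _ = t * Real.log a ^ 2 := by rw [mul_pow, Real.sq_sqrt ht0.le]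
  calc (Real.log t + Real.log a) ^ 2 * a ≤ t * Real.log a ^ 2 * a :=
        mul_le_mul_of_nonneg_right h6 ha0.le
    _ = Real.log a ^ 2 * (t * a) := by ring

/-- growth -/
theorem fin1 (hmain : Pool.Agent.H34.RK.S_MAIN2E) (hrate : S_rate1) : ∃ (C : ℝ) (w₀ : ℕ), 1 ≤ C ∧
    (∀ w : ℕ, w₀ ≤ w → 1 / 2 - (C * (Real.log (Real.log w) ^ 2 / Real.log w)) ^ 4 ≤ dP w ∧
      dP w ≤ 1 / 2 - 1 / Real.log w ^ 3061) ∧
    (∀ w v : ℕ, w₀ ≤ w → Real.exp (Real.log w ^ 766) ≤ v → dP w < dP v) := by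
  obtain ⟨C, hC, h1⟩ := hrate
  obtain ⟨w₁, h2⟩ := up1 hmain
  have hlog : Tendsto (fun w : ℕ => Real.log (w : ℝ)) atTop atTop :=
    Real.tendsto_log_atTop.comp tendsto_natCast_atTop_atTop
  obtain ⟨w₂, hw₂⟩ := eventually_atTop.1 (hlog.eventually (large_y C))
  refine ⟨C, max (max w₁ w₂) 16, hC, fun w hw => ⟨h1 w ((le_max_right _ _).trans hw),
    h2 w ((le_max_left _ _).trans ((le_max_left _ _).trans hw))⟩, fun w v hw hv => ?_⟩
  have h3 := h2 w ((le_max_left _ _).trans ((le_max_left _ _).trans hw))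
  obtain ⟨h4, h5, h6⟩ := hw₂ w ((le_max_right _ _).trans ((le_max_left _ _).trans hw))
  have hw16 : 16 ≤ w := (le_max_right _ _).trans hw
  obtain ⟨x, hx⟩ : ∃ x : ℝ, x = Real.log w := ⟨_, rfl⟩
  rw [← hx] at h3 h4 h5 h6 hv
  have hx0 : 0 < x := by linarith
  have hx1 : 1 ≤ x := by linarith
  have hv0 : (0 : ℝ) < v := lt_of_lt_of_le (Real.exp_pos _) hv
  have hlv : x ^ 766 ≤ Real.log v := (Real.le_log_iff_exp_le hv0).2 hv
  have hwv : w ≤ v := by
    have h7 : (w : ℝ) ≤ v := by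
      have hw0 : (0 : ℝ) < w := by exact_mod_cast (by omega : 0 < w)
      calc (w : ℝ) = Real.exp x := by rw [hx, Real.exp_log hw0]
        _ ≤ Real.exp (x ^ 766) := Real.exp_le_exp.2 (le_self_pow₀ hx1 (by norm_num))
        _ ≤ v := hv
    exact_mod_cast h7
  have h8 := h1 v (hw16.trans hwv)
  have h9 : Real.log (Real.log v) ^ 2 / Real.log v ≤ Real.log (x ^ 766) ^ 2 / x ^ 766 :=
    mono_logsq (h6.trans (le_self_pow₀ hx1 (by norm_num))) hlv
  have hlv1 : 1 ≤ Real.log v := (one_le_pow₀ hx1).trans hlv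
  have h10 : (C * (Real.log (Real.log v) ^ 2 / Real.log v)) ^ 4 ≤
      (C * (Real.log (x ^ 766) ^ 2 / x ^ 766)) ^ 4 := by
    apply pow_le_pow_left₀ (by positivity)
    exact mul_le_mul_of_nonneg_left h9 (by linarith)
  have h11 : (C * (Real.log (x ^ 766) ^ 2 / x ^ 766)) ^ 4 < 1 / x ^ 3061 := by
    rw [Real.log_pow]
    have e1 : (C * ((((766 : ℕ) : ℝ) * Real.log x) ^ 2 / x ^ 766)) ^ 4 =
        (C * (766 * Real.log x) ^ 2) ^ 4 / (x ^ 3 * x ^ 3061) := by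
      push_cast
      rw [← pow_add, mul_div_assoc', div_pow, ← pow_mul]
    rw [e1, div_lt_div_iff₀ (by positivity) (by positivity), one_mul]
    exact mul_lt_mul_of_pos_right h4 (by positivity)
  linarith

end Pool.Agent.H34.BL
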