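import Pool.Agent.H34.BL.Stm

/-! Project BL, stub NUM: the choice of the parameters. -/

set_option autoImplicit false

open Finset Filter Topology
open scoped Classical

namespace Pool.Agent.H34.BL

open Pool.Agent.H36.BK

theorem num1 : S_num1 := by
  refine ⟨2 ^ 25, by norm_num, ?_⟩
  intro κ w ε hκ hκw hε hε2 hw
  have hκ1 : (1 : ℝ) ≤ κ := by exact_mod_cast hκ
  have hκ0 : (0 : ℝ) < κ := by linarith
  set K : ℝ := 2 ^ 16 * (κ : ℝ) with hK
  have hK1 : (1 : ℝ) ≤ K := by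
    rw [hK]
    linarith
  have hK0 : 0 < K := by linarith
  set L : ℝ := Real.log (1 / ε) with hL
  have hL0 : 0 ≤ L := Real.log_nonneg (by rw [le_div_iff₀ hε]; linarith)
  have hεL : 1 / ε = Real.exp L := (Real.exp_log (by positivity)).symm
  set a : ℝ := Real.exp (L / 4) with ha
  have ha1 : 1 ≤ a := Real.one_le_exp (by positivity)
  have ha4 : 1 / ε = a ^ 4 := by
    rw [hεL, ha, ← Real.exp_nat_mul]
    congr 1
    push_cast
    ring
  have haε : ε ^ (-(1 / 4 : ℝ)) = a := by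
    have h1 : Real.log (1 / ε) = -Real.log ε := by rw [one_div, Real.log_inv]
    rw [Real.rpow_def_of_pos hε, ha, hL, h1]
    congr 1
    ring
  set G : ℝ := Real.log (2 / ε) with hG
  have hGL : G = Real.log 2 + L := by
    rw [hG, hL, ← Real.log_mul (by norm_num) (by positivity)]
    congr 1
    ring
  have hlog2 : 0.6931471803 < Real.log 2 := Real.log_two_gt_d9
  have hL2 : Real.log 2 ≤ L := Real.log_le_log (by norm_num) (by rw [le_div_iff₀ hε]; linarith)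
  have hG2 : 2 * Real.log 2 ≤ G := by linarith
  have hG1 : 1 ≤ G := by linarith
  have hLG : L ≤ G := by linarith
  -- `l`
  obtain ⟨l, hl1, hl2⟩ : ∃ l : ℕ, a ≤ 2 ^ l ∧ (2 : ℝ) ^ l ≤ 2 * a := by
    obtain ⟨n, hn1, hn2⟩ := exists_nat_pow_near ha1 (by norm_num : (1 : ℝ) < 2)
    exact ⟨n + 1, hn2.le, by rw [pow_succ]; linarith⟩
  -- `r`
  obtain ⟨r, hr1, hr2⟩ : ∃ r : ℕ, 8 * K / ε ≤ 2 ^ r ∧ (2 : ℝ) ^ r ≤ 16 * K / ε := by
    have h8 : 1 ≤ 8 * K / ε := by
      rw [le_div_iff₀ hε]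
      linarith
    obtain ⟨n, hn1, hn2⟩ := exists_nat_pow_near h8 (by norm_num : (1 : ℝ) < 2)
    refine ⟨n + 1, hn2.le, ?_⟩
    rw [pow_succ]
    calc (2 : ℝ) ^ n * 2 ≤ 8 * K / ε * 2 := by gcongr
      _ = 16 * K / ε := by ring
  -- `k`
  obtain ⟨k, hk1, hk2⟩ : ∃ k : ℕ, 64 / ε ≤ 2 ^ k ∧ (2 : ℝ) ^ k ≤ 128 / ε := by
    have h64 : 1 ≤ 64 / ε := by
      rw [le_div_iff₀ hε]
      linarith
    obtain ⟨n, hn1, hn2⟩ := exists_nat_pow_near h64 (by norm_num : (1 : ℝ) < 2)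
    refine ⟨n + 1, hn2.le, ?_⟩
    rw [pow_succ]
    calc (2 : ℝ) ^ n * 2 ≤ 64 / ε * 2 := by gcongr
      _ = 128 / ε := by ring
  have hkG : (k : ℝ) ≤ 6 * G := by
    have h1 := Real.log_le_log (by positivity) hk2
    rw [Real.log_pow] at h1
    have h2 : Real.log (128 / ε) = 6 * Real.log 2 + G := by
      have : (128 : ℝ) / ε = 2 ^ 6 * (2 / ε) := by ring
      rw [this, Real.log_mul (by positivity) (by positivity), Real.log_pow, hG]
      push_cast
      ring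
    rw [h2] at h1
    have h3 : (k : ℝ) * Real.log 2 ≤ 6 * G * Real.log 2 := by nlinarith
    exact le_of_mul_le_mul_right h3 (by linarith)
  -- `q`
  obtain ⟨q, hq1, hq2⟩ : ∃ q : ℕ, 1 + 4 * k ≤ 2 ^ q ∧ (2 : ℝ) ^ q ≤ 2 * (1 + 4 * k) := by
    have h1 : (1 : ℝ) ≤ 1 + 4 * k := by
      have : (0 : ℝ) ≤ k := Nat.cast_nonneg k
      linarith
    obtain ⟨n, hn1, hn2⟩ := exists_nat_pow_near h1 (by norm_num : (1 : ℝ) < 2)
    refine ⟨n + 1, ?_, ?_⟩
    · exact_mod_cast hn2.le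
    · rw [pow_succ]
      linarith
  set K' : ℝ := 2 ^ (q + 1) + 1 with hK'
  have hK'0 : 0 < K' := by positivity
  have hK'G : K' ≤ 101 * G := by
    rw [hK', pow_succ]
    linarith
  -- `lam`, `c`, `D`
  set lam : ℝ := ε ^ 2 / (768 * K) with hlam
  have hlam0 : 0 < lam := by positivity
  set c : ℝ := lam ^ 3 / (32 * K ^ 2) with hc
  have hc0 : 0 < c := by positivity
  set Y : ℝ := (κ : ℝ) ^ 7 / ε ^ 6 with hY
  have hY1 : 1 ≤ Y := by
    rw [hY, le_div_iff₀ (by positivity)]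
    have h1 : 1 ≤ (κ : ℝ) ^ 7 := one_le_pow₀ hκ1
    have h2 : ε ^ 6 ≤ 1 := pow_le_one₀ hε.le (by linarith)
    linarith
  have hcY : 2 ^ 17 * (κ : ℝ) ^ 2 / c ≤ 2 ^ 131 * Y := by
    have e1 : 2 ^ 17 * (κ : ℝ) ^ 2 / c = 2 ^ 102 * 768 ^ 3 * Y := by
      rw [hc, hlam, hY, hK]
      field_simp
      norm_num
    rw [e1]
    refine mul_le_mul_of_nonneg_right (by norm_num) (by linarith)
  set D : ℕ := ⌈2 ^ 17 * (κ : ℝ) ^ 2 / c⌉₊ with hD
  have hD1 : 2 ^ 17 * (κ : ℝ) ^ 2 / c ≤ D := Nat.le_ceil _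
  have hD2 : (D : ℝ) < 2 ^ 17 * (κ : ℝ) ^ 2 / c + 1 := Nat.ceil_lt_add_one (by positivity)
  refine ⟨l, D, r, k, q, lam, c, ?_, hlam0.le, hc0, hr1, ?_, ?_, ?_, hk1, hq1, ?_⟩
  · exact Nat.one_le_ceil_iff.2 (by positivity)
  · calc 12 * (2 : ℝ) ^ r * lam ≤ 12 * (16 * K / ε) * lam := by gcongr
      _ = ε / 4 := by
          rw [hlam]
          field_simp
          ring
  · rw [hc]
    apply le_of_eq
    field_simp
  · rwa [div_le_iff₀ hc0] at hD1
  · -- the main inequality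
    have hclu := BK23.clu_le l K' ε a L hK'0 hε ha1 (by linarith) ha ha4 hl1 hl2 hL0
    have hclu0 : 0 < clu l K' ε := by
      unfold clu
      positivity
    set W : ℝ := (w : ℝ) ^ (1 / 10 : ℝ) with hW
    have hw0 : (0 : ℝ) < w := lt_of_lt_of_le (Real.exp_pos _) hw
    have hW0 : 0 < W := Real.rpow_pos_of_pos hw0 _
    have hW10 : W ^ 10 = w := by
      rw [hW, ← Real.rpow_natCast, ← Real.rpow_mul hw0.le]
      norm_num
    have hκW : (κ : ℝ) ≤ 2 * W := by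
      have h1 : (κ : ℝ) ^ 10 ≤ (2 * W) ^ 10 := by
        rw [mul_pow, hW10]
        exact hκw
      exact (pow_le_pow_iff_left₀ hκ0.le (by positivity) (by norm_num)).1 h1
    have hκ8 : (κ : ℝ) ^ 8 ≤ 2 ^ 8 * W ^ 8 := by
      rw [← mul_pow]
      exact pow_le_pow_left₀ hκ0.le hκW 8
    set T : ℝ := a * G ^ 2 with hT
    have hT0 : 0 < T := by positivity
    have hW2 : Real.exp (6700000 * T) ≤ W ^ 2 := by
      have h1 : Real.exp (6700000 * T) ^ 5 ≤ (W ^ 2) ^ 5 := by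
        rw [← Real.exp_nat_mul, ← pow_mul, hW10]
        refine le_trans (Real.exp_le_exp.2 ?_) hw
        rw [haε, hT]
        have h2 : 0 ≤ a * G ^ 2 := by positivity
        push_cast
        nlinarith
      exact (pow_le_pow_iff_left₀ (Real.exp_pos _).le (by positivity) (by norm_num)).1 h1
    have hconst : 12 * 2 ^ 17 * (κ : ℝ) * (2 * D + 1) ≤ 2 ^ 163 * W ^ 8 * (1 / ε ^ 6) := by
      have h1 : 2 * (D : ℝ) + 1 ≤ 2 ^ 134 * Y := by
        have : (D : ℝ) ≤ 2 ^ 131 * Y + 1 := by linarith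
        nlinarith
      calc 12 * 2 ^ 17 * (κ : ℝ) * (2 * D + 1) ≤ 12 * 2 ^ 17 * (κ : ℝ) * (2 ^ 134 * Y) := by
            gcongr
        _ = 12 * 2 ^ 151 * ((κ : ℝ) ^ 8 * (1 / ε ^ 6)) := by
            rw [hY]
            ring
        _ ≤ 2 ^ 155 * ((2 ^ 8 * W ^ 8) * (1 / ε ^ 6)) := by
            refine mul_le_mul (by norm_num) ?_ (by positivity) (by positivity)
            exact mul_le_mul_of_nonneg_right hκ8 (by positivity)
        _ = 2 ^ 163 * W ^ 8 * (1 / ε ^ 6) := by ring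
    have h6 : 1 / ε ^ 6 = Real.exp (6 * L) := by
      have : 1 / ε ^ 6 = (1 / ε) ^ 6 := by
        field_simp
      rw [this, hεL, ← Real.exp_nat_mul]
      norm_num
    have h163 : (2 : ℝ) ^ 163 ≤ Real.exp 163 := by exact_mod_cast BK23.two_pow_le 163
    have hexp : 163 + 6 * L + (150 * a + 35 * a * L + 3 + L + 629 * K' ^ 2 * a) <
        6700000 * T := by
      have g1 : K' ^ 2 ≤ (101 * G) ^ 2 := pow_le_pow_left₀ hK'0.le hK'G 2
      have g2 : 629 * K' ^ 2 * a ≤ 629 * (101 * G) ^ 2 * a := by gcongr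
      have gG : 1 ≤ G ^ 2 := one_le_pow₀ hG1
      have gGG : G ≤ G ^ 2 := by nlinarith
      have g3 : G ^ 2 ≤ T := by
        rw [hT]
        nlinarith
      have g4 : a ≤ T := by
        rw [hT]
        nlinarith
      have g5 : a * L ≤ T := by
        rw [hT]
        exact mul_le_mul_of_nonneg_left (hLG.trans gGG) (by linarith)
      have g6 : 629 * (101 * G) ^ 2 * a = 6416429 * T := by
        rw [hT]
        ring
      rw [g6] at g2
      nlinarith
    calc 12 * 2 ^ 17 * (κ : ℝ) * (2 * D + 1) * clu l K' ε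
        ≤ (2 ^ 163 * W ^ 8 * (1 / ε ^ 6)) *
          Real.exp (150 * a + 35 * a * L + 3 + L + 629 * K' ^ 2 * a) :=
          mul_le_mul hconst hclu hclu0.le (by positivity)
      _ ≤ (Real.exp 163 * W ^ 8 * Real.exp (6 * L)) *
          Real.exp (150 * a + 35 * a * L + 3 + L + 629 * K' ^ 2 * a) := by
          rw [h6]
          gcongr
      _ = W ^ 8 * Real.exp (163 + 6 * L +
          (150 * a + 35 * a * L + 3 + L + 629 * K' ^ 2 * a)) := by
          rw [Real.exp_add (163 + 6 * L), Real.exp_add 163]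
          ring
      _ < W ^ 8 * Real.exp (6700000 * T) := by
          refine mul_lt_mul_of_pos_left (Real.exp_lt_exp.2 hexp) (by positivity)
      _ ≤ W ^ 8 * W ^ 2 := mul_le_mul_of_nonneg_left hW2 (by positivity)
      _ = w := by rw [← pow_add, hW10]

end Pool.Agent.H34.BL
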