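import Pool.Agent.H34.BL.Stm

/-! Project BL, stub RATE. -/

set_option autoImplicit false

open Finset Filter Topology
open scoped Classical

namespace Pool.Agent.H34.BL

open Pool.Agent.H36.BK Pool.Agent.H36.BK.LW Pool.Agent.H13R3.WB Pool.Agent.H931R3.Bal

theorem dP_nonempty (w : ℕ) (hw : 1 ≤ w) : {d : ℝ | ∃ (P : Type) (_ : Fintype P)
    (_ : PartialOrder P), (Fintype.card P : ℝ) ≤ (w : ℝ) ^ (11 / 10 : ℝ) ∧ HasWidth P w ∧
      balance P = d}.Nonempty := by
  obtain ⟨P, i1, i2, -, h2, h3⟩ := exists_anti (w - 1)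
  refine ⟨_, P, i1, i2, ?_, ⟨⟨univ, fun x _ y _ hxy h => hxy (h3 x y h), ?_⟩, fun s _ => ?_⟩, rfl⟩
  · rw [h2]
    have h1 : (1 : ℝ) ≤ w := by exact_mod_cast hw
    calc ((w - 1 + 1 : ℕ) : ℝ) = (w : ℝ) ^ (1 : ℝ) := by
          rw [Real.rpow_one]
          congr 1
          omega
      _ ≤ (w : ℝ) ^ (11 / 10 : ℝ) := Real.rpow_le_rpow_of_exponent_le h1 (by norm_num)
  · rw [card_univ, h2]; omega
  · refine (card_le_univ s).trans ?_
    rw [h2]; omega

theorem dP_nonneg (w : ℕ) (hw : 1 ≤ w) : 0 ≤ dP w := by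
  unfold dP
  apply le_csInf (dP_nonempty w hw)
  rintro d ⟨P, _, _, _, h4, rfl⟩
  have := nonempty_of_width hw h4
  exact balance_nonneg

theorem rate1 : S_thm1 → S_rate1 := by
  rintro ⟨C₀, hC₀, hT⟩
  refine ⟨16 * C₀, by linarith, fun w hw => ?_⟩
  have hw' : (16 : ℝ) ≤ w := by exact_mod_cast hw
  have hl2 := Real.log_two_gt_d9
  have hL : (2.7 : ℝ) ≤ Real.log w := by
    have h1 : Real.log 16 ≤ Real.log w := Real.log_le_log (by norm_num) hw'
    have h2 : Real.log 16 = 4 * Real.log 2 := by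
      rw [show (16 : ℝ) = 2 ^ 4 by norm_num, Real.log_pow]
      norm_num
    linarith
  have hLL : (0.5 : ℝ) ≤ Real.log (Real.log w) := by
    have h1 : Real.log 2 ≤ Real.log (Real.log w) := Real.log_le_log (by norm_num) (by linarith)
    linarith
  set L := Real.log w with hLd
  set C : ℝ := 16 * C₀ with hC
  have hC2 : (16 : ℝ) ≤ C := by rw [hC]; linarith
  have hC0 : 0 < C := by linarith
  have hL0 : 0 < L := by linarith
  have hLL0 : 0 < Real.log L := by linarith
  set q : ℝ := C * (Real.log L ^ 2 / L) with hq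
  have hq0 : 0 < q := by
    rw [hq]
    positivity
  by_cases hq1 : q ^ 4 ≤ 1 / 2
  · unfold dP
    apply le_csInf (dP_nonempty w (by omega))
    rintro d ⟨P, _, _, hP, ⟨⟨A, hA, hAc⟩, -⟩, rfl⟩
    refine hT w (q ^ 4) (by positivity) hq1 ?_ P A hA hAc hP
    have h1 : (q ^ 4) ^ (-(1 / 4 : ℝ)) = 1 / q := by
      rw [← Real.rpow_natCast, ← Real.rpow_mul hq0.le]
      norm_num
      rw [Real.rpow_neg_one]
    rw [h1]
    have hw0 : (0 : ℝ) < w := by linarith
    rw [← Real.le_log_iff_exp_le hw0, ← hLd]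
    have h2 : Real.log (2 / q ^ 4) ≤ 4 * Real.log L := by
      have h3 : 2 / q ^ 4 ≤ L ^ 4 := by
        rw [div_le_iff₀ (by positivity), ← mul_pow]
        have h4 : L * q = C * Real.log L ^ 2 := by
          rw [hq]
          field_simp
        rw [h4]
        have h5 : (2 : ℝ) ≤ C * Real.log L ^ 2 := by
          have h6 : (0.25 : ℝ) ≤ Real.log L ^ 2 := by nlinarith
          nlinarith
        calc (2 : ℝ) ≤ 2 ^ 4 := by norm_num
          _ ≤ (C * Real.log L ^ 2) ^ 4 := pow_le_pow_left₀ (by norm_num) h5 4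
      have h6 := Real.log_le_log (by positivity) h3
      rw [Real.log_pow] at h6
      exact_mod_cast h6
    have h2' : 0 ≤ Real.log (2 / q ^ 4) := by
      apply Real.log_nonneg
      rw [le_div_iff₀ (by positivity)]
      linarith
    have h7 : C₀ * (1 / q) * (4 * Real.log L) ^ 2 = L := by
      rw [hq, hC]
      field_simp
      norm_num
    calc C₀ * (1 / q) * Real.log (2 / q ^ 4) ^ 2
        ≤ C₀ * (1 / q) * (4 * Real.log L) ^ 2 := by
          refine mul_le_mul_of_nonneg_left (pow_le_pow_left₀ h2' h2 2) (by positivity)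
      _ = L := h7
  · have := dP_nonneg w (by omega)
    push Not at hq1
    linarith

end Pool.Agent.H34.BL
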