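import Pool.Agent.H34.BL.Stm

/-! Project BL, stub BL-THM (helper44): the theorem from `S_core1` and `S_num1`. -/

set_option autoImplicit false

open Finset

namespace Pool.Agent.H34.BL

open Pool.Agent.H36.BK Pool.Agent.H13R3.WB Pool.Agent.H931R3.Bal

theorem thm1 (hcore : S_core1) (hnum : S_num1) : S_thm1 := by
  obtain ⟨C, hC, hnum⟩ := hnum
  refine ⟨C, hC, ?_⟩
  intro w ε hε hε2 hw P _ _ A hA hAw hP
  by_contra hcon
  push Not at hcon
  have hw0 : 0 < w := by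
    have : (0 : ℝ) < w := lt_of_lt_of_le (Real.exp_pos _) hw
    exact_mod_cast this
  have hwR : (0 : ℝ) < w := by exact_mod_cast hw0
  have hw1 : (1 : ℝ) ≤ w := by exact_mod_cast hw0
  have hne : A.Nonempty := by
    rw [← Finset.card_pos, hAw]
    exact hw0
  have hwn : w ≤ Fintype.card P := by
    rw [← hAw]
    exact Finset.card_le_univ A
  set n := Fintype.card P with hn
  set κ : ℕ := ⌈(n : ℝ) / w⌉₊ with hκd
  have hnw : (1 : ℝ) ≤ (n : ℝ) / w := by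
    rw [one_le_div hwR]
    exact_mod_cast hwn
  have hκ : 1 ≤ κ := by
    have h1 : (1 : ℝ) ≤ κ := hnw.trans (Nat.le_ceil _)
    exact_mod_cast h1
  have hcard : n ≤ κ * A.card := by
    have h1 : (n : ℝ) / w ≤ κ := Nat.le_ceil _
    rw [div_le_iff₀ hwR] at h1
    rw [hAw]
    exact_mod_cast h1
  have hκ10 : (κ : ℝ) ^ 10 ≤ 2 ^ 10 * w := by
    have h1 : (κ : ℝ) ≤ (n : ℝ) / w + 1 := (Nat.ceil_lt_add_one (by linarith)).le
    have h2 : (n : ℝ) / w ≤ (w : ℝ) ^ (1 / 10 : ℝ) := by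
      rw [div_le_iff₀ hwR]
      refine hP.trans (le_of_eq ?_)
      nth_rewrite 3 [← Real.rpow_one (w : ℝ)]
      rw [← Real.rpow_add hwR]
      norm_num
    have h3 : (1 : ℝ) ≤ (w : ℝ) ^ (1 / 10 : ℝ) := Real.one_le_rpow hw1 (by norm_num)
    have h4 : (κ : ℝ) ≤ 2 * (w : ℝ) ^ (1 / 10 : ℝ) := by linarith
    calc (κ : ℝ) ^ 10 ≤ (2 * (w : ℝ) ^ (1 / 10 : ℝ)) ^ 10 :=
          pow_le_pow_left₀ (Nat.cast_nonneg _) h4 10
      _ = 2 ^ 10 * w := by
          rw [mul_pow, ← Real.rpow_natCast ((w : ℝ) ^ (1 / 10 : ℝ)) 10, ← Real.rpow_mul hwR.le]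
          norm_num
  obtain ⟨l, D, r, k, q, lam, c, h1, h2, h3, h4, h5, h6, h7, h8, h9, h10⟩ :=
    hnum κ w ε hκ hκ10 hε hε2 hw
  have hall : ∀ x ∈ A, ∀ y ∈ A, x ≠ y → 2 * ε < |prob P x y - prob P y x| := by
    intro x _ y _ hxy
    by_contra h
    push Not at h
    have hadd := prob_add hxy
    have hb := le_balance x y
    obtain ⟨a1, a2⟩ := abs_le.1 h
    have h7 : 1 / 2 - ε ≤ min (prob P x y) (prob P y x) := by
      apply le_min <;> linarith
    linarith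
  have h11 := hcore P κ A ε lam c l D r k q hκ hA hne hcard hε (by linarith) h1 h2 h3 h4 h5 h6 h7
    h8 h9 hall
  rw [hAw] at h11
  exact absurd (lt_of_le_of_lt h11 h10) (lt_irrefl _)

end Pool.Agent.H34.BL
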